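import Pool.Agent.Helper74.Foam.Cone

/-! Module C: counting arguments for large unions of cells. -/

set_option autoImplicit false

open MeasureTheory Measure Set Metric
open scoped ENNReal

namespace Pool.Agent.Helper74.Foam

variable {ι : Type*}

/-- the sites in the closed ball of radius `R` -/
noncomputable def sites {p : ι → E} (h : Vor p) (R : ℝ) : Finset ι := (h.lf R).toFinset

lemma mem_sites {p : ι → E} (h : Vor p) {R : ℝ} {i : ι} : i ∈ sites h R ↔ dist (p i) 0 ≤ R := by
  simp [sites]

theorem ball_le_card {p : ι → E} (h : Vor p) (hv : ∀ i, volume (cell p i) = 1) (R : ℝ) :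
    volume (ball (0 : E) (R - 2)) ≤ ((sites h R).card : ℝ≥0∞) := by
  have h1 : ball (0 : E) (R - 2) ⊆ ⋃ i ∈ sites h R, cell p i := by
    intro x hx
    obtain ⟨i, hi⟩ := exists_cell h x
    refine mem_biUnion (x := i) ?_ hi
    rw [mem_ball] at hx
    have h2 := dist_le_two h hi
    have h3 := dist_triangle_left (p i) 0 x
    exact (mem_sites h).2 (by linarith)
  refine (measure_mono h1).trans ((measure_biUnion_finset_le _ _).trans ?_)
  simp [hv]

theorem card_le_ball {p : ι → E} (h : Vor p) (hv : ∀ i, volume (cell p i) = 1) (R : ℝ) :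
    ((sites h R).card : ℝ≥0∞) ≤ volume (closedBall (0 : E) (R + 2)) := by
  have h1 := measure_biUnion_finset₀ (μ := (volume : Measure E)) (s := sites h R) (f := cell p)
    (fun i _ j _ hij => volume_facet h hij)
    (fun i _ => (measurableSet_cell p i).nullMeasurableSet)
  have h2 : volume (⋃ i ∈ sites h R, cell p i) = ((sites h R).card : ℝ≥0∞) := by
    rw [h1]
    simp [hv]
  rw [← h2]
  refine measure_mono (iUnion₂_subset fun i hi x hx => ?_)
  have h3 := dist_le_two h hx
  have h4 := (mem_sites h).1 hi
  rw [mem_closedBall]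
  have := dist_triangle x (p i) 0
  linarith

/-- every interface point lies on the boundary of at least two cells -/
theorem two_mul_area_le {p : ι → E} (h : Vor p) (R : ℝ) :
    2 * μHE[3] (⋃ i ∈ sites h R, frontier (cell p i))
      ≤ ∑ i ∈ sites h (R + 4), μHE[3] (frontier (cell p i)) := by
  classical
  have hm : ∀ i, MeasurableSet (frontier (cell p i)) := fun i => isClosed_frontier.measurableSet
  have hX : MeasurableSet (⋃ i ∈ sites h R, frontier (cell p i)) :=
    Finset.measurableSet_biUnion _ fun i _ => hm i
  have h1 : ∑ i ∈ sites h (R + 4), μHE[3] (frontier (cell p i)) =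
      ∫⁻ x : E, ∑ i ∈ sites h (R + 4), (frontier (cell p i)).indicator (fun _ => (1 : ℝ≥0∞)) x
        ∂(μHE[3]) := by
    rw [lintegral_finsetSum _ fun i _ => measurable_const.indicator (hm i)]
    refine Finset.sum_congr rfl fun i _ => ?_
    rw [lintegral_indicator_const (hm i), one_mul]
  rw [h1, ← lintegral_indicator_const hX]
  refine lintegral_mono fun x => ?_
  by_cases hx : x ∈ ⋃ i ∈ sites h R, frontier (cell p i)
  · rw [indicator_of_mem hx]
    simp only [mem_iUnion] at hx
    obtain ⟨i, hi, hxi⟩ := hx
    have h2 := frontier_cell_subset h i hxi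
    simp only [mem_iUnion] at h2
    obtain ⟨j, hj, hxj⟩ := h2
    have hne : j ≠ i := hj
    have h3 := dist_le_four h hxj.1 hxj.2
    have h4 := (mem_sites h).1 hi
    have hi' : i ∈ sites h (R + 4) := (mem_sites h).2 (by linarith)
    have hj' : j ∈ sites h (R + 4) := by
      refine (mem_sites h).2 ?_
      have := dist_triangle_left (p j) 0 (p i)
      linarith
    have hxj' : x ∈ frontier (cell p j) := facet_subset_frontier h hne ⟨hxj.2, hxj.1⟩
    have h5 : ({i, j} : Finset ι) ⊆ sites h (R + 4) := by
      intro k hk
      rw [Finset.mem_insert, Finset.mem_singleton] at hk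
      rcases hk with rfl | rfl
      · exact hi'
      · exact hj'
    refine le_trans ?_ (Finset.sum_le_sum_of_subset h5)
    rw [Finset.sum_pair hne.symm, indicator_of_mem hxi, indicator_of_mem hxj']
    norm_num
  · rw [indicator_of_notMem hx]
    exact bot_le

/-- almost every interface point lies on the boundary of at most two cells -/
theorem sum_area_le {p : ι → E} (h : Vor p) (R : ℝ) :
    ∑ i ∈ sites h (R - 4), μHE[3] (frontier (cell p i))
      ≤ 2 * μHE[3] ((⋃ i ∈ sites h R, frontier (cell p i)) \
          ⋃ i ∈ {i | i ∉ sites h R}, frontier (cell p i)) := by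
  classical
  have hcount := h.countable
  have hm : ∀ i, MeasurableSet (frontier (cell p i)) := fun i => isClosed_frontier.measurableSet
  set W : Set E := (⋃ i ∈ sites h R, frontier (cell p i)) \
          ⋃ i ∈ {i | i ∉ sites h R}, frontier (cell p i) with hW
  have h1 : ∑ i ∈ sites h (R - 4), μHE[3] (frontier (cell p i)) =
      ∫⁻ x : E, ∑ i ∈ sites h (R - 4), (frontier (cell p i)).indicator (fun _ => (1 : ℝ≥0∞)) x
        ∂(μHE[3]) := by
    rw [lintegral_finsetSum _ fun i _ => measurable_const.indicator (hm i)]
    refine Finset.sum_congr rfl fun i _ => ?_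
    rw [lintegral_indicator_const (hm i), one_mul]
  rw [h1]
  refine le_trans ?_ (lintegral_indicator_const_le W 2)
  -- the null set of triple points
  have hN : ∀ᵐ x ∂(μHE[3] : Measure E), ∀ i j k : ι, i ≠ j → i ≠ k → j ≠ k →
      x ∉ cell p i ∩ cell p j ∩ cell p k := by
    rw [ae_all_iff]; intro i
    rw [ae_all_iff]; intro j
    rw [ae_all_iff]; intro k
    by_cases hij : i ≠ j
    · by_cases hik : i ≠ k
      · by_cases hjk : j ≠ k
        · have h2 := area_triple h hij hik hjk
          have h3 := measure_eq_zero_iff_ae_notMem.1 h2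
          filter_upwards [h3] with x hx _ _ _
          exact hx
        · exact Filter.Eventually.of_forall fun x _ _ h => absurd h hjk
      · exact Filter.Eventually.of_forall fun x _ h => absurd h hik
    · exact Filter.Eventually.of_forall fun x h => absurd h hij
  refine lintegral_mono_ae ?_
  filter_upwards [hN] with x hx
  by_cases hxW : x ∈ W
  · rw [indicator_of_mem hxW]
    have h2 : ∑ i ∈ sites h (R - 4), (frontier (cell p i)).indicator (fun _ => (1 : ℝ≥0∞)) x =
        (((sites h (R - 4)).filter fun i => x ∈ frontier (cell p i)).card : ℝ≥0∞) := by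
      simp only [indicator_apply]
      rw [Finset.sum_ite]
      simp
    rw [h2]
    have h3 : ((sites h (R - 4)).filter fun i => x ∈ frontier (cell p i)).card ≤ 2 := by
      by_contra hc
      push Not at hc
      obtain ⟨i, hi, j, hj, k, hk, hij, hik, hjk⟩ := Finset.two_lt_card.1 hc
      rw [Finset.mem_filter] at hi hj hk
      have hcl := fun i => (isClosed_cell p i).frontier_subset
      exact hx i j k hij hik hjk ⟨⟨hcl i hi.2, hcl j hj.2⟩, hcl k hk.2⟩
    exact_mod_cast h3
  · rw [indicator_of_notMem hxW]
    refine le_of_eq (Finset.sum_eq_zero fun i hi => ?_)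
    refine indicator_of_notMem (fun hxi => hxW ?_) _
    have h4 := (mem_sites h).1 hi
    have hcl := fun i => (isClosed_cell p i).frontier_subset
    refine ⟨mem_biUnion (x := i) ((mem_sites h).2 (by linarith)) hxi, ?_⟩
    intro hc
    simp only [mem_iUnion] at hc
    obtain ⟨j, hj, hxj⟩ := hc
    refine hj ((mem_sites h).2 ?_)
    have h5 := dist_le_four h (hcl i hxi) (hcl j hxj)
    have := dist_triangle_left (p j) 0 (p i)
    linarith

end Pool.Agent.Helper74.Foam
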