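import Pool.Agent.Helper74.Foam.Defs

/-! Module L: cutting a bounded set into unit volumes with little area. -/

set_option autoImplicit false

open MeasureTheory Measure Set Metric
open scoped ENNReal

namespace Pool.Agent.Helper74.Foam

namespace Leftov

/-- the isometric embedding of a coordinate hyperplane -/
noncomputable def emb (i : Fin 4) (c : ℝ) (y : EuclideanSpace ℝ (Fin 3)) : E :=
  WithLp.toLp 2 (i.insertNth c (fun k => y k))

lemma emb_isometry (i : Fin 4) (c : ℝ) : Isometry (emb i c) := by
  refine Isometry.of_dist_eq fun x y => ?_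
  rw [EuclideanSpace.dist_eq, EuclideanSpace.dist_eq]
  congr 1
  rw [Fin.sum_univ_succAbove _ i]
  simp [emb]

/-- area of a set contained in a coordinate hyperplane -/
theorem area_slice (i : Fin 4) (c : ℝ) (A : Set (Fin 3 → ℝ)) (F : Set E)
    (hF : ∀ x ∈ F, x i = c ∧ (fun k => x (i.succAbove k)) ∈ A) : μHE[3] F ≤ volume A := by
  have h1 : F ⊆ emb i c '' ((MeasurableEquiv.toLp 2 (Fin 3 → ℝ)).symm ⁻¹' A) := by
    intro x hx
    obtain ⟨h1, h2⟩ := hF x hx
    refine ⟨WithLp.toLp 2 (fun k => x (i.succAbove k)), h2, ?_⟩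
    ext j
    rcases Fin.eq_self_or_eq_succAbove i j with rfl | ⟨k, rfl⟩
    · simp [emb, h1]
    · simp [emb]
  refine (measure_mono h1).trans ?_
  rw [(emb_isometry i c).euclideanHausdorffMeasure_image,
    EuclideanSpace.euclideanHausdorffMeasure_eq_volume,
    (EuclideanSpace.volume_preserving_symm_measurableEquiv_toLp (Fin 3)).measure_preimage_equiv]

/-- integer parts of the coordinates -/
noncomputable def flr (y : E) : Fin 4 → ℤ := fun i => ⌊y i⌋

lemma measurable_flr : Measurable flr := by
  refine measurable_pi_lambda _ fun i => ?_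
  have h1 : Measurable (fun y : E => y i) := by fun_prop
  exact Int.measurable_floor.comp h1

lemma flr_mem (y : E) (i : Fin 4) : (flr y i : ℝ) ≤ y i ∧ y i < flr y i + 1 :=
  ⟨Int.floor_le _, Int.lt_floor_add_one _⟩

/-- a set inside a unit cube and a coordinate hyperplane has area at most 1 -/
lemma area_face (k : Fin 4 → ℤ) (i : Fin 4) (c : ℝ) (F : Set E)
    (hF : ∀ x ∈ F, flr x = k ∧ x i = c) : μHE[3] F ≤ 1 := by
  have h := area_slice i c (Icc (fun l => (k (i.succAbove l) : ℝ))
    (fun l => (k (i.succAbove l) : ℝ) + 1)) F ?_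
  · refine h.trans ?_
    rw [Real.volume_Icc_pi]
    simp
  · intro x hx
    obtain ⟨h1, h2⟩ := hF x hx
    subst h1
    exact ⟨h2, fun l => (flr_mem x _).1, fun l => (flr_mem x _).2.le⟩

/-- coordinate hyperplanes are null sets -/
lemma volume_hyper (i : Fin 4) (c : ℝ) : volume {y : E | y i = c} = 0 := by
  have h := (EuclideanSpace.volume_preserving_symm_measurableEquiv_toLp (Fin 4)).measure_preimage_equiv
    {f : Fin 4 → ℝ | f i = c}
  have h2 : (volume : Measure (Fin 4 → ℝ)) {f : Fin 4 → ℝ | f i = c} = 0 :=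
    Measure.pi_hyperplane (fun _ : Fin 4 => (volume : Measure ℝ)) i c
  rw [h2] at h
  exact h

section sweep

variable (B : Finset (Fin 4 → ℤ))

open Classical in
/-- enumeration of the cubes -/
noncomputable def enum (k : Fin 4 → ℤ) : ℕ := if h : k ∈ B then (B.equivFin ⟨k, h⟩ : ℕ) else 0

lemma enum_lt {k : Fin 4 → ℤ} (h : k ∈ B) : enum B k < B.card := by
  unfold enum
  rw [dif_pos h]
  exact (B.equivFin ⟨k, h⟩).2

lemma enum_inj {k l : Fin 4 → ℤ} (h : k ∈ B) (h' : l ∈ B) (he : enum B k = enum B l) : k = l := by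
  unfold enum at he
  rw [dif_pos h, dif_pos h'] at he
  have := B.equivFin.injective (Fin.ext he)
  simpa using this

/-- the sweeping function -/
noncomputable def G (y : E) : ℝ := enum B (flr y) + Int.fract (y 0)

lemma measurable_G : Measurable (G B) := by
  have h1 : Measurable (fun y : E => y 0) := by fun_prop
  have h2 : Measurable (fun k : Fin 4 → ℤ => (enum B k : ℝ)) := Measurable.of_discrete
  exact (h2.comp measurable_flr).add (measurable_fract.comp h1)

lemma G_nonneg (y : E) : 0 ≤ G B y := add_nonneg (Nat.cast_nonneg _) (Int.fract_nonneg _)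

lemma G_lt {y : E} (h : flr y ∈ B) : G B y < B.card := by
  have h1 : (enum B (flr y) : ℝ) + 1 ≤ B.card := by exact_mod_cast enum_lt B h
  have h2 := Int.fract_lt_one (y 0)
  unfold G
  linarith

lemma G_eq {y : E} {t : ℝ} (h : G B y = t) :
    (enum B (flr y) : ℤ) = ⌊t⌋ ∧ Int.fract (y 0) = Int.fract t := by
  subst h
  unfold G
  constructor
  · rw [Int.floor_natCast_add]
    simp
  · rw [Int.fract_natCast_add]
    simp

/-- level sets of the sweeping function -/
def lev (t : ℝ) : Set E := {y | flr y ∈ B ∧ G B y = t}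

lemma lev_eq {t : ℝ} {y z : E} (hy : y ∈ lev B t) (hz : z ∈ lev B t) : flr y = flr z := by
  refine enum_inj B hy.1 hz.1 ?_
  have h1 := (G_eq B hy.2).1
  have h2 := (G_eq B hz.2).1
  exact_mod_cast h1.trans h2.symm

lemma lev_zero {t : ℝ} {y : E} (hy : y ∈ lev B t) : y 0 = flr y 0 + Int.fract t := by
  have h2 := (G_eq B hy.2).2
  have := Int.floor_add_fract (y 0)
  unfold flr
  rw [← h2, this]

lemma area_lev (t : ℝ) : μHE[3] (lev B t) ≤ 1 := by
  rcases (lev B t).eq_empty_or_nonempty with h | ⟨y, hy⟩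
  · rw [h]; simp
  · refine area_face (flr y) 0 (flr y 0 + Int.fract t) _ fun x hx => ?_
    have h1 := lev_eq B hx hy
    exact ⟨h1, by rw [lev_zero B hx, h1]⟩

lemma volume_lev (t : ℝ) : volume (lev B t) = 0 := by
  rcases (lev B t).eq_empty_or_nonempty with h | ⟨y, hy⟩
  · rw [h]; simp
  · refine measure_mono_null (t := {x : E | x 0 = flr y 0 + Int.fract t}) ?_ (volume_hyper _ _)
    intro x hx
    have h1 := lev_eq B hx hy
    show x 0 = _
    rw [lev_zero B hx, h1]

end sweep

/-- cuts into parts of prescribed volume -/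
lemma exists_cut (Y : Set E) (hY : MeasurableSet Y) (B : Finset (Fin 4 → ℤ))
    (hB : ∀ y ∈ Y, flr y ∈ B) (m : ℕ) (hm : volume Y = m) (j : ℕ) (hj : j ≤ m) :
    ∃ t : ℝ, volume (Y ∩ {y | G B y < t}) = j := by
  have hfin : volume Y ≠ ∞ := by rw [hm]; simp
  have hGm := measurable_G B
  have hms : ∀ t : ℝ, MeasurableSet {y | G B y < t} := fun t => hGm measurableSet_Iio
  let F : ℝ → ℝ := fun t => ∫ y in Y, ({y | G B y < t}.indicator (fun _ => (1 : ℝ)) y)
  have hF : ∀ t, F t = (volume (Y ∩ {y | G B y < t})).toReal := by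
    intro t
    simp only [F]
    rw [integral_indicator (hms t)]
    simp only [integral_const, MeasurableSet.univ, measureReal_restrict_apply, univ_inter,
      smul_eq_mul, mul_one]
    rw [measureReal_def, Measure.restrict_apply (hms t), inter_comm]
  have hcont : Continuous F := by
    rw [continuous_iff_continuousAt]
    intro t
    refine continuousAt_of_dominated (bound := fun _ => 1) ?_ ?_ ?_ ?_
    · exact Filter.Eventually.of_forall fun s =>
        (measurable_const.indicator (hms s)).aestronglyMeasurable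
    · refine Filter.Eventually.of_forall fun s => Filter.Eventually.of_forall fun y => ?_
      by_cases hy : y ∈ {y | G B y < s}
      · rw [indicator_of_mem hy]; simp
      · rw [indicator_of_notMem hy]; simp
    · have : IsFiniteMeasure (volume.restrict Y) := ⟨by simpa using hfin.lt_top⟩
      exact integrable_const _
    · have h0 : ∀ᵐ y ∂(volume.restrict Y), y ∈ Y := ae_restrict_mem hY
      have h1 : ∀ᵐ y ∂(volume.restrict Y), y ∉ lev B t := by
        refine ae_restrict_of_ae ?_
        rw [ae_iff]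
        simpa using volume_lev B t
      filter_upwards [h0, h1] with y hy hy1
      have hne : G B y ≠ t := fun h => hy1 ⟨hB y hy, h⟩
      rcases lt_or_gt_of_ne hne with h | h
      · refine (continuousAt_const (y := (1 : ℝ))).congr ?_
        filter_upwards [Ioi_mem_nhds h] with s hs
        rw [indicator_of_mem (show y ∈ {y | G B y < s} from hs)]
      · refine (continuousAt_const (y := (0 : ℝ))).congr ?_
        filter_upwards [Iio_mem_nhds h] with s hs
        have hs' : ¬ (G B y < s) := not_lt.2 (le_of_lt hs)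
        rw [indicator_of_notMem (show y ∉ {y | G B y < s} from hs')]
  have hF0 : F 0 = 0 := by
    rw [hF]
    have : Y ∩ {y | G B y < 0} = ∅ := by
      ext y
      simp only [mem_inter_iff, mem_ofPred_eq, mem_empty_iff_false, iff_false, not_and, not_lt]
      exact fun _ => G_nonneg B y
    rw [this]; simp
  have hF1 : F B.card = m := by
    rw [hF]
    have : Y ∩ {y | G B y < B.card} = Y := by
      ext y
      simp only [mem_inter_iff, mem_ofPred_eq, and_iff_left_iff_imp]
      exact fun hy => G_lt B (hB y hy)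
    rw [this, hm]; simp
  have hmem : (j : ℝ) ∈ Icc (F 0) (F B.card) := by
    rw [hF0, hF1]
    exact ⟨Nat.cast_nonneg _, by exact_mod_cast hj⟩
  obtain ⟨t, -, ht⟩ := intermediate_value_Icc (Nat.cast_nonneg _) hcont.continuousOn hmem
  refine ⟨t, ?_⟩
  rw [hF] at ht
  have hne : volume (Y ∩ {y | G B y < t}) ≠ ∞ := measure_ne_top_of_subset inter_subset_left hfin
  rw [← ENNReal.ofReal_toReal hne, ht]
  simp

end Leftov

open Leftov

/-- Enumerate the unit cubes `k + [0,1)⁴`, `k ∈ B`, and sweep through them in the direction of the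
first coordinate: `G y = e ⌊y⌋ + fract (y 0)`, `F t = volume (Y ∩ {G < t})` is `1`-Lipschitz; the
cuts are the level sets `G = t_j` with `F t_j = j`. -/
theorem leftover (Y : Set E) (hY : MeasurableSet Y) (B : Finset (Fin 4 → ℤ))
    (hB : ∀ y ∈ Y, (fun i => ⌊y i⌋) ∈ B) (m : ℕ) (hm : volume Y = m) :
    ∃ (P : Fin m → Set E) (Z : Set E),
      (∀ j, MeasurableSet (P j)) ∧ (∀ j, volume (P j) = 1) ∧ (∀ j, P j ⊆ Y) ∧
      (∀ i j, i ≠ j → Disjoint (P i) (P j)) ∧ volume (Y \ ⋃ j, P j) = 0 ∧
      (∀ j, frontier (P j) ⊆ frontier Y ∪ Z) ∧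
      μHE[3] Z ≤ 4 * (B.card : ℝ≥0∞) + m + 1 := by
  have hfin : volume Y ≠ ∞ := by rw [hm]; simp
  have hB' : ∀ y ∈ Y, flr y ∈ B := hB
  have hex := exists_cut Y hY B hB' m hm
  choose! t ht using hex
  have hms : ∀ t : ℝ, MeasurableSet {y | G B y < t} := fun t => measurable_G B measurableSet_Iio
  -- monotonicity of the cuts
  have hmono : ∀ i j, i < j → j ≤ m → t i < t j := by
    intro i j hij hj
    by_contra hc
    push Not at hc
    have h1 : volume (Y ∩ {y | G B y < t j}) ≤ volume (Y ∩ {y | G B y < t i}) := by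
      refine measure_mono (inter_subset_inter_right _ fun y hy => ?_)
      exact lt_of_lt_of_le hy hc
    rw [ht j hj, ht i (hij.le.trans hj)] at h1
    have : j ≤ i := by exact_mod_cast h1
    omega
  have hmono' : ∀ i j, i ≤ j → j ≤ m → t i ≤ t j := by
    intro i j hij hj
    rcases hij.eq_or_lt with rfl | h
    · exact le_rfl
    · exact (hmono i j h hj).le
  let P : Fin m → Set E := fun j => Y ∩ {y | t j ≤ G B y ∧ G B y < t (j + 1)}
  let Z : Set E := (⋃ k ∈ B, ⋃ i : Fin 4, {y : E | flr y = k ∧ y i = k i}) ∪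
    ⋃ j : Fin (m + 1), lev B (t j)
  have hPm : ∀ j, MeasurableSet (P j) := by
    intro j
    refine hY.inter ?_
    exact (measurable_G B measurableSet_Ici).inter (hms _)
  have hdis : ∀ i j, i ≠ j → Disjoint (P i) (P j) := by
    have key : ∀ i j : Fin m, i < j → Disjoint (P i) (P j) := by
      intro i j hij
      rw [Set.disjoint_left]
      rintro y ⟨-, -, h1⟩ ⟨-, h2, -⟩
      have h3 : t (i + 1) ≤ t j := hmono' _ _ (by omega) (by omega)
      linarith
    intro i j hij
    rcases lt_or_gt_of_ne hij with h | h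
    · exact key i j h
    · exact (key j i h).symm
  have hvol : ∀ j, volume (P j) = 1 := by
    intro j
    have h1 : P j = (Y ∩ {y | G B y < t (j + 1)}) \ (Y ∩ {y | G B y < t j}) := by
      ext y
      simp only [P, mem_inter_iff, mem_ofPred_eq, mem_sdiff, not_and, not_lt]
      tauto
    rw [h1, measure_sdiff]
    · have e1 := ht (j + 1) (by omega)
      have e2 := ht j (by omega)
      rw [e1, e2]
      push_cast
      rw [ENNReal.add_sub_cancel_left (by simp)]
    · refine inter_subset_inter_right _ fun y hy => ?_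
      exact lt_trans hy (hmono _ _ (Nat.lt_succ_self _) (by omega))
    · exact (hY.inter (hms _)).nullMeasurableSet
    · exact measure_ne_top_of_subset inter_subset_left hfin
  have hsub : ∀ j, P j ⊆ Y := fun j => inter_subset_left
  refine ⟨P, Z, hPm, hvol, hsub, hdis, ?_, ?_, ?_⟩
  · have h1 : volume (⋃ j, P j) = m := by
      rw [measure_iUnion (fun i j hij => hdis i j hij) hPm]
      simp [hvol]
    rw [measure_sdiff (iUnion_subset hsub) (MeasurableSet.iUnion hPm).nullMeasurableSet
      (by rw [h1]; simp), h1, hm]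
    simp
  · intro j x hx
    by_cases hxY : x ∈ frontier Y
    · exact Or.inl hxY
    refine Or.inr ?_
    have hxc : x ∈ closure Y := closure_mono (hsub j) hx.1
    have hxi : x ∈ interior Y := by
      by_contra hc
      exact hxY ⟨hxc, hc⟩
    have hxy : x ∈ Y := interior_subset hxi
    have hk := hB' x hxy
    by_cases hfr : ∃ i, x i = flr x i
    · obtain ⟨i, hi⟩ := hfr
      exact Or.inl (mem_biUnion hk (mem_iUnion.2 ⟨i, rfl, hi⟩))
    push Not at hfr
    -- the open cube
    let O : Set E := interior Y ∩ {y | ∀ i, (flr x i : ℝ) < y i ∧ y i < flr x i + 1}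
    have hcube : IsOpen {y : E | ∀ i, (flr x i : ℝ) < y i ∧ y i < flr x i + 1} := by
      simp only [ofPred_forall]
      refine isOpen_iInter_of_finite fun i => ?_
      have hc : Continuous fun y : E => y i := by fun_prop
      exact (isOpen_lt continuous_const hc).inter (isOpen_lt hc continuous_const)
    have hO : IsOpen O := isOpen_interior.inter hcube
    have hxO : x ∈ O := by
      refine ⟨hxi, fun i => ?_⟩
      have h1 := flr_mem x i
      exact ⟨lt_of_le_of_ne h1.1 (Ne.symm (hfr i)), h1.2⟩
    have hGO : ∀ y ∈ O, G B y = (enum B (flr x) : ℝ) + (y 0 - flr x 0) := by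
      rintro y ⟨-, hy⟩
      have h1 : flr y = flr x := by
        funext i
        exact Int.floor_eq_iff.2 ⟨(hy i).1.le, (hy i).2⟩
      unfold G
      rw [h1]
      congr 1
      rw [Int.fract]
      have h2 : ⌊y 0⌋ = flr x 0 := congrFun h1 0
      rw [h2]
    have hcG : Continuous fun y : E => (enum B (flr x) : ℝ) + (y 0 - flr x 0) := by fun_prop
    refine Or.inr ?_
    by_contra hno
    have hne : ∀ i : ℕ, i ≤ m → G B x ≠ t i := by
      intro i hi he
      apply hno
      exact mem_iUnion.2 ⟨⟨i, by omega⟩, hk, he⟩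
    have hj0 := hne j (by omega)
    have hj1 := hne (j + 1) (by omega)
    rcases lt_or_gt_of_ne hj0 with h | h
    · -- below
      have hN : IsOpen (O ∩ {y | (enum B (flr x) : ℝ) + (y 0 - flr x 0) < t j}) :=
        hO.inter (isOpen_lt hcG continuous_const)
      have hxN : x ∈ O ∩ {y | (enum B (flr x) : ℝ) + (y 0 - flr x 0) < t j} := by
        refine ⟨hxO, ?_⟩
        show (enum B (flr x) : ℝ) + (x 0 - flr x 0) < t j
        rw [← hGO x hxO]; exact h
      obtain ⟨z, hz1, hz2⟩ := mem_closure_iff.1 hx.1 _ hN hxN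
      have h3 : G B z < t j := by rw [hGO z hz1.1]; exact hz1.2
      exact absurd hz2.2.1 (not_le.2 h3)
    · rcases lt_or_gt_of_ne hj1 with h' | h'
      · -- inside
        have hN : IsOpen (O ∩ {y | t j < (enum B (flr x) : ℝ) + (y 0 - flr x 0) ∧
            (enum B (flr x) : ℝ) + (y 0 - flr x 0) < t (j + 1)}) :=
          hO.inter ((isOpen_lt continuous_const hcG).inter (isOpen_lt hcG continuous_const))
        refine hx.2 (mem_interior.2 ⟨_, ?_, hN, hxO, ?_⟩)
        · rintro y ⟨hy, hy1, hy2⟩
          refine ⟨interior_subset hy.1, ?_, ?_⟩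
          · rw [hGO y hy]; exact hy1.le
          · rw [hGO y hy]; exact hy2
        · constructor
          · rw [← hGO x hxO]; exact h
          · rw [← hGO x hxO]; exact h'
      · -- above
        have hN : IsOpen (O ∩ {y | t (j + 1) < (enum B (flr x) : ℝ) + (y 0 - flr x 0)}) :=
          hO.inter (isOpen_lt continuous_const hcG)
        have hxN : x ∈ O ∩ {y | t (j + 1) < (enum B (flr x) : ℝ) + (y 0 - flr x 0)} := by
          refine ⟨hxO, ?_⟩
          show t (j + 1) < (enum B (flr x) : ℝ) + (x 0 - flr x 0)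
          rw [← hGO x hxO]; exact h'
        obtain ⟨z, hz1, hz2⟩ := mem_closure_iff.1 hx.1 _ hN hxN
        have h3 : t (j + 1) < G B z := by rw [hGO z hz1.1]; exact hz1.2
        exact absurd hz2.2.2 (not_lt.2 h3.le)
  · have h1 : μHE[3] (⋃ k ∈ B, ⋃ i : Fin 4, {y : E | flr y = k ∧ y i = k i}) ≤
        4 * (B.card : ℝ≥0∞) := by
      refine (measure_biUnion_finset_le _ _).trans ?_
      have h2 : ∀ k ∈ B, μHE[3] (⋃ i : Fin 4, {y : E | flr y = k ∧ y i = k i}) ≤ 4 := by
        intro k _
        refine (measure_iUnion_fintype_le _ _).trans ?_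
        have h3 : ∀ i ∈ (Finset.univ : Finset (Fin 4)),
            μHE[3] {y : E | flr y = k ∧ y i = k i} ≤ 1 := by
          intro i _
          exact area_face k i (k i) _ fun x hx => hx
        refine (Finset.sum_le_sum h3).trans ?_
        simp
      refine (Finset.sum_le_sum h2).trans ?_
      rw [Finset.sum_const, nsmul_eq_mul, mul_comm]
    have h2 : μHE[3] (⋃ j : Fin (m + 1), lev B (t j)) ≤ m + 1 := by
      refine (measure_iUnion_fintype_le _ _).trans ?_
      have h3 : ∀ j ∈ (Finset.univ : Finset (Fin (m + 1))), μHE[3] (lev B (t (j : ℕ))) ≤ 1 :=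
        fun j _ => area_lev B _
      refine (Finset.sum_le_sum h3).trans ?_
      simp
    calc μHE[3] Z ≤ _ := measure_union_le _ _
      _ ≤ 4 * (B.card : ℝ≥0∞) + (m + 1) := add_le_add h1 h2
      _ = 4 * (B.card : ℝ≥0∞) + m + 1 := by rw [add_assoc]

/-- the number of unit cubes meeting a spherical shell -/
theorem card_cubes_shell (Y : Set E) (a b : ℝ) (ha : 2 ≤ a) (hab : a ≤ b)
    (hY : Y ⊆ closedBall (0 : E) b \ ball 0 a) :
    ∃ B : Finset (Fin 4 → ℤ), (∀ y ∈ Y, (fun i => ⌊y i⌋) ∈ B) ∧
      (B.card : ℝ≥0∞) + volume (ball (0 : E) (a - 2)) ≤ volume (closedBall (0 : E) (b + 2)) := by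
  have hfin : (flr '' Y).Finite := by
    refine (Set.finite_Icc (fun _ : Fin 4 => ⌊-b⌋) (fun _ => ⌊b⌋)).subset ?_
    rintro _ ⟨y, hy, rfl⟩
    have h1 : ‖y‖ ≤ b := by simpa using (hY hy).1
    have h2 : ∀ i, |y i| ≤ b := fun i => by
      have := EuclideanSpace.norm_eq y
      have h3 := PiLp.norm_apply_le y i
      rw [Real.norm_eq_abs] at h3
      linarith
    constructor
    · intro i
      exact Int.floor_mono (abs_le.1 (h2 i)).1
    · intro i
      exact Int.floor_mono (abs_le.1 (h2 i)).2
  refine ⟨hfin.toFinset, fun y hy => by simpa using ⟨y, hy, rfl⟩, ?_⟩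
  have hcm : ∀ k : Fin 4 → ℤ, MeasurableSet (flr ⁻¹' {k}) := fun k =>
    measurable_flr (measurableSet_singleton k)
  have hcv : ∀ k : Fin 4 → ℤ, volume (flr ⁻¹' {k}) = 1 := by
    intro k
    have h := (EuclideanSpace.volume_preserving_symm_measurableEquiv_toLp
      (Fin 4)).measure_preimage_equiv (Set.pi univ fun i => Ico (k i : ℝ) (k i + 1))
    rw [Real.volume_pi_Ico] at h
    have h2 : flr ⁻¹' {k} = (MeasurableEquiv.toLp 2 (Fin 4 → ℝ)).symm ⁻¹'
        (Set.pi univ fun i => Ico (k i : ℝ) (k i + 1)) := by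
      ext y
      simp only [mem_preimage, mem_singleton_iff, mem_pi, mem_univ, forall_true_left, mem_Ico]
      rw [funext_iff]
      exact forall_congr' fun i => Int.floor_eq_iff
    rw [h2, h]
    simp
  have hdisj : volume (⋃ k ∈ hfin.toFinset, flr ⁻¹' {k}) = (hfin.toFinset.card : ℝ≥0∞) := by
    rw [measure_biUnion_finset]
    · simp [hcv]
    · intro k _ l _ hkl
      rw [Function.onFun, Set.disjoint_left]
      rintro y hy hy'
      exact hkl (hy.symm.trans hy')
    · exact fun k _ => hcm k
  have hdist : ∀ y z : E, flr y = flr z → dist y z ≤ 2 := by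
    intro y z h
    rw [EuclideanSpace.dist_eq]
    refine Real.sqrt_le_iff.2 ⟨by norm_num, ?_⟩
    have h1 : ∀ i ∈ (Finset.univ : Finset (Fin 4)), dist (y i) (z i) ^ 2 ≤ 1 := by
      intro i _
      have h2 := flr_mem y i
      have h3 := flr_mem z i
      rw [h] at h2
      rw [Real.dist_eq, sq_abs]
      have h4 : |y i - z i| ≤ 1 := abs_le.2 ⟨by linarith, by linarith⟩
      nlinarith [abs_nonneg (y i - z i), sq_abs (y i - z i)]
    refine (Finset.sum_le_sum h1).trans ?_
    norm_num
  have hU : (⋃ k ∈ hfin.toFinset, flr ⁻¹' {k}) ⊆ closedBall (0 : E) (b + 2) \ ball 0 (a - 2) := by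
    intro z hz
    simp only [mem_iUnion, Finite.mem_toFinset, mem_image, mem_preimage, mem_singleton_iff,
      exists_prop] at hz
    obtain ⟨k, ⟨y, hy, hyk⟩, hzk⟩ := hz
    have h1 := hdist y z (hyk.trans hzk.symm)
    have h2 := hY hy
    rw [mem_sdiff, mem_closedBall, mem_ball, not_lt] at h2 ⊢
    have h3 := dist_triangle_left z (0 : E) y
    have h4 := dist_triangle y z (0 : E)
    constructor
    · linarith
    · linarith
  rw [← hdisj, ← measure_union]
  · refine measure_mono (union_subset (hU.trans sdiff_subset) ?_)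
    exact ball_subset_closedBall.trans (closedBall_subset_closedBall (by linarith))
  · rw [Set.disjoint_left]
    intro z hz hz'
    exact (hU hz).2 hz'
  · exact measurableSet_ball

end Pool.Agent.Helper74.Foam
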