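import Pool.Agent.Helper74.Foam.Defs

/-! Module Y: volume of the pyritohedral facet. -/

set_option autoImplicit false

open MeasureTheory Measure Set Metric
open scoped ENNReal

namespace Pool.Agent.Helper74.Foam

/-- the pyritohedron -/
def pyr : Set (Fin 3 → ℝ) :=
  {x | |x 0| + 2 * |x 1| ≤ 1 ∧ |x 1| + 2 * |x 2| ≤ 1 ∧ |x 2| + 2 * |x 0| ≤ 1}

/-- positive octant of the pyritohedron -/
def pyrPos : Set (Fin 3 → ℝ) :=
  {x | (0 ≤ x 0 ∧ 0 ≤ x 1 ∧ 0 ≤ x 2) ∧ x 0 + 2 * x 1 ≤ 1 ∧ x 1 + 2 * x 2 ≤ 1 ∧ x 2 + 2 * x 0 ≤ 1}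

/-- product form -/
def pyrProd : Set (ℝ × (ℝ × ℝ)) :=
  {x | (0 ≤ x.1 ∧ 0 ≤ x.2.1 ∧ 0 ≤ x.2.2) ∧ x.1 + 2 * x.2.1 ≤ 1 ∧ x.2.1 + 2 * x.2.2 ≤ 1 ∧
    x.2.2 + 2 * x.1 ≤ 1}

lemma isClosed_pyrPos : IsClosed pyrPos := by
  unfold pyrPos
  simp only [ofPred_and]
  refine IsClosed.inter (IsClosed.inter ?_ (IsClosed.inter ?_ ?_)) (IsClosed.inter ?_ (IsClosed.inter ?_ ?_)) <;>
  exact isClosed_le (by fun_prop) (by fun_prop)

lemma isClosed_pyrProd : IsClosed pyrProd := by
  unfold pyrProd
  simp only [ofPred_and]
  refine IsClosed.inter (IsClosed.inter ?_ (IsClosed.inter ?_ ?_)) (IsClosed.inter ?_ (IsClosed.inter ?_ ?_)) <;>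
  exact isClosed_le (by fun_prop) (by fun_prop)

/-- reflection -/
noncomputable def refl (s : Fin 3 → Bool) (x : Fin 3 → ℝ) : Fin 3 → ℝ :=
  fun i => (if s i then id else Neg.neg : ℝ → ℝ) (x i)

lemma measurePreserving_refl (s : Fin 3 → Bool) : MeasurePreserving (refl s) volume volume := by
  refine volume_preserving_pi (f := fun i => (if s i then id else Neg.neg : ℝ → ℝ)) fun i => ?_
  by_cases h : s i
  · simp only [h, if_true]
    exact MeasurePreserving.id _
  · simp only [h]
    exact Measure.measurePreserving_neg volume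

lemma pyr_subset : pyr ⊆ ⋃ s : Fin 3 → Bool, refl s ⁻¹' pyrPos := by
  rintro x ⟨h1, h2, h3⟩
  rw [mem_iUnion]
  refine ⟨fun i => decide (0 ≤ x i), ?_⟩
  have key : ∀ i, refl (fun i => decide (0 ≤ x i)) x i = |x i| := by
    intro i
    unfold refl
    by_cases h : 0 ≤ x i
    · simp [h, abs_of_nonneg h]
    · simp [h, abs_of_neg (not_le.1 h)]
  simp only [mem_preimage, pyrPos, mem_ofPred_eq, key]
  exact ⟨⟨abs_nonneg _, abs_nonneg _, abs_nonneg _⟩, h1, h2, h3⟩

lemma volume_pyr_le : volume pyr ≤ 8 * volume pyrPos := by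
  refine (measure_mono pyr_subset).trans ((measure_iUnion_le _).trans ?_)
  rw [tsum_fintype]
  simp only [(measurePreserving_refl _).measure_preimage isClosed_pyrPos.measurableSet.nullMeasurableSet]
  simp

lemma volume_pyrPos : volume pyrPos = volume pyrProd := by
  have h1 := (volume_preserving_piFinSuccAbove (fun _ : Fin 3 => ℝ) 0)
  have h2 := (MeasurePreserving.id (volume : Measure ℝ)).prod (volume_preserving_piFinTwo (fun _ : Fin 2 => ℝ))
  have h3 := h2.comp h1
  have := h3.measure_preimage isClosed_pyrProd.measurableSet.nullMeasurableSet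
  rw [← Measure.volume_eq_prod] at this
  rw [← this]
  rfl


lemma slice_small (a : ℝ) (ha : 0 ≤ a) (ha' : a ≤ 1) :
    volume (Prod.mk a ⁻¹' pyrProd) ≤ ENNReal.ofReal (((1 - a) / 2 - (1 - a) ^ 2 / 8) / 2) := by
  have hm : MeasurableSet (Prod.mk a ⁻¹' pyrProd) :=
    isClosed_pyrProd.measurableSet.preimage measurable_prodMk_left
  rw [Measure.volume_eq_prod, Measure.prod_apply hm]
  calc ∫⁻ b, volume (Prod.mk b ⁻¹' (Prod.mk a ⁻¹' pyrProd))
      ≤ ∫⁻ b, (Icc 0 ((1 - a) / 2)).indicator (fun b => ENNReal.ofReal ((1 - b) / 2)) b := by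
        refine lintegral_mono fun b => ?_
        by_cases hb : b ∈ Icc 0 ((1 - a) / 2)
        · rw [indicator_of_mem hb]
          refine (measure_mono (t := Icc 0 ((1 - b) / 2)) ?_).trans ?_
          · rintro c ⟨⟨h1, h2, h3⟩, h4, h5, h6⟩
            simp only at h1 h2 h3 h4 h5 h6
            exact ⟨h3, by linarith⟩
          · rw [Real.volume_Icc, sub_zero]
        · rw [indicator_of_notMem hb]
          have : Prod.mk b ⁻¹' (Prod.mk a ⁻¹' pyrProd) = ∅ := by
            rw [eq_empty_iff_forall_notMem]
            rintro c ⟨⟨h1, h2, h3⟩, h4, h5, h6⟩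
            simp only at h1 h2 h3 h4 h5 h6
            exact hb ⟨h2, by linarith⟩
          rw [this, measure_empty]
    _ = ENNReal.ofReal (((1 - a) / 2 - (1 - a) ^ 2 / 8) / 2) := by
        rw [lintegral_indicator measurableSet_Icc, ← ofReal_integral_eq_lintegral_ofReal]
        · congr 1
          rw [integral_Icc_eq_integral_Ioc, ← intervalIntegral.integral_of_le (by linarith)]
          rw [intervalIntegral.integral_div, intervalIntegral.integral_sub (by simp) (by simp)]
          simp
          ring
        · exact (ContinuousOn.integrableOn_Icc (by fun_prop))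
        · refine (ae_restrict_iff' measurableSet_Icc).2 (Filter.Eventually.of_forall fun x hx => ?_)
          have := hx.1
          have := hx.2
          simp only [Pi.zero_apply]
          linarith

lemma slice_large (a : ℝ) (ha' : a ≤ 1 / 2) :
    volume (Prod.mk a ⁻¹' pyrProd) ≤ ENNReal.ofReal ((1 - a) / 2 * (1 - 2 * a)) := by
  refine (measure_mono (t := Icc 0 ((1 - a) / 2) ×ˢ Icc 0 (1 - 2 * a)) ?_).trans ?_
  · rintro ⟨b, c⟩ ⟨⟨h1, h2, h3⟩, h4, h5, h6⟩
    simp only at h1 h2 h3 h4 h5 h6
    exact ⟨⟨h2, by linarith⟩, ⟨h3, by linarith⟩⟩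
  · rw [Measure.volume_eq_prod, Measure.prod_prod, Real.volume_Icc, Real.volume_Icc, sub_zero,
      sub_zero, ENNReal.ofReal_mul (by linarith)]

lemma volume_pyrProd : volume pyrProd ≤ ENNReal.ofReal (507 / 8000) := by
  rw [Measure.volume_eq_prod, Measure.prod_apply isClosed_pyrProd.measurableSet]
  calc ∫⁻ a, volume (Prod.mk a ⁻¹' pyrProd)
      ≤ ∫⁻ a, ((Icc 0 (1 / 3)).indicator
          (fun a => ENNReal.ofReal (((1 - a) / 2 - (1 - a) ^ 2 / 8) / 2)) a
          + (Icc (1 / 3) (1 / 2)).indicator
          (fun a => ENNReal.ofReal ((1 - a) / 2 * (1 - 2 * a))) a) := by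
        refine lintegral_mono fun a => ?_
        rcases lt_or_ge a 0 with h0 | h0
        · have : Prod.mk a ⁻¹' pyrProd = ∅ := by
            rw [eq_empty_iff_forall_notMem]
            rintro c ⟨⟨h1, h2, h3⟩, h4, h5, h6⟩
            simp only at h1
            linarith
          rw [this, measure_empty]
          exact zero_le
        rcases le_or_gt a (1 / 3) with h3 | h3
        · refine (slice_small a h0 (by linarith)).trans ?_
          rw [indicator_of_mem (show a ∈ Icc (0 : ℝ) (1 / 3) from ⟨h0, h3⟩)]
          exact le_self_add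
        rcases le_or_gt a (1 / 2) with h2 | h2
        · refine (slice_large a h2).trans ?_
          rw [indicator_of_mem (show a ∈ Icc (1 / 3 : ℝ) (1 / 2) from ⟨h3.le, h2⟩)]
          exact le_add_self
        · have : Prod.mk a ⁻¹' pyrProd = ∅ := by
            rw [eq_empty_iff_forall_notMem]
            rintro c ⟨⟨h1, h2, h3⟩, h4, h5, h6⟩
            simp only at h1 h2 h3 h4 h5 h6
            linarith
          rw [this, measure_empty]
          exact zero_le
    _ = ENNReal.ofReal (71 / 1296) + ENNReal.ofReal (11 / 1296) := by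
        rw [lintegral_add_left (Measurable.indicator (by fun_prop) measurableSet_Icc)]
        congr 1
        · rw [lintegral_indicator measurableSet_Icc, ← ofReal_integral_eq_lintegral_ofReal]
          · congr 1
            rw [integral_Icc_eq_integral_Ioc, ← intervalIntegral.integral_of_le (by norm_num)]
            have hd : ∀ x ∈ uIcc (0 : ℝ) (1 / 3), HasDerivAt
                (fun a : ℝ => (-(1 - a) ^ 2 / 4 + (1 - a) ^ 3 / 24) / 2)
                (((1 - x) / 2 - (1 - x) ^ 2 / 8) / 2) x := by
              intro x _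
              have h1 : HasDerivAt (fun a : ℝ => 1 - a) (-1) x := by
                simpa using (hasDerivAt_id x).const_sub 1
              have h2 := ((((h1.pow 2).neg).div_const 4).add ((h1.pow 3).div_const 24)).div_const 2
              refine h2.congr_deriv ?_
              simp
              ring
            rw [intervalIntegral.integral_eq_sub_of_hasDerivAt hd
              (Continuous.intervalIntegrable (by fun_prop) _ _)]
            norm_num
          · exact (ContinuousOn.integrableOn_Icc (by fun_prop))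
          · refine (ae_restrict_iff' measurableSet_Icc).2 (Filter.Eventually.of_forall fun x hx => ?_)
            have := hx.1
            have := hx.2
            simp only [Pi.zero_apply]
            nlinarith
        · rw [lintegral_indicator measurableSet_Icc, ← ofReal_integral_eq_lintegral_ofReal]
          · congr 1
            rw [integral_Icc_eq_integral_Ioc, ← intervalIntegral.integral_of_le (by norm_num)]
            have hd : ∀ x ∈ uIcc (1 / 3 : ℝ) (1 / 2), HasDerivAt
                (fun a : ℝ => a / 2 - 3 * a ^ 2 / 4 + a ^ 3 / 3)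
                ((1 - x) / 2 * (1 - 2 * x)) x := by
              intro x _
              have h1 := hasDerivAt_id x
              have h2 := ((h1.div_const 2).sub (((h1.pow 2).const_mul 3).div_const 4)).add
                ((h1.pow 3).div_const 3)
              refine h2.congr_deriv ?_
              simp
              ring
            rw [intervalIntegral.integral_eq_sub_of_hasDerivAt hd
              (Continuous.intervalIntegrable (by fun_prop) _ _)]
            norm_num
          · exact (ContinuousOn.integrableOn_Icc (by fun_prop))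
          · refine (ae_restrict_iff' measurableSet_Icc).2 (Filter.Eventually.of_forall fun x hx => ?_)
            have := hx.1
            have := hx.2
            simp only [Pi.zero_apply]
            nlinarith
    _ ≤ ENNReal.ofReal (507 / 8000) := by
        rw [← ENNReal.ofReal_add (by norm_num) (by norm_num)]
        exact ENNReal.ofReal_le_ofReal (by norm_num)

/-- the exact volume is `1/2`; a simple bound is
`pyr ⊆ {|a| ≤ 1/3, |b| ≤ (1-|a|)/2, |c| ≤ (1-|b|)/2} ∪ {1/3 ≤ |a| ≤ 1/2, |b| ≤ (1-|a|)/2, |c| ≤ 1-2|a|}`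
with volume `0.50617...` -/
theorem volume_pyr : volume pyr ≤ ENNReal.ofReal (507 / 1000) := by
  refine volume_pyr_le.trans ?_
  rw [volume_pyrPos]
  calc 8 * volume pyrProd ≤ 8 * ENNReal.ofReal (507 / 8000) := by gcongr; exact volume_pyrProd
    _ = ENNReal.ofReal (507 / 1000) := by
        rw [show (8 : ℝ≥0∞) = ENNReal.ofReal 8 by simp, ← ENNReal.ofReal_mul (by norm_num)]
        congr 1
        norm_num

end Pool.Agent.Helper74.Foam
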