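import Pool.Agent.Helper74.Foam.New
import Pool.Agent.Helper74.Foam.Pyrito

/-! Module A: area of the boundary of the new cell. -/

set_option autoImplicit false

open MeasureTheory Measure Set Metric
open scoped ENNReal

namespace Pool.Agent.Helper74.Foam

namespace NewArea

/-- the isometric embedding of a coordinate hyperplane -/
noncomputable def emb (i : Fin 4) (c : ℝ) (y : EuclideanSpace ℝ (Fin 3)) : E :=
  WithLp.toLp 2 (i.insertNth c (fun k => y k))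

lemma emb_isometry (i : Fin 4) (c : ℝ) : Isometry (emb i c) := by
  refine Isometry.of_dist_eq fun x y => ?_
  rw [EuclideanSpace.dist_eq, EuclideanSpace.dist_eq]
  congr 1
  rw [Fin.sum_univ_succAbove _ i]
  simp [emb]

/-- comparison of squared distances to two sites -/
lemma sq_le {x : E} {u v : J} (h : dist x (q u) ≤ dist x (q v)) :
    (x 0 - (u.1 0 : ℝ) / 2) ^ 2 + (x 1 - (u.1 1 : ℝ) / 2) ^ 2 + (x 2 - (u.1 2 : ℝ) / 2) ^ 2 +
        (x 3 - (u.1 3 : ℝ) / 2) ^ 2 ≤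
      (x 0 - (v.1 0 : ℝ) / 2) ^ 2 + (x 1 - (v.1 1 : ℝ) / 2) ^ 2 + (x 2 - (v.1 2 : ℝ) / 2) ^ 2 +
        (x 3 - (v.1 3 : ℝ) / 2) ^ 2 := by
  rw [EuclideanSpace.dist_eq, EuclideanSpace.dist_eq] at h
  have h2 := (Real.sqrt_le_sqrt_iff (Finset.sum_nonneg fun i _ => by positivity)).1 h
  simp only [Fin.sum_univ_four, Real.dist_eq, sq_abs] at h2
  exact h2

/-- volume of a translate of the pyritohedron -/
lemma volume_shift : volume {y : Fin 3 → ℝ | ![y 0 - 1, y 1, y 2] ∈ pyr} = volume pyr := by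
  have h := measure_preimage_add_right (volume : Measure (Fin 3 → ℝ)) ![-1, 0, 0] pyr
  rw [← h]
  congr 1
  ext y
  have : y + ![-1, 0, 0] = ![y 0 - 1, y 1, y 2] := by
    ext i
    fin_cases i
    · simp; ring
    · simp
    · simp
  rw [mem_preimage, this]
  rfl

lemma volume_shift' : volume {y : Fin 3 → ℝ | ![y 0 - 1, y 2, y 1] ∈ pyr} = volume pyr := by
  have h := (volume_measurePreserving_piCongrLeft (fun _ : Fin 3 => ℝ)
    (Equiv.swap (1 : Fin 3) 2)).measure_preimage_equiv {y : Fin 3 → ℝ | ![y 0 - 1, y 1, y 2] ∈ pyr}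
  rw [volume_shift] at h
  rw [← h]
  rfl

end NewArea

open NewArea

/-- area of a set in a coordinate hyperplane `x 0 = c` -/
theorem area_coord_hyperplane (i : Fin 4) (c : ℝ) (A : Set (Fin 3 → ℝ)) (F : Set E)
    (hF : ∀ x ∈ F, x i = c ∧ (fun k => x (i.succAbove k)) ∈ A) : μHE[3] F ≤ volume A := by
  have h1 : F ⊆ emb i c '' ((MeasurableEquiv.toLp 2 (Fin 3 → ℝ)).symm ⁻¹' A) := by
    intro x hx
    obtain ⟨h1, h2⟩ := hF x hx
    refine ⟨WithLp.toLp 2 (fun k => x (i.succAbove k)), h2, ?_⟩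
    ext j
    rcases Fin.eq_self_or_eq_succAbove i j with rfl | ⟨k, rfl⟩
    · simp [emb, h1]
    · simp [emb]
  refine (measure_mono h1).trans ?_
  rw [(emb_isometry i c).euclideanHausdorffMeasure_image,
    EuclideanSpace.euclideanHausdorffMeasure_eq_volume,
    (EuclideanSpace.volume_preserving_symm_measurableEquiv_toLp (Fin 3)).measure_preimage_equiv]

/-- the two pyritohedral facets -/
theorem area_facet_wM : μHE[3] (facet q w0 wM) ≤ ENNReal.ofReal (507 / 1000) := by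
  refine (area_coord_hyperplane 0 0 {y : Fin 3 → ℝ | ![y 0 - 1, y 1, y 2] ∈ pyr} _ ?_).trans
    (volume_shift.le.trans volume_pyr)
  rintro x ⟨hx, hx'⟩
  have e1 := sq_le (hx wM)
  have e2 := sq_le (hx' w0)
  have a1 := sq_le (hx ⟨![0, 1, 2, 0], by decide⟩)
  have a2 := sq_le (hx ⟨![0, 1, -2, 0], by decide⟩)
  have a3 := sq_le (hx ⟨![0, 3, 2, 0], by decide⟩)
  have a4 := sq_le (hx ⟨![0, 3, -2, 0], by decide⟩)
  have b1 := sq_le (hx ⟨![0, 2, 1, 2], by decide⟩)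
  have b2 := sq_le (hx ⟨![0, 2, -1, 2], by decide⟩)
  have b3 := sq_le (hx ⟨![0, 2, 1, -2], by decide⟩)
  have b4 := sq_le (hx ⟨![0, 2, -1, -2], by decide⟩)
  have c1 := sq_le (hx ⟨![0, 0, 0, 1], by decide⟩)
  have c2 := sq_le (hx ⟨![0, 0, 0, -1], by decide⟩)
  have c3 := sq_le (hx ⟨![0, 4, 0, 1], by decide⟩)
  have c4 := sq_le (hx ⟨![0, 4, 0, -1], by decide⟩)
  simp only [w0, wM, Matrix.cons_val_zero, Matrix.cons_val_one, Matrix.cons_val] at e1 e2 a1 a2 a3 a4 b1 b2 b3 b4 c1 c2 c3 c4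
  push_cast at e1 e2 a1 a2 a3 a4 b1 b2 b3 b4 c1 c2 c3 c4
  have h0 : x 0 = 0 := by linarith
  refine ⟨h0, ?_⟩
  rw [h0] at a1 a2 a3 a4 b1 b2 b3 b4 c1 c2 c3 c4
  show |x 1 - 1| + 2 * |x 2| ≤ 1 ∧ |x 2| + 2 * |x 3| ≤ 1 ∧ |x 3| + 2 * |x 1 - 1| ≤ 1
  refine ⟨?_, ?_, ?_⟩
  · rcases abs_cases (x 1 - 1) with ⟨h1, -⟩ | ⟨h1, -⟩ <;>
    rcases abs_cases (x 2) with ⟨h2, -⟩ | ⟨h2, -⟩ <;> rw [h1, h2] <;> linarith
  · rcases abs_cases (x 2) with ⟨h1, -⟩ | ⟨h1, -⟩ <;>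
    rcases abs_cases (x 3) with ⟨h2, -⟩ | ⟨h2, -⟩ <;> rw [h1, h2] <;> linarith
  · rcases abs_cases (x 3) with ⟨h1, -⟩ | ⟨h1, -⟩ <;>
    rcases abs_cases (x 1 - 1) with ⟨h2, -⟩ | ⟨h2, -⟩ <;> rw [h1, h2] <;> linarith

theorem area_facet_wP : μHE[3] (facet q w0 wP) ≤ ENNReal.ofReal (507 / 1000) := by
  refine (area_coord_hyperplane 0 1 {y : Fin 3 → ℝ | ![y 0 - 1, y 2, y 1] ∈ pyr} _ ?_).trans
    (volume_shift'.le.trans volume_pyr)
  rintro x ⟨hx, hx'⟩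
  have e1 := sq_le (hx wP)
  have e2 := sq_le (hx' w0)
  have a1 := sq_le (hx ⟨![2, 1, 0, 2], by decide⟩)
  have a2 := sq_le (hx ⟨![2, 1, 0, -2], by decide⟩)
  have a3 := sq_le (hx ⟨![2, 3, 0, 2], by decide⟩)
  have a4 := sq_le (hx ⟨![2, 3, 0, -2], by decide⟩)
  have b1 := sq_le (hx ⟨![2, 0, 1, 0], by decide⟩)
  have b2 := sq_le (hx ⟨![2, 0, -1, 0], by decide⟩)
  have b3 := sq_le (hx ⟨![2, 4, 1, 0], by decide⟩)
  have b4 := sq_le (hx ⟨![2, 4, -1, 0], by decide⟩)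
  have c1 := sq_le (hx ⟨![2, 2, 2, 1], by decide⟩)
  have c2 := sq_le (hx ⟨![2, 2, 2, -1], by decide⟩)
  have c3 := sq_le (hx ⟨![2, 2, -2, 1], by decide⟩)
  have c4 := sq_le (hx ⟨![2, 2, -2, -1], by decide⟩)
  simp only [w0, wP, Matrix.cons_val_zero, Matrix.cons_val_one, Matrix.cons_val] at e1 e2 a1 a2 a3 a4 b1 b2 b3 b4 c1 c2 c3 c4
  push_cast at e1 e2 a1 a2 a3 a4 b1 b2 b3 b4 c1 c2 c3 c4
  have h0 : x 0 = 1 := by linarith
  refine ⟨h0, ?_⟩
  rw [h0] at a1 a2 a3 a4 b1 b2 b3 b4 c1 c2 c3 c4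
  show |x 1 - 1| + 2 * |x 3| ≤ 1 ∧ |x 3| + 2 * |x 2| ≤ 1 ∧ |x 2| + 2 * |x 1 - 1| ≤ 1
  refine ⟨?_, ?_, ?_⟩
  · rcases abs_cases (x 1 - 1) with ⟨h1, -⟩ | ⟨h1, -⟩ <;>
    rcases abs_cases (x 3) with ⟨h2, -⟩ | ⟨h2, -⟩ <;> rw [h1, h2] <;> linarith
  · rcases abs_cases (x 3) with ⟨h1, -⟩ | ⟨h1, -⟩ <;>
    rcases abs_cases (x 2) with ⟨h2, -⟩ | ⟨h2, -⟩ <;> rw [h1, h2] <;> linarith
  · rcases abs_cases (x 2) with ⟨h1, -⟩ | ⟨h1, -⟩ <;>
    rcases abs_cases (x 1 - 1) with ⟨h2, -⟩ | ⟨h2, -⟩ <;> rw [h1, h2] <;> linarith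

theorem area_cell_q (w : J) : μHE[3] (frontier (cell q w)) ≤ ENNReal.ofReal aW := by
  obtain ⟨g, s, hg, hs⟩ := transitive_q w
  have h1 := area_cell_image (p := q) g s hg w0
  rw [hs] at h1
  rw [h1]
  have hne : wP ≠ wM := by decide
  have hP : wP ≠ w0 := by decide
  have hM : wM ≠ w0 := by decide
  have hd : (0 : ℝ) < Real.sqrt (3 / 2) := Real.sqrt_pos.2 (by norm_num)
  have key := area_frontier_le vor_q w0 {wP, wM} (by decide) (Real.sqrt (3 / 2)) hd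
    (fun j hj hjA => by
      rw [Finset.mem_insert, Finset.mem_singleton, not_or] at hjA
      exact dist_q_far j hj hjA.1 hjA.2)
  have e : ∀ (w : J) (i : Fin 4), (q w) i = (w.1 i : ℝ) / 2 := fun _ _ => rfl
  have dP : dist (q w0) (q wP) = 1 := by
    rw [EuclideanSpace.dist_eq]
    simp only [Fin.sum_univ_four, Real.dist_eq, sq_abs, e, w0, wP, Matrix.cons_val_zero,
      Matrix.cons_val_one, Matrix.cons_val]
    norm_num
  have dM : dist (q w0) (q wM) = 1 := by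
    rw [EuclideanSpace.dist_eq]
    simp only [Fin.sum_univ_four, Real.dist_eq, sq_abs, e, w0, wM, Matrix.cons_val_zero,
      Matrix.cons_val_one, Matrix.cons_val]
    norm_num
  rw [Finset.sum_pair hne, Finset.sum_pair hne, dP, dM, volume_cell_q] at key
  have fP := area_facet_wP
  have fM := area_facet_wM
  have ft := area_frontier_lt_top vor_q w0
  have fPt : μHE[3] (facet q w0 wP) ≠ ∞ := ne_top_of_le_ne_top ENNReal.ofReal_ne_top fP
  have fMt : μHE[3] (facet q w0 wM) ≠ ∞ := ne_top_of_le_ne_top ENNReal.ofReal_ne_top fM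
  rw [← ENNReal.ofReal_toReal ft.ne] at key ⊢
  rw [← ENNReal.ofReal_toReal fPt] at key fP
  rw [← ENNReal.ofReal_toReal fMt] at key fM
  have m0 : 0 ≤ (μHE[3] (frontier (cell q w0))).toReal := ENNReal.toReal_nonneg
  have p0 : 0 ≤ (μHE[3] (facet q w0 wP)).toReal := ENNReal.toReal_nonneg
  have q0 : 0 ≤ (μHE[3] (facet q w0 wM)).toReal := ENNReal.toReal_nonneg
  generalize (μHE[3] (frontier (cell q w0))).toReal = m at *
  generalize (μHE[3] (facet q w0 wP)).toReal = a at *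
  generalize (μHE[3] (facet q w0 wM)).toReal = b at *
  have fP' := (ENNReal.ofReal_le_ofReal_iff (by norm_num)).1 fP
  have fM' := (ENNReal.ofReal_le_ofReal_iff (by norm_num)).1 fM
  have hd2 : Real.sqrt (3 / 2) ^ 2 = 3 / 2 := Real.sq_sqrt (by norm_num)
  have hd3 : Real.sqrt (3 / 2) ≤ 1.2248 := Real.sqrt_le_iff.2 ⟨by norm_num, by norm_num⟩
  have hd4 : 1.2247 ≤ Real.sqrt (3 / 2) := Real.le_sqrt_of_sq_le (by norm_num)
  generalize Real.sqrt (3 / 2) = d at *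
  rw [← ENNReal.ofReal_mul (by positivity), ← ENNReal.ofReal_mul (by positivity),
    ← ENNReal.ofReal_mul (by positivity), ← ENNReal.ofReal_mul (by positivity),
    ← ENNReal.ofReal_mul (by positivity), ← ENNReal.ofReal_add (by positivity) (by positivity),
    ← ENNReal.ofReal_add (by positivity) (by positivity),
    ← ENNReal.ofReal_add (by positivity) (by positivity), ← ENNReal.ofReal_one,
    ← ENNReal.ofReal_add (by positivity) (by positivity),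
    ENNReal.ofReal_le_ofReal_iff (by positivity)] at key
  refine ENNReal.ofReal_le_ofReal ?_
  unfold aW
  by_contra hc
  push Not at hc
  nlinarith

end Pool.Agent.Helper74.Foam
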