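import Pool.Agent.Helper74.Foam.Defs

/-! Module M: choice of the radius. -/

set_option autoImplicit false

namespace Pool.Agent.Helper74.Foam

theorem exists_radius (ω : ℝ) (hω : 0 < ω) : ∃ M : ℝ, 100 ≤ M ∧
    ω * (M + 2) ^ 4 * aW + 8 * (ω * (M + 4) ^ 4 - ω * (M - 8) ^ 4)
      + 2 * (ω * (M + 2) ^ 4 - ω * (M - 6) ^ 4) + 2 < ω * (M - 6) ^ 4 * aC := by
  refine ⟨1000000 + 1 / ω, by have : 0 < 1 / ω := by positivity
                              linarith, ?_⟩
  set M := 1000000 + 1 / ω with hM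
  have h1 : 0 < 1 / ω := by positivity
  have hM6 : 1000000 ≤ M := by linarith
  have hωM : 1 ≤ ω * M := by
    rw [hM, mul_add, mul_one_div_cancel hω.ne']
    nlinarith
  have hMpos : 0 < M := by linarith
  unfold aW aC
  have key : (M + 2) ^ 4 * (6719 / 1000) + 8 * ((M + 4) ^ 4 - (M - 8) ^ 4)
      + 2 * ((M + 2) ^ 4 - (M - 6) ^ 4) + 2 * M < (M - 6) ^ 4 * (6727 / 1000) := by
    obtain ⟨t, ht⟩ : ∃ t, M = 1000000 + t := ⟨M - 1000000, by ring⟩
    have ht0 : 0 ≤ t := by linarith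
    rw [ht]
    ring_nf
    nlinarith [pow_nonneg ht0 2, pow_nonneg ht0 3, pow_nonneg ht0 4]
  have h2 : 2 ≤ ω * (2 * M) := by linarith
  have h3 := mul_lt_mul_of_pos_left key hω
  nlinarith [h3, h2]

end Pool.Agent.Helper74.Foam
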