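import Pool.Agent.Helper74.Foam.Old
import Pool.Agent.Helper74.Foam.NewArea
import Pool.Agent.Helper74.Foam.Count
import Pool.Agent.Helper74.Foam.Leftover
import Pool.Agent.Helper74.Foam.Numeric

/-! Assembly: the better foam inside a large ball. -/

set_option autoImplicit false

open MeasureTheory Measure Set Metric
open scoped ENNReal

namespace Pool.Agent.Helper74.Foam

/-- replacing the cells of a finite set `V` of indices by other regions -/
theorem retile {ι κ : Type*} [Fintype κ] {p : ι → E} (h : Vor p)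
    (hvol : ∀ i, volume (cell p i) = 1) (V : Finset ι) (hcard : Fintype.card κ = V.card)
    (r : κ → Set E) (hm : ∀ k, MeasurableSet (r k)) (h1 : ∀ k, volume (r k) = 1)
    (hsub : ∀ k, r k ⊆ ⋃ i ∈ V, cell p i)
    (hdisj : ∀ k l, k ≠ l → volume (r k ∩ r l) = 0)
    (hcov : volume ((⋃ i ∈ V, cell p i) \ ⋃ k, r k) = 0) :
    ∃ Q : ι → Set E, (∀ i, MeasurableSet (Q i)) ∧ (∀ i, volume (Q i) = 1) ∧
      (∀ i j, i ≠ j → volume (Q i ∩ Q j) = 0) ∧ volume (⋃ i, Q i)ᶜ = 0 ∧
      (∀ i, i ∉ V → Q i = cell p i) ∧ (∀ i, i ∈ V → Q i ⊆ ⋃ i ∈ V, cell p i) ∧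
      (⋃ i, frontier (Q i)) ⊆ (⋃ i ∈ {i | i ∉ V}, frontier (cell p i)) ∪ ⋃ k, frontier (r k) := by
  classical
  have := h.countable
  have hc : Fintype.card V = Fintype.card κ := by rw [hcard]; simp
  let φ : V ≃ κ := Fintype.equivOfCardEq hc
  let Q : ι → Set E := fun i => if hi : i ∈ V then r (φ ⟨i, hi⟩) else cell p i
  have Qin : ∀ i (hi : i ∈ V), Q i = r (φ ⟨i, hi⟩) := fun i hi => by simp [Q, hi]
  have Qout : ∀ i (hi : i ∉ V), Q i = cell p i := fun i hi => by simp [Q, hi]
  have mixed : ∀ i j, i ∈ V → j ∉ V → volume (Q i ∩ Q j) = 0 := by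
    intro i j hi hj
    rw [Qin i hi, Qout j hj]
    refine measure_mono_null (t := ⋃ k ∈ V, facet p k j) ?_ ?_
    · rintro x ⟨hx, hxj⟩
      have := hsub _ hx
      simp only [mem_iUnion] at this ⊢
      obtain ⟨k, hk, hxk⟩ := this
      exact ⟨k, hk, hxk, hxj⟩
    · refine (measure_biUnion_null_iff V.countable_toSet).2 fun k hk => ?_
      exact volume_facet h (fun e => hj (e ▸ hk))
  refine ⟨Q, ?_, ?_, ?_, ?_, Qout, ?_, ?_⟩
  · intro i
    by_cases hi : i ∈ V
    · rw [Qin i hi]; exact hm _
    · rw [Qout i hi]; exact measurableSet_cell p i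
  · intro i
    by_cases hi : i ∈ V
    · rw [Qin i hi]; exact h1 _
    · rw [Qout i hi]; exact hvol i
  · intro i j hij
    by_cases hi : i ∈ V
    · by_cases hj : j ∈ V
      · rw [Qin i hi, Qin j hj]
        refine hdisj _ _ fun e => hij ?_
        have := φ.injective e
        simpa using this
      · exact mixed i j hi hj
    · by_cases hj : j ∈ V
      · rw [inter_comm]; exact mixed j i hj hi
      · rw [Qout i hi, Qout j hj]; exact volume_facet h hij
  · refine measure_mono_null (t := (⋃ i ∈ V, cell p i) \ ⋃ k, r k) ?_ hcov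
    intro x hx
    rw [mem_compl_iff, mem_iUnion, not_exists] at hx
    obtain ⟨i, hi⟩ := exists_cell h x
    have hiV : i ∈ V := by
      by_contra hc
      exact hx i (by rw [Qout i hc]; exact hi)
    refine ⟨mem_biUnion (x := i) hiV hi, ?_⟩
    rw [mem_iUnion, not_exists]
    intro k hk
    have hmem := (φ.symm k).2
    apply hx (φ.symm k).1
    rw [Qin _ hmem]
    simpa using hk
  · intro i hi
    rw [Qin i hi]
    exact hsub _
  · refine iUnion_subset fun i => ?_
    by_cases hi : i ∈ V
    · rw [Qin i hi]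
      exact (subset_iUnion (fun k => frontier (r k)) (φ ⟨i, hi⟩)).trans subset_union_right
    · rw [Qout i hi]
      refine Subset.trans ?_ subset_union_left
      exact subset_biUnion_of_mem (u := fun i => frontier (cell p i)) (show i ∈ {i | i ∉ V} from hi)

lemma volume_biUnion_cell {ι : Type*} {p : ι → E} (h : Vor p) (hvol : ∀ i, volume (cell p i) = 1)
    (V : Finset ι) : volume (⋃ i ∈ V, cell p i) = (V.card : ℝ≥0∞) := by
  have h1 := measure_biUnion_finset₀ (μ := (volume : Measure E)) (s := V) (f := cell p)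
    (fun i _ j _ hij => volume_facet h hij)
    (fun i _ => (measurableSet_cell p i).nullMeasurableSet)
  rw [h1]
  simp [hvol]

/-- the frontier of a finite union of cells is covered by the boundaries of the other cells -/
lemma frontier_biUnion_cell {ι : Type*} {p : ι → E} (h : Vor p) (V : Set ι) :
    frontier (⋃ i ∈ V, cell p i) ⊆ ⋃ i ∈ Vᶜ, frontier (cell p i) := by
  intro x hx
  have hcl := isClosed_biUnion_cell h V
  have hx1 : x ∈ ⋃ i ∈ V, cell p i := hcl.frontier_subset hx
  rw [← frontier_compl] at hx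
  have hsub : (⋃ i ∈ V, cell p i)ᶜ ⊆ ⋃ i ∈ Vᶜ, cell p i := by
    intro y hy
    obtain ⟨i, hi⟩ := exists_cell h y
    refine mem_biUnion (x := i) ?_ hi
    intro hiV
    exact hy (mem_biUnion hiV hi)
  have hx2 : x ∈ ⋃ i ∈ Vᶜ, cell p i :=
    (closure_minimal hsub (isClosed_biUnion_cell h Vᶜ)) (frontier_subset_closure hx)
  simp only [mem_iUnion] at hx1 hx2 ⊢
  obtain ⟨i, hi, hxi⟩ := hx1
  obtain ⟨j, hj, hxj⟩ := hx2
  refine ⟨j, hj, facet_subset_frontier h (i := j) (j := i) ?_ ⟨hxj, hxi⟩⟩
  rintro rfl
  exact hj hi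

theorem measurableSet_biUnion_frontier {ι : Type*} {p : ι → E} (h : Vor p) (V : Set ι) :
    MeasurableSet (⋃ i ∈ V, frontier (cell p i)) := by
  have := h.countable
  exact MeasurableSet.biUnion (to_countable V) fun i _ => isClosed_frontier.measurableSet

/-- Main estimate with `μHE[3]` -/
theorem better_foam : ∃ (Q : I → Set E) (R : ℝ),
    (∀ v, MeasurableSet (Q v)) ∧ (∀ v, volume (Q v) = 1) ∧
    (∀ v w, v ≠ w → volume (Q v ∩ Q w) = 0) ∧ volume (⋃ v, Q v)ᶜ = 0 ∧
    (∀ v, Q v \ closedBall (0 : E) R = cell p v \ closedBall (0 : E) R) ∧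
    μHE[3] (closedBall (0 : E) (R + 1) ∩ ⋃ v, frontier (Q v))
      < μHE[3] (closedBall (0 : E) (R + 1) ∩ ⋃ v, frontier (cell p v)) := by
  classical
  have hp := vor_p
  have hq := vor_q
  have vp := volume_cell_p
  have vq := volume_cell_q
  have := hp.countable
  have := hq.countable
  -- the volume of the unit ball
  set ω : ℝ := (volume (ball (0 : E) 1)).toReal with hωdef
  have hωtop : volume (ball (0 : E) 1) ≠ ∞ := measure_ball_lt_top.ne
  have hω : 0 < ω := ENNReal.toReal_pos (measure_ball_pos _ _ one_pos).ne' hωtop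
  have vball : ∀ r : ℝ, 0 ≤ r → volume (ball (0 : E) r) = ENNReal.ofReal (ω * r ^ 4) := by
    intro r hr
    rw [Measure.addHaar_ball _ _ hr, hωdef, ENNReal.ofReal_mul ENNReal.toReal_nonneg,
      ENNReal.ofReal_toReal hωtop, mul_comm]
    simp
  have vcball : ∀ r : ℝ, 0 ≤ r → volume (closedBall (0 : E) r) = ENNReal.ofReal (ω * r ^ 4) := by
    intro r hr
    rw [Measure.addHaar_closedBall _ _ hr, hωdef, ENNReal.ofReal_mul ENNReal.toReal_nonneg,
      ENNReal.ofReal_toReal hωtop, mul_comm]
    simp
  obtain ⟨M, hM, hnum⟩ := exists_radius ω hω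
  set V : Finset I := sites hp M with hV
  set T : Finset J := sites hq (M - 4) with hT
  set U : Set E := ⋃ i ∈ V, cell p i with hU
  set W : Set E := ⋃ w ∈ T, cell q w with hW
  -- geometric inclusions
  have ballU : closedBall (0 : E) (M - 2) ⊆ U := by
    intro x hx
    obtain ⟨i, hi⟩ := exists_cell hp x
    refine mem_biUnion (x := i) ?_ hi
    have h1 := dist_le_two hp hi
    rw [mem_closedBall] at hx
    have h2 : dist (p i) 0 ≤ M := by
      have := dist_triangle_left (p i) 0 x
      linarith
    exact (mem_sites hp).2 h2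
  have ballW : ball (0 : E) (M - 6) ⊆ W := by
    intro x hx
    obtain ⟨i, hi⟩ := exists_cell hq x
    refine mem_biUnion (x := i) ?_ hi
    have h1 := dist_le_two hq hi
    rw [mem_ball] at hx
    have h2 : dist (q i) 0 ≤ M - 4 := by
      have := dist_triangle_left (q i) 0 x
      linarith
    exact (mem_sites hq).2 h2
  have cellW : ∀ w ∈ T, cell q w ⊆ closedBall (0 : E) (M - 2) := by
    intro w hw x hx
    have h1 := dist_le_two hq hx
    have h2 : dist (q w) 0 ≤ M - 4 := (mem_sites hq).1 hw
    rw [mem_closedBall]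
    have := dist_triangle x (q w) 0
    linarith
  have cellV : ∀ v ∈ V, cell p v ⊆ closedBall (0 : E) (M + 2) := by
    intro w hw x hx
    have h1 := dist_le_two hp hx
    have h2 : dist (p w) 0 ≤ M := (mem_sites hp).1 hw
    rw [mem_closedBall]
    have := dist_triangle x (p w) 0
    linarith
  have Usub : U ⊆ closedBall (0 : E) (M + 2) := iUnion₂_subset fun v hv => cellV v hv
  have WsubU : W ⊆ U := (iUnion₂_subset fun v hv => cellW v hv).trans ballU
  have volU : volume U = (V.card : ℝ≥0∞) := volume_biUnion_cell hp vp V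
  have volW : volume W = (T.card : ℝ≥0∞) := volume_biUnion_cell hq vq T
  have Umeas : MeasurableSet U := (isClosed_biUnion_cell hp (V : Set I)).measurableSet
  have Wcl : IsClosed W := isClosed_biUnion_cell hq (T : Set J)
  have TleV : T.card ≤ V.card := by
    have := measure_mono (μ := (volume : Measure E)) WsubU
    rw [volU, volW] at this
    exact_mod_cast this
  obtain ⟨m, hm⟩ : ∃ m, V.card = T.card + m := ⟨V.card - T.card, by omega⟩
  set Y : Set E := U \ W with hY
  have Ymeas : MeasurableSet Y := Umeas.diff Wcl.measurableSet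
  have volY : volume Y = (m : ℝ≥0∞) := by
    have h1 := measure_sdiff (μ := (volume : Measure E)) WsubU Wcl.measurableSet.nullMeasurableSet
      (by rw [volW]; exact ENNReal.natCast_ne_top _)
    rw [hY, h1, volU, volW, hm]
    push_cast
    exact ENNReal.add_sub_cancel_left (ENNReal.natCast_ne_top _)
  have Yshell : Y ⊆ closedBall (0 : E) (M + 2) \ ball 0 (M - 6) :=
    fun x hx => ⟨Usub hx.1, fun hb => hx.2 (ballW hb)⟩
  obtain ⟨B, hB, hBcard⟩ := card_cubes_shell Y (M - 6) (M + 2) (by linarith) (by linarith) Yshell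
  obtain ⟨P, Z, Pm, P1, PY, Pd, Pc, Pf, PZ⟩ := leftover Y Ymeas B hB m volY
  -- the family of new regions
  let r : (T ⊕ Fin m) → Set E := Sum.elim (fun w => cell q w.1) P
  have hcard : Fintype.card (T ⊕ Fin m) = V.card := by simp [hm]
  obtain ⟨Q, Qm, Q1, Qd, Qc, Qout, Qin, Qf⟩ := retile hp vp V hcard r
    (by rintro (w | j)
        · exact measurableSet_cell q w.1
        · exact Pm j)
    (by rintro (w | j)
        · exact vq w.1
        · exact P1 j)
    (by rintro (w | j)
        · exact (cellW w.1 w.2).trans ballU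
        · exact (PY j).trans sdiff_subset)
    (by rintro (w | j) (w' | j') hne
        · exact volume_facet hq (fun e => hne (by rw [Subtype.ext e]))
        · refine measure_mono_null (t := ∅) ?_ measure_empty
          rintro x ⟨hx, hx'⟩
          exact (PY j' hx').2 (mem_biUnion (x := w.1) w.2 hx)
        · refine measure_mono_null (t := ∅) ?_ measure_empty
          rintro x ⟨hx, hx'⟩
          exact (PY j hx).2 (mem_biUnion (x := w'.1) w'.2 hx')
        · have hd := Pd j j' (fun e => hne (by rw [e]))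
          change volume (P j ∩ P j') = 0
          rw [hd.inter_eq, measure_empty])
    (by refine measure_mono_null (t := Y \ ⋃ j, P j) ?_ Pc
        rintro x ⟨hxU, hxr⟩
        rw [mem_iUnion, not_exists] at hxr
        refine ⟨⟨hxU, ?_⟩, ?_⟩
        · intro hxW
          simp only [hW, mem_iUnion] at hxW
          obtain ⟨w, hw, hxw⟩ := hxW
          exact hxr (Sum.inl ⟨w, hw⟩) hxw
        · intro hxP
          rw [mem_iUnion] at hxP
          obtain ⟨j, hj⟩ := hxP
          exact hxr (Sum.inr j) hj)
  set Xout : Set E := ⋃ i ∈ {i | i ∉ V}, frontier (cell p i) with hXout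
  set XT : Set E := ⋃ w ∈ T, frontier (cell q w) with hXT
  set XV : Set E := ⋃ v ∈ V, frontier (cell p v) with hXV
  -- frontiers of the new regions
  have frY : frontier Y ⊆ Xout ∪ XT := by
    have h1 : frontier Y ⊆ frontier U ∪ frontier W := by
      have := frontier_inter_subset U Wᶜ
      rw [← diff_eq] at this
      refine this.trans ?_
      rw [frontier_compl]
      exact union_subset_union inter_subset_left inter_subset_right
    refine h1.trans (union_subset ?_ ?_)
    · refine (frontier_biUnion_cell hp (V : Set I)).trans ?_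
      refine Subset.trans ?_ subset_union_left
      rw [hXout]
      apply biUnion_subset_biUnion_left
      intro i hi
      simpa using hi
    · have h2 : frontier W ⊆ XT := by
        intro x hx
        have hxW : x ∈ W := Wcl.frontier_subset hx
        simp only [hW, mem_iUnion] at hxW
        obtain ⟨w, hw, hxw⟩ := hxW
        refine mem_biUnion (x := w) hw ?_
        refine ⟨subset_closure hxw, fun hint => ?_⟩
        exact hx.2 (interior_mono (subset_biUnion_of_mem (u := fun w => cell q w) hw) hint)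
      exact h2.trans subset_union_right
  have frr : (⋃ k, frontier (r k)) ⊆ Xout ∪ (XT ∪ Z) := by
    refine iUnion_subset ?_
    rintro (w | j)
    · refine Subset.trans ?_ (subset_union_right.trans' subset_union_left)
      exact subset_biUnion_of_mem (u := fun w => frontier (cell q w)) w.2
    · refine (Pf j).trans (union_subset (frY.trans ?_) ?_)
      · exact union_subset_union_right _ subset_union_left
      · exact (subset_union_right.trans' subset_union_right)
  have frQ : (⋃ i, frontier (Q i)) ⊆ Xout ∪ (XT ∪ Z) := by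
    refine Qf.trans (union_subset subset_union_left frr)
  refine ⟨Q, M + 2, Qm, Q1, Qd, Qc, ?_, ?_⟩
  · intro v
    by_cases hv : v ∈ V
    · have h1 : Q v ⊆ closedBall (0 : E) (M + 2) := (Qin v hv).trans Usub
      rw [diff_eq_empty.2 h1, diff_eq_empty.2 (cellV v hv)]
    · rw [Qout v hv]
  -- the area estimate
  set Bl : Set E := closedBall (0 : E) (M + 2 + 1) with hBl
  have hXoutm : MeasurableSet Xout := measurableSet_biUnion_frontier hp _
  have fin_out : μHE[3] (Bl ∩ Xout) ≠ ∞ := by
    have hsub : Bl ∩ Xout ⊆ ⋃ i ∈ sites hp (M + 5), frontier (cell p i) := by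
      rintro x ⟨hxB, hxo⟩
      simp only [hXout, mem_iUnion] at hxo
      obtain ⟨i, -, hxi⟩ := hxo
      refine mem_biUnion (x := i) ?_ hxi
      have h0 : x ∈ cell p i := (isClosed_cell p i).frontier_subset hxi
      have h1 := dist_le_two hp h0
      rw [hBl, mem_closedBall] at hxB
      refine (mem_sites hp).2 ?_
      have := dist_triangle_left (p i) 0 x
      linarith
    refine ne_top_of_le_ne_top ?_ (measure_mono hsub)
    refine ne_top_of_le_ne_top ?_ (measure_biUnion_finset_le _ _)
    exact (ENNReal.sum_lt_top.2 fun i _ => area_frontier_lt_top hp i).ne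
  have lower : μHE[3] (Bl ∩ Xout) + μHE[3] (XV \ Xout)
      ≤ μHE[3] (Bl ∩ ⋃ v, frontier (cell p v)) := by
    rw [← measure_union₀' (measurableSet_closedBall.inter hXoutm).nullMeasurableSet]
    · apply measure_mono
      rintro x (⟨hxB, hxo⟩ | ⟨hxV, -⟩)
      · refine ⟨hxB, ?_⟩
        simp only [hXout, mem_iUnion] at hxo ⊢
        obtain ⟨i, -, hxi⟩ := hxo
        exact ⟨i, hxi⟩
      · simp only [hXV, mem_iUnion] at hxV
        obtain ⟨i, hi, hxi⟩ := hxV
        refine ⟨?_, mem_iUnion.2 ⟨i, hxi⟩⟩
        have h0 : x ∈ cell p i := (isClosed_cell p i).frontier_subset hxi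
        have h1 := cellV i hi h0
        rw [mem_closedBall] at h1
        rw [hBl, mem_closedBall]
        linarith
    · refine Disjoint.aedisjoint ?_
      exact disjoint_left.2 fun x hx hx' => hx'.2 hx.2
  have upper : μHE[3] (Bl ∩ ⋃ v, frontier (Q v))
      ≤ μHE[3] (Bl ∩ Xout) + (μHE[3] XT + μHE[3] Z) := by
    have hsub : Bl ∩ (⋃ v, frontier (Q v)) ⊆ (Bl ∩ Xout) ∪ (XT ∪ Z) := by
      rintro x ⟨hxB, hxQ⟩
      rcases frQ hxQ with h | h
      · exact Or.inl ⟨hxB, h⟩
      · exact Or.inr h
    refine (measure_mono hsub).trans ((measure_union_le _ _).trans ?_)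
    gcongr
    exact measure_union_le _ _
  refine lt_of_le_of_lt upper (lt_of_lt_of_le ?_ lower)
  refine ENNReal.add_lt_add_left fin_out ?_
  -- counting
  have cV : ((sites hp (M - 4)).card : ℝ≥0∞) * ENNReal.ofReal aC ≤ 2 * μHE[3] (XV \ Xout) := by
    refine le_trans ?_ (sum_area_le hp M)
    calc ((sites hp (M - 4)).card : ℝ≥0∞) * ENNReal.ofReal aC
        = ∑ _i ∈ sites hp (M - 4), ENNReal.ofReal aC := by simp
      _ ≤ _ := Finset.sum_le_sum fun i _ => area_cell_p i
  have cT : 2 * μHE[3] XT ≤ ((sites hq M).card : ℝ≥0∞) * ENNReal.ofReal aW := by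
    have h1 := two_mul_area_le hq (M - 4)
    rw [sub_add_cancel] at h1
    refine h1.trans ?_
    calc _ ≤ ∑ _i ∈ sites hq M, ENNReal.ofReal aW := Finset.sum_le_sum fun i _ => area_cell_q i
      _ = _ := by simp
  have nV : ENNReal.ofReal (ω * (M - 6) ^ 4) ≤ ((sites hp (M - 4)).card : ℝ≥0∞) := by
    rw [← vball (M - 6) (by linarith)]
    have := ball_le_card hp vp (M - 4)
    rwa [show M - 4 - 2 = M - 6 by ring] at this
  have nT : ((sites hq M).card : ℝ≥0∞) ≤ ENNReal.ofReal (ω * (M + 2) ^ 4) := by
    rw [← vcball (M + 2) (by linarith)]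
    exact card_le_ball hq vq M
  have nB : (B.card : ℝ≥0∞) + ENNReal.ofReal (ω * (M - 8) ^ 4) ≤ ENNReal.ofReal (ω * (M + 4) ^ 4) := by
    rw [← vball (M - 8) (by linarith), ← vcball (M + 4) (by linarith)]
    rwa [show M - 6 - 2 = M - 8 by ring, show M + 2 + 2 = M + 4 by ring] at hBcard
  have nm : (m : ℝ≥0∞) + ENNReal.ofReal (ω * (M - 6) ^ 4) ≤ ENNReal.ofReal (ω * (M + 2) ^ 4) := by
    rw [← vball (M - 6) (by linarith), ← vcball (M + 2) (by linarith), ← volY]
    rw [← measure_union (disjoint_left.2 fun x hx hb => (Yshell hx).2 hb) measurableSet_ball]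
    apply measure_mono
    refine union_subset (Yshell.trans sdiff_subset) ?_
    exact ball_subset_closedBall.trans (closedBall_subset_closedBall (by linarith))
  -- convert to real numbers
  have rV : ω * (M - 6) ^ 4 ≤ ((sites hp (M - 4)).card : ℝ) := by
    have := ENNReal.toReal_mono (ENNReal.natCast_ne_top _) nV
    rwa [ENNReal.toReal_ofReal (by positivity), ENNReal.toReal_natCast] at this
  have rT : ((sites hq M).card : ℝ) ≤ ω * (M + 2) ^ 4 := by
    have := ENNReal.toReal_mono ENNReal.ofReal_ne_top nT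
    rwa [ENNReal.toReal_ofReal (by positivity), ENNReal.toReal_natCast] at this
  have rB : (B.card : ℝ) + ω * (M - 8) ^ 4 ≤ ω * (M + 4) ^ 4 := by
    have := ENNReal.toReal_mono ENNReal.ofReal_ne_top nB
    rwa [ENNReal.toReal_add (ENNReal.natCast_ne_top _) ENNReal.ofReal_ne_top,
      ENNReal.toReal_ofReal (by positivity), ENNReal.toReal_ofReal (by positivity),
      ENNReal.toReal_natCast] at this
  have rm : (m : ℝ) + ω * (M - 6) ^ 4 ≤ ω * (M + 2) ^ 4 := by
    have := ENNReal.toReal_mono ENNReal.ofReal_ne_top nm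
    rwa [ENNReal.toReal_add (ENNReal.natCast_ne_top _) ENNReal.ofReal_ne_top,
      ENNReal.toReal_ofReal (by positivity), ENNReal.toReal_ofReal (by positivity),
      ENNReal.toReal_natCast] at this
  have haC : (0 : ℝ) < aC := by unfold aC; norm_num
  have haW : (0 : ℝ) < aW := by unfold aW; norm_num
  have key : ((sites hq M).card : ℝ) * aW + 2 * (4 * (B.card : ℝ) + m + 1)
      < ((sites hp (M - 4)).card : ℝ) * aC := by
    have e1 : ((sites hq M).card : ℝ) * aW ≤ ω * (M + 2) ^ 4 * aW :=
      mul_le_mul_of_nonneg_right rT haW.le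
    have e2 : ω * (M - 6) ^ 4 * aC ≤ ((sites hp (M - 4)).card : ℝ) * aC :=
      mul_le_mul_of_nonneg_right rV haC.le
    linarith
  have h2 : 2 * (μHE[3] XT + μHE[3] Z) < 2 * μHE[3] (XV \ Xout) := by
    refine lt_of_lt_of_le ?_ cV
    rw [mul_add]
    refine lt_of_le_of_lt (add_le_add cT (mul_le_mul_right PZ 2)) ?_
    have hpos : (0 : ℝ) < ((sites hp (M - 4)).card : ℝ) * aC := lt_of_le_of_lt (by positivity) key
    have := (ENNReal.ofReal_lt_ofReal_iff hpos).2 key
    rw [ENNReal.ofReal_mul (by positivity), ENNReal.ofReal_natCast,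
      ENNReal.ofReal_add (by positivity) (by positivity),
      ENNReal.ofReal_mul (by positivity), ENNReal.ofReal_natCast,
      ENNReal.ofReal_mul (by norm_num), ENNReal.ofReal_add (by positivity) (by norm_num),
      ENNReal.ofReal_add (by positivity) (by positivity),
      ENNReal.ofReal_mul (by norm_num), ENNReal.ofReal_natCast, ENNReal.ofReal_natCast] at this
    simpa using this
  exact (ENNReal.mul_lt_mul_iff_right (by norm_num) (by norm_num)).1 h2

end Pool.Agent.Helper74.Foam
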