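import Pool.Agent.Helper74.Foam.Cone1

/-! Module K2: areas of the boundary of a cell (by helper7). -/

set_option autoImplicit false

open MeasureTheory Measure Set Metric
open scoped ENNReal

namespace Pool.Agent.Helper74.Foam

variable {ι : Type*}

namespace K2

lemma inner_le_of_mem_cell {p : ι → E} {i : ι} {z : E} (hz : z ∈ cell p i) (j : ι) :
    2 * inner ℝ (z - p i) (p j - p i) ≤ ‖p j - p i‖ ^ 2 := by
  have h := hz j
  rw [dist_eq_norm, dist_eq_norm] at h
  have h1 : ‖z - p i‖ ^ 2 ≤ ‖z - p j‖ ^ 2 := by gcongr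
  have h2 : z - p j = (z - p i) - (p j - p i) := by abel
  rw [h2, norm_sub_sq_real (z - p i) (p j - p i)] at h1
  linarith

lemma inner_eq_of_mem_facet {p : ι → E} {i j : ι} {z : E} (hz : z ∈ facet p i j) :
    2 * inner ℝ (z - p i) (p j - p i) = ‖p j - p i‖ ^ 2 := by
  have h : dist z (p i) = dist z (p j) := le_antisymm (hz.1 j) (hz.2 i)
  rw [dist_eq_norm, dist_eq_norm] at h
  have h1 : ‖z - p i‖ ^ 2 = ‖z - p j‖ ^ 2 := by rw [h]
  have h2 : z - p j = (z - p i) - (p j - p i) := by abel
  rw [h2, norm_sub_sq_real (z - p i) (p j - p i)] at h1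
  linarith

/-- a hyperplane through `a` is Lebesgue null -/
lemma volume_hyperplane (a m : E) (hm : m ≠ 0) : volume {y : E | inner ℝ m (y - a) = 0} = 0 := by
  have hs : {y : E | inner ℝ m (y - a) = 0}
      = ((AffineSubspace.mk' a (ℝ ∙ m)ᗮ : AffineSubspace ℝ E) : Set E) := by
    ext y
    simp only [mem_ofPred_eq, SetLike.mem_coe, AffineSubspace.mem_mk', vsub_eq_sub]
    rw [Submodule.mem_orthogonal_singleton_iff_inner_right]
  rw [hs]
  refine Measure.addHaar_affineSubspace _ _ ?_
  intro htop
  have : a + m ∈ (AffineSubspace.mk' a (ℝ ∙ m)ᗮ : AffineSubspace ℝ E) := by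
    rw [htop]; exact AffineSubspace.mem_top ℝ E _
  rw [AffineSubspace.mem_mk', vsub_eq_sub, Submodule.mem_orthogonal_singleton_iff_inner_right,
    add_sub_cancel_left, inner_self_eq_zero] at this
  exact hm this

/-- inversion is injective -/
lemma inv_sub_ne {d d' : E} (hd : d ≠ 0) (hd' : d' ≠ 0) (hne : d ≠ d') :
    (‖d‖ ^ 2)⁻¹ • d - (‖d'‖ ^ 2)⁻¹ • d' ≠ 0 := by
  intro h
  rw [sub_eq_zero] at h
  have h1 : 0 < ‖d‖ := norm_pos_iff.2 hd
  have h2 : 0 < ‖d'‖ := norm_pos_iff.2 hd'
  have h3 := congrArg norm h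
  rw [norm_smul, norm_smul, norm_inv, norm_inv, norm_pow, norm_pow, norm_norm, norm_norm] at h3
  have h4 : ‖d‖ = ‖d'‖ := by
    have e1 : (‖d‖ ^ 2)⁻¹ * ‖d‖ = ‖d‖⁻¹ := by field_simp
    have e2 : (‖d'‖ ^ 2)⁻¹ * ‖d'‖ = ‖d'‖⁻¹ := by field_simp
    rw [e1, e2] at h3
    exact inv_injective h3
  rw [h4] at h
  have h5 : (‖d'‖ ^ 2)⁻¹ ≠ 0 := by positivity
  exact hne (smul_right_injective E h5 h)

end K2

open K2

/-- cones over different facets of a cell are essentially disjoint -/
theorem volume_cone_inter {p : ι → E} (h : Vor p) {i j k : ι} (hij : i ≠ j) (hik : i ≠ k)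
    (hjk : j ≠ k) :
    volume (cone (p i) (facet p i j) ∩ cone (p i) (facet p i k)) = 0 := by
  have hd : p j - p i ≠ 0 := fun h0 => hij (h.inj (sub_eq_zero.1 h0)).symm
  have hd' : p k - p i ≠ 0 := fun h0 => hik (h.inj (sub_eq_zero.1 h0)).symm
  have hne : p j - p i ≠ p k - p i := fun h0 => hjk (h.inj (sub_left_injective h0))
  set d := p j - p i with hdd
  set d' := p k - p i with hdd'
  refine measure_mono_null ?_ (volume_hyperplane (p i) _ (inv_sub_ne hd hd' hne))
  rintro y ⟨⟨t, ht, z, hz, rfl⟩, ⟨t', ht', z', hz', hy⟩⟩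
  have hv : t • (z - p i) = t' • (z' - p i) := add_left_cancel hy
  have n1 : 0 < ‖d‖ ^ 2 := by positivity
  have n2 : 0 < ‖d'‖ ^ 2 := by positivity
  have a1 : 2 * inner ℝ (z - p i) d = ‖d‖ ^ 2 := inner_eq_of_mem_facet hz
  have a2 : 2 * inner ℝ (z - p i) d' ≤ ‖d'‖ ^ 2 := inner_le_of_mem_cell hz.1 k
  have a3 : 2 * inner ℝ (z' - p i) d' = ‖d'‖ ^ 2 := inner_eq_of_mem_facet hz'
  have a4 : 2 * inner ℝ (z' - p i) d ≤ ‖d‖ ^ 2 := inner_le_of_mem_cell hz'.1 j
  have b1 : t * inner ℝ (z - p i) d = t' * inner ℝ (z' - p i) d := by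
    rw [← real_inner_smul_left, ← real_inner_smul_left, hv]
  have b2 : t * inner ℝ (z - p i) d' = t' * inner ℝ (z' - p i) d' := by
    rw [← real_inner_smul_left, ← real_inner_smul_left, hv]
  have htt : t ≤ t' := by
    have : t * ‖d‖ ^ 2 ≤ t' * ‖d‖ ^ 2 := by
      rw [← a1]
      calc t * (2 * inner ℝ (z - p i) d) = 2 * (t * inner ℝ (z - p i) d) := by ring
        _ = t' * (2 * inner ℝ (z' - p i) d) := by rw [b1]; ring
        _ ≤ t' * (2 * inner ℝ (z - p i) d) := by
            rw [a1]; exact mul_le_mul_of_nonneg_left a4 ht'.1.le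
    exact le_of_mul_le_mul_right this n1
  have htt' : t' ≤ t := by
    have : t' * ‖d'‖ ^ 2 ≤ t * ‖d'‖ ^ 2 := by
      rw [← a3]
      calc t' * (2 * inner ℝ (z' - p i) d') = 2 * (t' * inner ℝ (z' - p i) d') := by ring
        _ = t * (2 * inner ℝ (z - p i) d') := by rw [← b2]; ring
        _ ≤ t * (2 * inner ℝ (z' - p i) d') := by
            rw [a3]; exact mul_le_mul_of_nonneg_left a2 ht.1.le
    exact le_of_mul_le_mul_right this n2
  have hteq : t = t' := le_antisymm htt htt'
  simp only [mem_ofPred_eq, add_sub_cancel_left]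
  rw [inner_sub_left, real_inner_smul_left, real_inner_smul_left, real_inner_comm,
    real_inner_comm (t • (z - p i)) d', real_inner_smul_left, real_inner_smul_left, b2, ← hteq]
  have c1 : inner ℝ (z - p i) d = ‖d‖ ^ 2 / 2 := by linarith
  have c2 : inner ℝ (z' - p i) d' = ‖d'‖ ^ 2 / 2 := by linarith
  rw [c1, c2]
  field_simp
  ring

lemma volume_cell_lt_top {p : ι → E} (h : Vor p) (i : ι) : volume (cell p i) < ∞ :=
  (measure_mono (fun _ hx => dist_le_two h hx : cell p i ⊆ closedBall (p i) 2)).trans_lt
    measure_closedBall_lt_top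

lemma area_facet_lt_top {p : ι → E} (h : Vor p) {i j : ι} (hij : i ≠ j) :
    μHE[3] (facet p i j) < ∞ := by
  have hne : p i ≠ p j := fun h0 => hij (h.inj h0)
  have h1 := volume_cone_facet p hne
  have h2 : volume (cone (p i) (facet p i j)) < ∞ :=
    (measure_mono (cone_facet_subset p i j)).trans_lt (volume_cell_lt_top h i)
  rw [h1] at h2
  have h3 : ENNReal.ofReal (dist (p i) (p j) / 8) ≠ 0 := by
    have : 0 < dist (p i) (p j) := dist_pos.2 hne
    simp only [ne_eq, ENNReal.ofReal_eq_zero, not_le]
    positivity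
  by_contra h4
  rw [not_lt, top_le_iff] at h4
  rw [h4, ENNReal.mul_top h3] at h2
  exact lt_irrefl _ h2

/-- the boundary of a cell has finite area -/
theorem area_frontier_lt_top {p : ι → E} (h : Vor p) (i : ι) :
    μHE[3] (frontier (cell p i)) < ∞ := by
  have hfin : ({j | dist (p j) 0 ≤ dist (p i) 0 + 4} \ {i}).Finite := (h.lf _).subset sdiff_subset
  have hsub : frontier (cell p i) ⊆
      ⋃ j ∈ ({j | dist (p j) 0 ≤ dist (p i) 0 + 4} \ {i}), facet p i j := by
    intro x hx
    have := frontier_cell_subset h i hx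
    simp only [mem_ofPred_eq, mem_iUnion, exists_prop] at this ⊢
    obtain ⟨j, hj, hxj⟩ := this
    refine ⟨j, ⟨?_, hj⟩, hxj⟩
    have h1 := dist_le_four h hxj.1 hxj.2
    have h2 := dist_triangle_left (p j) 0 (p i)
    simp only [mem_ofPred_eq]
    linarith
  refine (measure_mono hsub).trans_lt ?_
  exact measure_biUnion_lt_top hfin fun j hj => area_facet_lt_top h (fun h0 => hj.2 h0.symm)

/-- **upper bound for the boundary area of a cell**: if all sites except those in a finite set
`A` are at distance at least `d` from `p i`, then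
`area ≤ ∑_A area(facet) + (8/d) * (volume(cell) - volume of the cones over A)`,
stated without subtraction. -/
theorem area_frontier_le {p : ι → E} (h : Vor p) (i : ι) (A : Finset ι) (hA : i ∉ A) (d : ℝ)
    (hd : 0 < d) (hfar : ∀ j, j ≠ i → j ∉ A → d ≤ dist (p i) (p j)) :
    ENNReal.ofReal (d / 8) * μHE[3] (frontier (cell p i))
        + ∑ j ∈ A, ENNReal.ofReal (dist (p i) (p j) / 8) * μHE[3] (facet p i j)
      ≤ volume (cell p i) + ∑ j ∈ A, ENNReal.ofReal (d / 8) * μHE[3] (facet p i j) := by
  classical
  have : Countable ι := h.countable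
  set c := ENNReal.ofReal (d / 8) with hc
  set V : ι → ℝ≥0∞ := fun j => ENNReal.ofReal (dist (p i) (p j) / 8) * μHE[3] (facet p i j) with hV
  set f : ι → ℝ≥0∞ := fun j => μHE[3] (facet p i j) with hf
  have hcone : ∀ j, j ≠ i → volume (cone (p i) (facet p i j)) = V j := fun j hj =>
    volume_cone_facet p (fun h0 => hj (h.inj h0).symm)
  -- the cones
  set C : ι → Set E := fun j => if j = i then ∅ else cone (p i) (facet p i j) with hC
  have hCmeas : ∀ j, NullMeasurableSet (C j) volume := by
    intro j
    by_cases hj : j = i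
    · simp [hC, hj]
    · simp only [hC, hj, if_false]
      exact (measurableSet_cone_facet p (fun h0 => hj (h.inj h0).symm)).nullMeasurableSet
  have hCdis : Pairwise (Function.onFun (AEDisjoint volume) C) := by
    intro j k hjk
    simp only [Function.onFun, AEDisjoint]
    by_cases hj : j = i
    · simp [hC, hj]
    · by_cases hk : k = i
      · simp [hC, hk]
      · simp only [hC, hj, hk, if_false]
        exact volume_cone_inter h (fun h0 => hj h0.symm) (fun h0 => hk h0.symm) hjk
  have hCsub : (⋃ j, C j) ⊆ cell p i := by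
    refine iUnion_subset fun j => ?_
    by_cases hj : j = i
    · simp [hC, hj]
    · simp only [hC, hj, if_false]
      exact cone_facet_subset p i j
  have hsum : ∑' j, (if j = i then 0 else V j) ≤ volume (cell p i) := by
    calc ∑' j, (if j = i then 0 else V j) = ∑' j, volume (C j) := by
          refine tsum_congr fun j => ?_
          by_cases hj : j = i
          · simp [hC, hj]
          · simp only [hC, hj, if_false]
            exact (hcone j hj).symm
      _ = volume (⋃ j, C j) := (measure_iUnion₀ hCdis hCmeas).symm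
      _ ≤ volume (cell p i) := measure_mono hCsub
  have hfr : μHE[3] (frontier (cell p i)) ≤ ∑' j, (if j = i then 0 else f j) := by
    calc μHE[3] (frontier (cell p i)) ≤ μHE[3] (⋃ j, (if j = i then (∅ : Set E) else facet p i j)) := by
          refine measure_mono fun x hx => ?_
          have := frontier_cell_subset h i hx
          simp only [mem_ofPred_eq, mem_iUnion, exists_prop] at this
          obtain ⟨j, hj, hxj⟩ := this
          rw [mem_iUnion]
          exact ⟨j, by simpa [hj] using hxj⟩
      _ ≤ ∑' j, μHE[3] (if j = i then (∅ : Set E) else facet p i j) := measure_iUnion_le _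
      _ = ∑' j, (if j = i then 0 else f j) := by
          refine tsum_congr fun j => ?_
          by_cases hj : j = i
          · simp [hj]
          · simp [hj, hf]
  have hA1 : ∑ j ∈ A, V j = ∑' j, (if j ∈ A then V j else 0) := by
    rw [tsum_eq_sum (s := A) (fun b hb => by simp [hb])]
    exact Finset.sum_congr rfl fun j hj => by simp [hj]
  have hA2 : ∑ j ∈ A, c * f j = ∑' j, (if j ∈ A then c * f j else 0) := by
    rw [tsum_eq_sum (s := A) (fun b hb => by simp [hb])]
    exact Finset.sum_congr rfl fun j hj => by simp [hj]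
  calc c * μHE[3] (frontier (cell p i)) + ∑ j ∈ A, V j
      ≤ c * (∑' j, (if j = i then 0 else f j)) + ∑' j, (if j ∈ A then V j else 0) := by
        rw [hA1]; gcongr
    _ = ∑' j, ((if j = i then 0 else c * f j) + (if j ∈ A then V j else 0)) := by
        rw [← ENNReal.tsum_mul_left, ← ENNReal.tsum_add]
        refine tsum_congr fun j => ?_
        by_cases hj : j = i <;> simp [hj]
    _ ≤ ∑' j, ((if j = i then 0 else V j) + (if j ∈ A then c * f j else 0)) := by
        refine ENNReal.tsum_le_tsum fun j => ?_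
        by_cases hj : j = i
        · subst hj
          simp [hA]
        · by_cases hjA : j ∈ A
          · simp only [hj, hjA, if_false, if_true]
            rw [add_comm]
          · simp only [hj, hjA, if_false, add_zero]
            simp only [hV, hf, hc]
            gcongr
            exact hfar j hj hjA
    _ = (∑' j, (if j = i then 0 else V j)) + ∑' j, (if j ∈ A then c * f j else 0) := ENNReal.tsum_add
    _ ≤ volume (cell p i) + ∑ j ∈ A, c * f j := by
        rw [← hA2]; gcongr

/-- **lower bound for the boundary area of a cell**: if the cell is covered by the cones over the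
facets in a finite set `A` of sites at distance `≤ d`, then `area ≥ (8/d) * volume(cell)`. -/
theorem le_area_frontier {p : ι → E} (h : Vor p) (i : ι) (A : Finset ι) (hA : i ∉ A) (d : ℝ)
    (hnear : ∀ j ∈ A, dist (p i) (p j) ≤ d)
    (hcov : cell p i ⊆ {p i} ∪ ⋃ j ∈ A, cone (p i) (facet p i j)) :
    volume (cell p i) ≤ ENNReal.ofReal (d / 8) * μHE[3] (frontier (cell p i)) := by
  classical
  have hne : ∀ j ∈ A, i ≠ j := fun j hj h0 => hA (h0 ▸ hj)
  calc volume (cell p i) ≤ volume ({p i} ∪ ⋃ j ∈ A, cone (p i) (facet p i j)) := measure_mono hcov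
    _ ≤ volume {p i} + volume (⋃ j ∈ A, cone (p i) (facet p i j)) := measure_union_le _ _
    _ = volume (⋃ j ∈ A, cone (p i) (facet p i j)) := by simp
    _ ≤ ∑ j ∈ A, volume (cone (p i) (facet p i j)) := measure_biUnion_finset_le _ _
    _ ≤ ∑ j ∈ A, ENNReal.ofReal (d / 8) * μHE[3] (facet p i j) := by
        refine Finset.sum_le_sum fun j hj => ?_
        rw [volume_cone_facet p (fun h0 => hne j hj (h.inj h0))]
        gcongr
        exact hnear j hj
    _ = ENNReal.ofReal (d / 8) * μHE[3] (⋃ j ∈ A, facet p i j) := by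
        rw [← Finset.mul_sum, measure_biUnion_finset₀]
        · intro j hj k hk hjk
          simp only [Function.onFun, AEDisjoint]
          have : facet p i j ∩ facet p i k = cell p i ∩ cell p j ∩ cell p k := by
            ext x; simp only [facet, mem_inter_iff]; tauto
          rw [this]
          exact area_triple h (hne j hj) (hne k hk) hjk
        · intro j hj
          exact (isClosed_facet p i j).measurableSet.nullMeasurableSet
    _ ≤ ENNReal.ofReal (d / 8) * μHE[3] (frontier (cell p i)) := by
        gcongr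
        exact iUnion₂_subset fun j hj => facet_subset_frontier h (hne j hj)

end Pool.Agent.Helper74.Foam
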