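import Pool.Agent.Helper74.Foam.Voronoi

/-! Module K1: volumes of cones over facets. -/

set_option autoImplicit false

open MeasureTheory Measure Set Metric
open scoped ENNReal

namespace Pool.Agent.Helper74.Foam

variable {ι : Type*}

/-- cone over a set in a hyperplane, in terms of the height -/
lemma mem_cone_hyperplane {a n : E} {h : ℝ} (hh : 0 < h) {F : Set E}
    (hFn : ∀ z ∈ F, inner ℝ n (z - a) = h) (y : E) :
    y ∈ cone a F ↔ 0 < inner ℝ n (y - a) ∧ inner ℝ n (y - a) ≤ h ∧
      a + (h / inner ℝ n (y - a)) • (y - a) ∈ F := by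
  constructor
  · rintro ⟨t, ⟨ht0, ht1⟩, z, hz, rfl⟩
    have e : a + t • (z - a) - a = t • (z - a) := by abel
    rw [e, inner_smul_right, hFn z hz]
    refine ⟨by positivity, by nlinarith, ?_⟩
    have : (h / (t * h)) • t • (z - a) = z - a := by
      rw [smul_smul]
      have : h / (t * h) * t = 1 := by field_simp
      rw [this, one_smul]
    rw [this]
    simpa using hz
  · rintro ⟨h1, h2, h3⟩
    refine ⟨inner ℝ n (y - a) / h, ⟨by positivity, (div_le_one hh).2 h2⟩, _, h3, ?_⟩
    have e : a + (h / inner ℝ n (y - a)) • (y - a) - a = (h / inner ℝ n (y - a)) • (y - a) := by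
      abel
    rw [e, smul_smul]
    have : inner ℝ n (y - a) / h * (h / inner ℝ n (y - a)) = 1 := by field_simp
    rw [this, one_smul]
    abel

lemma measurableSet_cone {a n : E} {h : ℝ} (hh : 0 < h) {F : Set E} (hF : IsClosed F)
    (hFn : ∀ z ∈ F, inner ℝ n (z - a) = h) : MeasurableSet (cone a F) := by
  have e : cone a F = {y | 0 < inner ℝ n (y - a)} ∩ ({y | inner ℝ n (y - a) ≤ h} ∩
      (fun y => a + (h / inner ℝ n (y - a)) • (y - a)) ⁻¹' F) := by
    ext y
    exact mem_cone_hyperplane hh hFn y
  have hc : Continuous fun y : E => inner ℝ n (y - a) := by fun_prop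
  rw [e]
  refine MeasurableSet.inter ?_ (MeasurableSet.inter ?_ ?_)
  · exact (isOpen_lt continuous_const hc).measurableSet
  · exact (isClosed_le hc continuous_const).measurableSet
  · refine hF.measurableSet.preimage ?_
    have h1 : Measurable fun y : E => h / inner ℝ n (y - a) := measurable_const.div hc.measurable
    have h2 : Measurable fun y : E => y - a := by fun_prop
    exact measurable_const.add (h1.smul h2)

open scoped Pointwise in
/-- Volume of a cone over a closed set in a hyperplane at distance `h` from the apex.  Use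
`EuclideanGeometry.euclideanHausdorffMeasure_eq_lintegral` (slices orthogonal to `n`) and
`euclideanHausdorffMeasure_smul₀`. -/
theorem volume_cone_hyperplane (n : E) (hn : ‖n‖ = 1) (h : ℝ) (hh : 0 < h) (F : Set E)
    (hF : IsClosed F) (hFn : ∀ z ∈ F, inner ℝ n z = h) :
    volume (cone 0 F) = ENNReal.ofReal (h / 4) * μHE[3] F := by
  have hFn' : ∀ z ∈ F, inner ℝ n (z - 0) = h := by simpa using hFn
  have hm := measurableSet_cone hh hF hFn'
  have hn0 : n ≠ 0 := by
    rintro rfl
    simp at hn
  have h4 : Module.finrank ℝ E = 4 := by simp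
  have h1 := EuclideanGeometry.euclideanHausdorffMeasure_eq_lintegral (V := E) (P := E) (0 : E)
    hn0 hm
  rw [InnerProductSpace.euclideanHausdorffMeasure_eq_volume] at h1
  rw [h1, h4]
  have hne : ‖n‖ₑ = 1 := by
    rw [← ofReal_norm, hn, ENNReal.ofReal_one]
  rw [hne, one_mul]
  have hslice : ∀ x : ℝ, μHE[4 - 1] (cone 0 F ∩ (AffineSubspace.mk' (x • n +ᵥ (0 : E))
      (Submodule.span ℝ {n})ᗮ : Set E))
      = (Ioc 0 h).indicator (fun x => ENNReal.ofReal ((x / h) ^ 3) * μHE[3] F) x := by
    intro x
    have hmem : ∀ y : E, y ∈ (AffineSubspace.mk' (x • n +ᵥ (0 : E))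
      (Submodule.span ℝ {n})ᗮ : Set E) ↔ inner ℝ n y = x := by
      intro y
      rw [SetLike.mem_coe, AffineSubspace.mem_mk', Submodule.mem_orthogonal_singleton_iff_inner_right]
      simp only [vadd_eq_add, add_zero, vsub_eq_sub, inner_sub_right, inner_smul_right,
        real_inner_self_eq_norm_sq, hn]
      constructor <;> intro h <;> linarith
    by_cases hx : x ∈ Ioc 0 h
    · rw [indicator_of_mem hx]
      have hx0 : 0 < x := hx.1
      have hset : cone 0 F ∩ (AffineSubspace.mk' (x • n +ᵥ (0 : E))
          (Submodule.span ℝ {n})ᗮ : Set E) = (x / h) • F := by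
        ext y
        rw [mem_inter_iff, hmem, mem_cone_hyperplane hh hFn', mem_smul_set_iff_inv_smul_mem₀
          (by positivity)]
        simp only [sub_zero, zero_add]
        constructor
        · rintro ⟨⟨-, -, h3⟩, h4⟩
          rw [h4] at h3
          simpa using h3
        · intro h3
          have h4 : inner ℝ n y = x := by
            have := hFn _ h3
            rw [inner_smul_right] at this
            field_simp at this
            linarith
          rw [h4]
          refine ⟨⟨hx.1, hx.2, ?_⟩, rfl⟩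
          simpa using h3
      rw [hset]
      change μHE[3] _ = _
      rw [euclideanHausdorffMeasure_smul₀ 3 (by positivity)]
      rw [ENNReal.smul_def, smul_eq_mul]
      congr 1
      rw [ENNReal.coe_pow, ← enorm_eq_nnnorm, Real.enorm_of_nonneg (by positivity),
        ENNReal.ofReal_pow (by positivity)]
    · rw [indicator_of_notMem hx]
      have : cone 0 F ∩ (AffineSubspace.mk' (x • n +ᵥ (0 : E))
          (Submodule.span ℝ {n})ᗮ : Set E) = ∅ := by
        rw [eq_empty_iff_forall_notMem]
        rintro y ⟨hy1, hy2⟩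
        rw [hmem] at hy2
        rw [mem_cone_hyperplane hh hFn', sub_zero, hy2] at hy1
        exact hx ⟨hy1.1, hy1.2.1⟩
      rw [this, measure_empty]
  simp_rw [hslice]
  rw [lintegral_indicator measurableSet_Ioc, lintegral_mul_const _ (by fun_prop)]
  congr 1
  rw [← ofReal_integral_eq_lintegral_ofReal]
  · congr 1
    rw [← intervalIntegral.integral_of_le hh.le]
    simp only [div_pow]
    rw [intervalIntegral.integral_div, integral_pow]
    field_simp
    ring
  · have hc : Continuous fun x : ℝ => (x / h) ^ 3 := by fun_prop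
    exact (hc.intervalIntegrable 0 h).1
  · refine (ae_restrict_iff' measurableSet_Ioc).2 (Filter.Eventually.of_forall fun x hx => ?_)
    have := hx.1
    simp only [Pi.zero_apply]
    positivity

lemma cone_eq_preimage (a : E) (F : Set E) :
    (fun y => y + a) ⁻¹' cone a F = cone 0 ((fun y => y + a) ⁻¹' F) := by
  ext y
  simp only [mem_preimage, cone, mem_ofPred_eq]
  constructor
  · rintro ⟨t, ht, z, hz, e⟩
    refine ⟨t, ht, z - a, by simpa using hz, ?_⟩
    rw [sub_zero, zero_add]
    have : y = y + a - a := by abel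
    rw [this, e]
    abel
  · rintro ⟨t, ht, z, hz, rfl⟩
    refine ⟨t, ht, z + a, hz, ?_⟩
    rw [sub_zero, zero_add, add_sub_cancel_right]
    abel

theorem volume_cone_hyperplane' (a n : E) (hn : ‖n‖ = 1) (h : ℝ) (hh : 0 < h) (F : Set E)
    (hF : IsClosed F) (hFn : ∀ z ∈ F, inner ℝ n (z - a) = h) :
    volume (cone a F) = ENNReal.ofReal (h / 4) * μHE[3] F := by
  rw [← measure_preimage_add_right volume a (cone a F), cone_eq_preimage,
    volume_cone_hyperplane n hn h hh, measure_preimage_add_right]
  · exact hF.preimage (by fun_prop)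
  · intro z hz
    have := hFn _ hz
    rwa [add_sub_cancel_right] at this

/-- the facet lies in a hyperplane -/
lemma inner_facet (p : ι → E) {i j : ι} (hij : p i ≠ p j) {z : E} (hz : z ∈ facet p i j) :
    inner ℝ ((dist (p i) (p j))⁻¹ • (p j - p i)) (z - p i) = dist (p i) (p j) / 2 := by
  have h1 := inner_eq_of_dist_eq _ _ _ (le_antisymm (hz.1 j) (hz.2 i))
  have h2 : dist (p i) (p j) = ‖p j - p i‖ := by rw [dist_comm, dist_eq_norm]
  have h3 : 0 < dist (p i) (p j) := dist_pos.2 hij
  rw [inner_smul_left, h1, ← h2]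
  simp only [conj_trivial]
  field_simp

lemma norm_normal (p : ι → E) {i j : ι} (hij : p i ≠ p j) :
    ‖(dist (p i) (p j))⁻¹ • (p j - p i)‖ = 1 := by
  have h2 : dist (p i) (p j) = ‖p j - p i‖ := by rw [dist_comm, dist_eq_norm]
  have h3 : 0 < dist (p i) (p j) := dist_pos.2 hij
  rw [norm_smul, ← h2, norm_inv, Real.norm_of_nonneg h3.le, inv_mul_cancel₀ h3.ne']

theorem measurableSet_cone_facet (p : ι → E) {i j : ι} (hij : p i ≠ p j) :
    MeasurableSet (cone (p i) (facet p i j)) :=
  measurableSet_cone (half_pos (dist_pos.2 hij)) (isClosed_facet p i j)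
    fun _ hz => inner_facet p hij hz

/-- volume of the cone over a facet with apex the site -/
theorem volume_cone_facet (p : ι → E) {i j : ι} (hij : p i ≠ p j) :
    volume (cone (p i) (facet p i j))
      = ENNReal.ofReal (dist (p i) (p j) / 8) * μHE[3] (facet p i j) := by
  rw [volume_cone_hyperplane' (p i) _ (norm_normal p hij) _ (half_pos (dist_pos.2 hij)) _
    (isClosed_facet p i j) fun _ hz => inner_facet p hij hz]
  congr 2
  ring

/-- cell inequality as an inner product -/
lemma dist_le_dist_iff (a b x : E) :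
    dist x a ≤ dist x b ↔ 2 * inner ℝ (b - a) (x - a) ≤ ‖b - a‖ ^ 2 := by
  rw [dist_eq_norm, dist_eq_norm, ← sq_le_sq₀ (norm_nonneg _) (norm_nonneg _)]
  have e : x - b = (x - a) - (b - a) := by abel
  rw [e, norm_sub_sq_real (x - a) (b - a), real_inner_comm (b - a) (x - a)]
  constructor <;> intro h <;> linarith

lemma mem_cell_iff (p : ι → E) (i : ι) (x : E) :
    x ∈ cell p i ↔ ∀ j, 2 * inner ℝ (p j - p i) (x - p i) ≤ ‖p j - p i‖ ^ 2 :=
  forall_congr' fun _ => dist_le_dist_iff _ _ _

lemma cone_facet_subset (p : ι → E) (i j : ι) : cone (p i) (facet p i j) ⊆ cell p i := by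
  rintro y ⟨t, ⟨ht0, ht1⟩, z, hz, rfl⟩
  rw [mem_cell_iff]
  intro k
  have h1 := (mem_cell_iff p i z).1 hz.1 k
  have e : p i + t • (z - p i) - p i = t • (z - p i) := by abel
  rw [e, inner_smul_right]
  have h2 : 0 ≤ ‖p k - p i‖ ^ 2 := by positivity
  nlinarith

end Pool.Agent.Helper74.Foam
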