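import Mathlib

/-!
MP_bed495_gt : the 24-cell honeycomb is not a least-area partition of `ℝ⁴`.

Common definitions.  `μHE[3]` is the 3-dimensional Euclidean area on `ℝ⁴`
(Mathlib: `Mathlib/Geometry/Euclidean/Volume/Measure.lean`).
-/

set_option autoImplicit false

open MeasureTheory Measure Set Metric
open scoped ENNReal

namespace Pool.Agent.Helper74.Foam

abbrev E := EuclideanSpace ℝ (Fin 4)

/-- Voronoi cell of the site `p i` -/
def cell {ι : Type*} (p : ι → E) (i : ι) : Set E := {x | ∀ j, dist x (p i) ≤ dist x (p j)}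

/-- a locally finite family of sites with covering radius at most `2` -/
structure Vor {ι : Type*} (p : ι → E) : Prop where
  inj : Function.Injective p
  lf : ∀ R : ℝ, {i | dist (p i) 0 ≤ R}.Finite
  cov : ∀ x : E, ∃ i, dist x (p i) ≤ 2

/-- the facet between two cells -/
def facet {ι : Type*} (p : ι → E) (i j : ι) : Set E := cell p i ∩ cell p j

/-- (half-open) cone with apex `a` over a set -/
def cone (a : E) (F : Set E) : Set E := {y | ∃ t ∈ Ioc (0 : ℝ) 1, ∃ z ∈ F, y = a + t • (z - a)}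

/-- point of `E` from its coordinates -/
noncomputable def mk (x : Fin 4 → ℝ) : E := (EuclideanSpace.equiv (Fin 4) ℝ).symm x

/-! ### the old foam -/

/-- index set of the 24-cell honeycomb (the lattice `D4`) -/
abbrev I := {v : Fin 4 → ℤ // Even (∑ i, v i)}

/-- centres of the 24-cell honeycomb with unit volume cells -/
noncomputable def p (v : I) : E :=
  (EuclideanSpace.equiv (Fin 4) ℝ).symm (fun i => (2 : ℝ) ^ (-(1 / 4 : ℝ)) * ((v.1 i : ℤ) : ℝ))

/-! ### the new foam -/

/-- the admissible (doubled) sites of the new foam: exactly one odd coordinate and congruences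
mod 4 between the others -/
def newOK (w : Fin 4 → ℤ) : Prop :=
  (w 0 % 2 = 1 ∧ w 1 % 2 = 0 ∧ w 2 % 4 = (w 1 + 2) % 4 ∧ w 3 % 4 = (w 1 + 2) % 4) ∨
  (w 1 % 2 = 1 ∧ w 2 % 2 = 0 ∧ w 0 % 4 = (w 2 + 2) % 4 ∧ w 3 % 4 = (w 2 + 2) % 4) ∨
  (w 2 % 2 = 1 ∧ w 0 % 2 = 0 ∧ w 1 % 4 = (w 0 + 2) % 4 ∧ w 3 % 4 = (w 0 + 2) % 4) ∨
  (w 3 % 2 = 1 ∧ w 0 % 2 = 0 ∧ w 1 % 4 = w 0 % 4 ∧ w 2 % 4 = w 0 % 4)

instance (w : Fin 4 → ℤ) : Decidable (newOK w) := by unfold newOK; infer_instance

/-- index set of the new foam -/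
abbrev J := {w : Fin 4 → ℤ // newOK w}

/-- sites of the new foam -/
noncomputable def q (w : J) : E := mk (fun i => ((w.1 i : ℤ) : ℝ) / 2)

/-! ### constants -/

/-- lower bound for the area of the boundary of a unit 24-cell (`4 * 2^(3/4) = 6.72717...`) -/
noncomputable def aC : ℝ := 6727 / 1000

/-- upper bound for the area of the boundary of a cell of the new foam (exact `6.71547...`,
we prove `6.71775...`) -/
noncomputable def aW : ℝ := 6719 / 1000

end Pool.Agent.Helper74.Foam
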