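import Pool.Agent.Helper74.Foam.Assembly

/-! The frozen negation S13850 from the assembly. -/

set_option autoImplicit false

open MeasureTheory Measure Set Metric
open scoped ENNReal

namespace Pool.Agent.Helper74.Foam

theorem final :
    ¬ (∀ p : {v : Fin 4 → ℤ // Even (∑ i, v i)} → EuclideanSpace ℝ (Fin 4),
      (∀ v, p v = (EuclideanSpace.equiv (Fin 4) ℝ).symm
          (fun i => (2 : ℝ) ^ (-(1 / 4 : ℝ)) * ((v.1 i : ℤ) : ℝ))) →
    ∀ C : {v : Fin 4 → ℤ // Even (∑ i, v i)} → Set (EuclideanSpace ℝ (Fin 4)),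
      (∀ v, C v = {x | ∀ w, dist x (p v) ≤ dist x (p w)}) →
    ∀ Q : {v : Fin 4 → ℤ // Even (∑ i, v i)} → Set (EuclideanSpace ℝ (Fin 4)),
      (∀ v, MeasurableSet (Q v)) →
      (∀ v, MeasureTheory.volume (Q v) = 1) →
      (∀ v w, v ≠ w → MeasureTheory.volume (Q v ∩ Q w) = 0) →
      MeasureTheory.volume (⋃ v, Q v)ᶜ = 0 →
    ∀ R : ℝ,
      (∀ v, Q v \ closedBall (0 : EuclideanSpace ℝ (Fin 4)) R
          = C v \ closedBall (0 : EuclideanSpace ℝ (Fin 4)) R) →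
      MeasureTheory.Measure.hausdorffMeasure 3
          (closedBall (0 : EuclideanSpace ℝ (Fin 4)) (R + 1) ∩ ⋃ v, frontier (C v))
        ≤ MeasureTheory.Measure.hausdorffMeasure 3
          (closedBall (0 : EuclideanSpace ℝ (Fin 4)) (R + 1) ∩ ⋃ v, frontier (Q v))) := by
  intro H
  obtain ⟨Q, R, Qm, Q1, Qd, Qc, Qo, hlt⟩ := better_foam
  have h := H p (fun v => rfl) (cell p) (fun v => rfl) Q Qm Q1 Qd Qc R Qo
  refine absurd ?_ (not_le.2 hlt)
  rw [euclideanHausdorffMeasure_def]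
  simp only [Measure.smul_apply, Nat.cast_ofNat]
  gcongr

end Pool.Agent.Helper74.Foam
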