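import Pool.Agent.Helper74.Foam.Voronoi

/-! Module P: volume of the cells of a periodic family. -/

set_option autoImplicit false

open MeasureTheory Measure Set Metric
open scoped ENNReal

namespace Pool.Agent.Helper74.Foam

variable {ι : Type*}

namespace PMod

/-- translation vectors of the cubic lattice -/
noncomputable def T (l : ℝ) (k : Fin 4 → ℤ) : E := mk (fun i => l * (k i : ℝ))

lemma T_apply (l : ℝ) (k : Fin 4 → ℤ) (i : Fin 4) : T l k i = l * (k i : ℝ) := rfl

lemma T_sub (l : ℝ) (k k' : Fin 4 → ℤ) : T l (k - k') = T l k - T l k' := by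
  ext i
  simp only [T_apply, PiLp.sub_apply, Pi.sub_apply, Int.cast_sub]
  ring

/-- the cube `[0,l)^4` -/
def Q (l : ℝ) : Set E := {x | ∀ i, x i ∈ Ico (0 : ℝ) l}

lemma Q_eq (l : ℝ) :
    Q l = (WithLp.ofLp : E → Fin 4 → ℝ) ⁻¹' (Set.pi univ fun _ => Ico (0 : ℝ) l) := by
  ext x; simp [Q]

lemma measurableSet_Q (l : ℝ) : MeasurableSet (Q l) := by
  rw [Q_eq]
  exact (PiLp.volume_preserving_ofLp (Fin 4)).measurable
    (MeasurableSet.univ_pi fun _ => measurableSet_Ico)

lemma volume_Q (l : ℝ) (hl : 0 < l) : volume (Q l) = ENNReal.ofReal (l ^ 4) := by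
  have hm : MeasurableSet (Set.pi (univ : Set (Fin 4)) fun _ => Ico (0 : ℝ) l) :=
    MeasurableSet.univ_pi fun _ => measurableSet_Ico
  rw [Q_eq, (PiLp.volume_preserving_ofLp (Fin 4)).measure_preimage hm.nullMeasurableSet,
    Real.volume_pi_Ico]
  simp only [sub_zero, Finset.prod_const, Finset.card_univ, Fintype.card_fin]
  rw [ENNReal.ofReal_pow hl.le]

/-- translated cubes -/
def Qk (l : ℝ) (k : Fin 4 → ℤ) : Set E := (fun x => x + T l k) ⁻¹' Q l

lemma measurableSet_Qk (l : ℝ) (k : Fin 4 → ℤ) : MeasurableSet (Qk l k) :=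
  (measurable_add_const _) (measurableSet_Q l)

lemma iUnion_Qk (l : ℝ) (hl : 0 < l) : (⋃ k, Qk l k) = univ := by
  refine eq_univ_of_forall fun x => ?_
  rw [mem_iUnion]
  refine ⟨fun i => - ⌊x i / l⌋, fun i => ?_⟩
  simp only [PiLp.add_apply, T_apply, Int.cast_neg]
  have h1 := Int.floor_le (x i / l)
  have h2 := Int.lt_floor_add_one (x i / l)
  rw [le_div_iff₀ hl] at h1
  rw [div_lt_iff₀ hl] at h2
  constructor <;> nlinarith

lemma disjoint_Qk (l : ℝ) (hl : 0 < l) : Pairwise (Function.onFun Disjoint (Qk l)) := by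
  intro k k' hkk'
  rw [Function.onFun, Set.disjoint_left]
  intro x hx hx'
  apply hkk'
  funext i
  have h1 := hx i
  have h2 := hx' i
  simp only [PiLp.add_apply, T_apply, mem_Ico] at h1 h2
  have h3 : (k i : ℝ) < k' i + 1 := by
    by_contra h
    push Not at h
    nlinarith
  have h4 : (k' i : ℝ) < k i + 1 := by
    by_contra h
    push Not at h
    nlinarith
  have h5 : k i < k' i + 1 := by exact_mod_cast h3
  have h6 : k' i < k i + 1 := by exact_mod_cast h4
  omega

lemma tsum_Qk_inter (l : ℝ) (hl : 0 < l) (S : Set E) (hS : MeasurableSet S) :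
    ∑' k, volume (Qk l k ∩ S) = volume S := by
  rw [← measure_iUnion]
  · rw [← iUnion_inter, iUnion_Qk l hl, univ_inter]
  · intro k k' hkk'
    exact (disjoint_Qk l hl hkk').mono inter_subset_left inter_subset_left
  · intro k
    exact (measurableSet_Qk l k).inter hS

end PMod

open PMod

/-- If the family of sites is invariant under the cubic lattice `l ℤ⁴` with exactly `K` classes
(`e : Fin K × (Fin 4 → ℤ) ≃ ι`), and all cells have the same volume `ν`, then `K ν = l⁴`. -/
theorem volume_periodic {p : ι → E} (h : Vor p) (l : ℝ) (hl : 0 < l) (K : ℕ)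
    (e : Fin K × (Fin 4 → ℤ) ≃ ι)
    (he : ∀ r k, p (e (r, k)) = p (e (r, 0)) + mk (fun i => l * (k i : ℝ)))
    (ν : ℝ≥0∞) (hν : ∀ i, volume (cell p i) = ν) :
    (K : ℝ≥0∞) * ν = ENNReal.ofReal (l ^ 4) := by
  have : Countable ι := h.countable
  have he' : ∀ r k, p (e (r, k)) = p (e (r, 0)) + T l k := he
  -- cells are translates
  have hcell : ∀ r k (x : E), x + T l k ∈ cell p (e (r, k)) ↔ x ∈ cell p (e (r, 0)) := by
    intro r k x
    simp only [cell, mem_ofPred_eq]
    have key : ∀ r' k', dist (x + T l k) (p (e (r', k'))) = dist x (p (e (r', k' - k))) := by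
      intro r' k'
      rw [he' r' k', he' r' (k' - k), T_sub, dist_eq_norm, dist_eq_norm]
      congr 1
      abel
    constructor
    · intro hx j
      obtain ⟨⟨r', k'⟩, rfl⟩ := e.surjective j
      have := hx (e (r', k' + k))
      rw [key, key] at this
      simpa using this
    · intro hx j
      obtain ⟨⟨r', k'⟩, rfl⟩ := e.surjective j
      rw [key, key, sub_self]
      exact hx _
  calc (K : ℝ≥0∞) * ν = ∑ _r : Fin K, ν := by simp
    _ = ∑ r : Fin K, ∑' k, volume (Qk l k ∩ cell p (e (r, 0))) := by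
        refine Finset.sum_congr rfl fun r _ => ?_
        rw [tsum_Qk_inter l hl _ (measurableSet_cell p _), hν]
    _ = ∑ r : Fin K, ∑' k, volume (Q l ∩ cell p (e (r, k))) := by
        refine Finset.sum_congr rfl fun r _ => tsum_congr fun k => ?_
        have : Qk l k ∩ cell p (e (r, 0))
            = (fun x => x + T l k) ⁻¹' (Q l ∩ cell p (e (r, k))) := by
          ext x
          simp only [mem_inter_iff, mem_preimage, Qk, hcell]
        rw [this, measure_preimage_add_right]
    _ = ∑' rk : Fin K × (Fin 4 → ℤ), volume (Q l ∩ cell p (e rk)) := by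
        rw [ENNReal.tsum_prod', tsum_fintype]
    _ = ∑' i, volume (Q l ∩ cell p i) := e.tsum_eq (fun i => volume (Q l ∩ cell p i))
    _ = volume (⋃ i, Q l ∩ cell p i) := by
        rw [measure_iUnion₀]
        · intro i j hij
          simp only [Function.onFun, AEDisjoint]
          refine measure_mono_null ?_ (volume_facet h hij)
          intro x hx
          exact ⟨hx.1.2, hx.2.2⟩
        · intro i
          exact ((measurableSet_Q l).inter (measurableSet_cell p i)).nullMeasurableSet
    _ = volume (Q l) := by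
        congr 1
        rw [← inter_iUnion]
        refine inter_eq_left.2 fun x _ => ?_
        rw [mem_iUnion]
        exact exists_cell h x
    _ = ENNReal.ofReal (l ^ 4) := volume_Q l hl

/-- an isometry permuting the sites maps cells to cells -/
theorem cell_image {p : ι → E} (g : E ≃ᵢ E) (s : ι ≃ ι) (hg : ∀ i, g (p i) = p (s i)) (i : ι) :
    cell p (s i) = g '' cell p i := by
  ext x
  constructor
  · intro hx
    refine ⟨g.symm x, fun j => ?_, g.apply_symm_apply x⟩
    rw [← g.dist_eq, ← g.dist_eq (g.symm x) (p j), g.apply_symm_apply, hg, hg]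
    exact hx _
  · rintro ⟨y, hy, rfl⟩ j
    obtain ⟨j, rfl⟩ := s.surjective j
    rw [← hg, ← hg, g.dist_eq, g.dist_eq]
    exact hy j

theorem volume_cell_image {p : ι → E} (g : E ≃ᵢ E) (s : ι ≃ ι) (hg : ∀ i, g (p i) = p (s i))
    (i : ι) : volume (cell p (s i)) = volume (cell p i) := by
  rw [cell_image g s hg i, ← EuclideanSpace.euclideanHausdorffMeasure_eq_volume,
    g.isometry.euclideanHausdorffMeasure_image]

theorem area_cell_image {p : ι → E} (g : E ≃ᵢ E) (s : ι ≃ ι) (hg : ∀ i, g (p i) = p (s i))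
    (i : ι) : μHE[3] (frontier (cell p (s i))) = μHE[3] (frontier (cell p i)) := by
  rw [cell_image g s hg i]
  have : frontier (g '' cell p i) = g '' frontier (cell p i) :=
    (g.toHomeomorph.image_frontier (cell p i)).symm
  rw [this, g.isometry.euclideanHausdorffMeasure_image]

end Pool.Agent.Helper74.Foam
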