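import Pool.Agent.Helper74.Foam.Cone
import Pool.Agent.Helper74.Foam.Period

/-! Module N: the new foam (sites, distances, symmetries, volumes). -/

set_option autoImplicit false

open MeasureTheory Measure Set Metric
open scoped ENNReal

namespace Pool.Agent.Helper74.Foam

lemma mk_apply (x : Fin 4 → ℝ) (i : Fin 4) : mk x i = x i := rfl

lemma q_apply (w : J) (i : Fin 4) : q w i = ((w.1 i : ℤ) : ℝ) / 2 := rfl

lemma dist_sq (x y : E) : dist x y ^ 2 = ∑ i, (x i - y i) ^ 2 := by
  rw [EuclideanSpace.dist_eq, Real.sq_sqrt (Finset.sum_nonneg fun i _ => sq_nonneg _)]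
  refine Finset.sum_congr rfl fun i _ => ?_
  rw [Real.dist_eq, sq_abs]

lemma abs_sub_le_dist (x y : E) (i : Fin 4) : |x i - y i| ≤ dist x y := by
  rw [← Real.sqrt_sq (dist_nonneg (x := x) (y := y)), ← Real.sqrt_sq_eq_abs]
  refine Real.sqrt_le_sqrt ?_
  rw [dist_sq]
  exact Finset.single_le_sum (f := fun i => (x i - y i) ^ 2) (fun i _ => sq_nonneg _)
    (Finset.mem_univ i)

lemma q_inj : Function.Injective q := by
  intro w w' h
  apply Subtype.ext
  funext i
  have h1 : q w i = q w' i := by rw [h]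
  rw [q_apply, q_apply] at h1
  have h2 : ((w.1 i : ℤ) : ℝ) = ((w'.1 i : ℤ) : ℝ) := by linarith
  exact_mod_cast h2

theorem vor_q : Vor q := by
  refine ⟨q_inj, fun R => ?_, fun x => ?_⟩
  · -- local finiteness
    have hfin : (Set.pi Set.univ (fun _ : Fin 4 => Set.Icc (-⌈2 * R⌉) ⌈2 * R⌉)).Finite :=
      Set.Finite.pi fun _ => Set.finite_Icc _ _
    refine (hfin.preimage (Subtype.val_injective.injOn (s := (Set.univ : Set J)) |>.mono
      (Set.subset_univ _))).subset ?_
    intro w hw i _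
    have h1 := abs_sub_le_dist (q w) 0 i
    have h2 : dist (q w) 0 ≤ R := hw
    have h3 : (0 : E) i = 0 := rfl
    rw [h3, sub_zero, q_apply, abs_le] at h1
    have h4 : (2 * R) ≤ ((⌈2 * R⌉ : ℤ) : ℝ) := Int.le_ceil _
    constructor
    · have : -((⌈2 * R⌉ : ℤ) : ℝ) ≤ ((w.1 i : ℤ) : ℝ) := by linarith
      exact_mod_cast this
    · have : ((w.1 i : ℤ) : ℝ) ≤ ((⌈2 * R⌉ : ℤ) : ℝ) := by linarith
      exact_mod_cast this
  · -- covering
    set a : Fin 4 → ℤ := ![1, 2, 0, 0] with ha
    set k : Fin 4 → ℤ := fun i => round ((x i - (a i : ℝ) / 2) / 2) with hk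
    have hok : newOK (fun i => a i + 4 * k i) := by
      left
      simp only [ha, Matrix.cons_val]
      omega
    refine ⟨⟨_, hok⟩, ?_⟩
    have hc : ∀ i, (x i - q ⟨_, hok⟩ i) ^ 2 ≤ 1 := by
      intro i
      rw [q_apply]
      have h1 := abs_sub_round ((x i - (a i : ℝ) / 2) / 2)
      rw [abs_le] at h1
      push_cast
      have h2 : (k i : ℝ) = (round ((x i - (a i : ℝ) / 2) / 2) : ℝ) := rfl
      rw [← h2] at h1
      have h3 : x i - ((a i : ℝ) + 4 * (k i : ℝ)) / 2
          = 2 * ((x i - (a i : ℝ) / 2) / 2 - k i) := by ring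
      rw [h3]
      nlinarith [h1.1, h1.2]
    have h4 : dist x (q ⟨_, hok⟩) ^ 2 ≤ 2 ^ 2 := by
      rw [dist_sq]
      calc ∑ i, (x i - q ⟨_, hok⟩ i) ^ 2 ≤ ∑ _i : Fin 4, (1 : ℝ) :=
            Finset.sum_le_sum fun i _ => hc i
        _ = 2 ^ 2 := by norm_num
    exact abs_le_of_sq_le_sq' h4 (by norm_num) |>.2

/-- base site `(1/2,1,0,0)` -/
def w0 : J := ⟨![1, 2, 0, 0], by decide⟩
/-- its two nearest neighbours -/
def wP : J := ⟨![3, 2, 0, 0], by decide⟩
def wM : J := ⟨![-1, 2, 0, 0], by decide⟩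

lemma sq_even {d : ℤ} (h : d % 2 = 0) (h0 : d ≠ 0) : 4 ≤ d * d := by
  rcases lt_or_gt_of_ne h0 with h1 | h1
  · have : d ≤ -2 := by omega
    nlinarith
  · have : 2 ≤ d := by omega
    nlinarith

lemma sq_odd {d : ℤ} (h : d % 2 = 1) : 1 ≤ d * d := by
  have h0 : d ≠ 0 := by omega
  rcases lt_or_gt_of_ne h0 with h1 | h1
  · have : d ≤ -1 := by omega
    nlinarith
  · have : 1 ≤ d := by omega
    nlinarith

lemma sq_big {d : ℤ} (h : 3 ≤ d ∨ d ≤ -3) : 9 ≤ d * d := by
  rcases h with h | h <;> nlinarith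

/-- integer form of the distance estimate -/
lemma far_int (a b c d : ℤ) (hok : newOK ![a, b, c, d])
    (h : ¬ (b = 2 ∧ c = 0 ∧ d = 0 ∧ (a = 1 ∨ a = 3 ∨ a = -1))) :
    6 ≤ (a - 1) * (a - 1) + (b - 2) * (b - 2) + c * c + d * d := by
  have pa : 0 ≤ (a - 1) * (a - 1) := mul_self_nonneg _
  have pb : 0 ≤ (b - 2) * (b - 2) := mul_self_nonneg _
  have pc : 0 ≤ c * c := mul_self_nonneg _
  have pd : 0 ≤ d * d := mul_self_nonneg _
  by_contra hlt
  push Not at hlt
  have ba : ¬ (3 ≤ a - 1 ∨ a - 1 ≤ -3) := fun hc => by have := sq_big hc; omega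
  have bb : ¬ (3 ≤ b - 2 ∨ b - 2 ≤ -3) := fun hc => by have := sq_big hc; omega
  have bc : ¬ (3 ≤ c ∨ c ≤ -3) := fun hc => by have := sq_big hc; omega
  have bd : ¬ (3 ≤ d ∨ d ≤ -3) := fun hc => by have := sq_big hc; omega
  simp only [newOK, Matrix.cons_val] at hok
  rcases hok with hk | hk | hk | hk
  · -- all differences are even
    have ea : (a - 1) % 2 = 0 := by omega
    have eb : (b - 2) % 2 = 0 := by omega
    have ec : c % 2 = 0 := by omega
    have ed : d % 2 = 0 := by omega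
    by_cases hb : b - 2 = 0
    · have hc0 : c = 0 := by omega
      have hd0 : d = 0 := by omega
      apply h
      refine ⟨by omega, hc0, hd0, by omega⟩
    · have h1 := sq_even eb hb
      have hc0 : c ≠ 0 := by omega
      have h2 := sq_even ec hc0
      omega
  · have oa : (a - 1) % 2 = 1 := by omega
    have ob : (b - 2) % 2 = 1 := by omega
    have h1 := sq_odd oa
    have h2 := sq_odd ob
    by_cases hc : c = 0
    · have h3 := sq_even (d := d) (by omega) (by omega)
      omega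
    · have h3 := sq_even (d := c) (by omega) hc
      omega
  · have oa : (a - 1) % 2 = 1 := by omega
    have oc : c % 2 = 1 := by omega
    have h1 := sq_odd oa
    have h2 := sq_odd oc
    by_cases hd : d = 0
    · have h3 := sq_even (d := b - 2) (by omega) (by omega)
      omega
    · have h3 := sq_even (d := d) (by omega) hd
      omega
  · have oa : (a - 1) % 2 = 1 := by omega
    have od : d % 2 = 1 := by omega
    have h1 := sq_odd oa
    have h2 := sq_odd od
    by_cases hc : c = 0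
    · have h3 := sq_even (d := b - 2) (by omega) (by omega)
      omega
    · have h3 := sq_even (d := c) (by omega) hc
      omega

/-- all other sites are at distance at least `sqrt (3/2)` from the base site -/
theorem dist_q_far (w : J) (h0 : w ≠ w0) (hP : w ≠ wP) (hM : w ≠ wM) :
    Real.sqrt (3 / 2) ≤ dist (q w0) (q w) := by
  have hw : w.1 = ![w.1 0, w.1 1, w.1 2, w.1 3] := by
    funext i; fin_cases i <;> rfl
  have hok : newOK ![w.1 0, w.1 1, w.1 2, w.1 3] := hw ▸ w.2
  have hne : ¬ (w.1 1 = 2 ∧ w.1 2 = 0 ∧ w.1 3 = 0 ∧ (w.1 0 = 1 ∨ w.1 0 = 3 ∨ w.1 0 = -1)) := by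
    rintro ⟨h1, h2, h3, h4 | h4 | h4⟩
    · exact h0 (Subtype.ext (by rw [hw, h1, h2, h3, h4]; rfl))
    · exact hP (Subtype.ext (by rw [hw, h1, h2, h3, h4]; rfl))
    · exact hM (Subtype.ext (by rw [hw, h1, h2, h3, h4]; rfl))
  have hint := far_int _ _ _ _ hok hne
  have hsq : (3 / 2 : ℝ) ≤ dist (q w0) (q w) ^ 2 := by
    rw [dist_sq, Fin.sum_univ_four]
    simp only [q_apply]
    have e0 : (w0.1 0 : ℤ) = 1 := rfl
    have e1 : (w0.1 1 : ℤ) = 2 := rfl
    have e2 : (w0.1 2 : ℤ) = 0 := rfl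
    have e3 : (w0.1 3 : ℤ) = 0 := rfl
    rw [e0, e1, e2, e3]
    have hr : (6 : ℝ) ≤ ((w.1 0 : ℝ) - 1) * ((w.1 0 : ℝ) - 1) + ((w.1 1 : ℝ) - 2) * ((w.1 1 : ℝ) - 2)
        + (w.1 2 : ℝ) * (w.1 2 : ℝ) + (w.1 3 : ℝ) * (w.1 3 : ℝ) := by exact_mod_cast hint
    push_cast
    nlinarith
  calc Real.sqrt (3 / 2) ≤ Real.sqrt (dist (q w0) (q w) ^ 2) := Real.sqrt_le_sqrt hsq
    _ = dist (q w0) (q w) := Real.sqrt_sq dist_nonneg


/-! ### symmetries -/

/-- the integral affine map `w ↦ ε w ∘ σ + t` -/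
def affEquiv (σ : Equiv.Perm (Fin 4)) (ε : ℤ) (hε : ε * ε = 1) (t : Fin 4 → ℤ) :
    (Fin 4 → ℤ) ≃ (Fin 4 → ℤ) where
  toFun w i := ε * w (σ i) + t i
  invFun u j := ε * (u (σ.symm j) - t (σ.symm j))
  left_inv w := by
    funext j
    simp only [Equiv.apply_symm_apply]
    calc ε * (ε * w j + t (σ.symm j) - t (σ.symm j)) = (ε * ε) * w j := by ring
      _ = w j := by rw [hε, one_mul]
  right_inv u := by
    funext i
    simp only [Equiv.symm_apply_apply]
    calc ε * (ε * (u i - t i)) + t i = (ε * ε) * (u i - t i) + t i := by ring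
      _ = u i := by rw [hε, one_mul, sub_add_cancel]

/-- the corresponding isometry of `E` -/
noncomputable def affIso (σ : Equiv.Perm (Fin 4)) (ε : ℤ) (hε : ε * ε = 1) (t : Fin 4 → ℤ) :
    E ≃ᵢ E where
  toFun x := mk (fun i => (ε : ℝ) * x (σ i) + (t i : ℝ) / 2)
  invFun y := mk (fun j => (ε : ℝ) * (y (σ.symm j) - (t (σ.symm j) : ℝ) / 2))
  left_inv x := by
    have h : (ε : ℝ) * ε = 1 := by exact_mod_cast hε
    ext j
    simp only [mk_apply, Equiv.apply_symm_apply]
    calc (ε : ℝ) * (ε * x j + (t (σ.symm j) : ℝ) / 2 - (t (σ.symm j) : ℝ) / 2)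
        = ((ε : ℝ) * ε) * x j := by ring
      _ = x j := by rw [h, one_mul]
  right_inv y := by
    have h : (ε : ℝ) * ε = 1 := by exact_mod_cast hε
    ext i
    simp only [mk_apply, Equiv.symm_apply_apply]
    calc (ε : ℝ) * (ε * (y i - (t i : ℝ) / 2)) + (t i : ℝ) / 2
        = ((ε : ℝ) * ε) * (y i - (t i : ℝ) / 2) + (t i : ℝ) / 2 := by ring
      _ = y i := by rw [h, one_mul, sub_add_cancel]
  isometry_toFun := by
    have h : (ε : ℝ) * ε = 1 := by exact_mod_cast hε
    refine Isometry.of_dist_eq fun x y => ?_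
    rw [← Real.sqrt_sq (dist_nonneg (x := x) (y := y)), ← Real.sqrt_sq (dist_nonneg), dist_sq,
      dist_sq]
    congr 1
    rw [← Equiv.sum_comp σ (fun i => (x i - y i) ^ 2)]
    refine Finset.sum_congr rfl fun i _ => ?_
    simp only [mk_apply]
    calc ((ε : ℝ) * x (σ i) + (t i : ℝ) / 2 - ((ε : ℝ) * y (σ i) + (t i : ℝ) / 2)) ^ 2
        = ((ε : ℝ) * ε) * (x (σ i) - y (σ i)) ^ 2 := by ring
      _ = (x (σ i) - y (σ i)) ^ 2 := by rw [h, one_mul]

/-- two sites are equivalent under the symmetry group -/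
def Sym (w w' : J) : Prop :=
  ∃ (g : E ≃ᵢ E) (s : J ≃ J), (∀ i, g (q i) = q (s i)) ∧ s w = w'

lemma Sym.symm {w w' : J} (h : Sym w w') : Sym w' w := by
  obtain ⟨g, s, h1, h2⟩ := h
  refine ⟨g.symm, s.symm, fun i => ?_, by rw [← h2, Equiv.symm_apply_apply]⟩
  rw [IsometryEquiv.symm_apply_eq, h1, Equiv.apply_symm_apply]

lemma Sym.trans {w w' w'' : J} (h : Sym w w') (h' : Sym w' w'') : Sym w w'' := by
  obtain ⟨g, s, h1, h2⟩ := h
  obtain ⟨g', s', h1', h2'⟩ := h'
  refine ⟨g.trans g', s.trans s', fun i => ?_, ?_⟩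
  · rw [IsometryEquiv.trans_apply, h1, h1', Equiv.trans_apply]
  · rw [Equiv.trans_apply, h2, h2']

lemma sym_aff (σ : Equiv.Perm (Fin 4)) (ε : ℤ) (hε : ε * ε = 1) (t : Fin 4 → ℤ)
    (h : ∀ w, newOK w ↔ newOK (fun i => ε * w (σ i) + t i)) (w : J) :
    Sym w ⟨fun i => ε * w.1 (σ i) + t i, (h w.1).1 w.2⟩ := by
  refine ⟨affIso σ ε hε t, (affEquiv σ ε hε t).subtypeEquiv h, fun i => ?_, ?_⟩
  · ext j
    change (ε : ℝ) * (((i.1 (σ j) : ℤ) : ℝ) / 2) + (t j : ℝ) / 2
      = ((ε * i.1 (σ j) + t j : ℤ) : ℝ) / 2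
    push_cast
    ring
  · rfl

/-- cyclic permutation of the first three coordinates -/
def sc : Equiv.Perm (Fin 4) where
  toFun := ![2, 0, 1, 3]
  invFun := ![1, 2, 0, 3]
  left_inv := by decide
  right_inv := by decide

/-- reversal of the coordinates -/
def sr : Equiv.Perm (Fin 4) where
  toFun := ![3, 2, 1, 0]
  invFun := ![3, 2, 1, 0]
  left_inv := by decide
  right_inv := by decide

lemma sc_ok (w : Fin 4 → ℤ) : newOK w ↔ newOK (fun i => 1 * w (sc i) + 0) := by
  simp only [newOK, sc, Equiv.coe_fn_mk, Matrix.cons_val]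
  constructor
  · intro h
    rcases h with h | h | h | h
    all_goals first
      | exact Or.inl ⟨by omega, by omega, by omega, by omega⟩
      | exact Or.inr (Or.inl ⟨by omega, by omega, by omega, by omega⟩)
      | exact Or.inr (Or.inr (Or.inl ⟨by omega, by omega, by omega, by omega⟩))
      | exact Or.inr (Or.inr (Or.inr ⟨by omega, by omega, by omega, by omega⟩))
  · intro h
    rcases h with h | h | h | h
    all_goals first
      | exact Or.inl ⟨by omega, by omega, by omega, by omega⟩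
      | exact Or.inr (Or.inl ⟨by omega, by omega, by omega, by omega⟩)
      | exact Or.inr (Or.inr (Or.inl ⟨by omega, by omega, by omega, by omega⟩))
      | exact Or.inr (Or.inr (Or.inr ⟨by omega, by omega, by omega, by omega⟩))

lemma sr_ok (w : Fin 4 → ℤ) :
    newOK w ↔ newOK (fun i => 1 * w (sr i) + (![2, 2, 0, 0] : Fin 4 → ℤ) i) := by
  simp only [newOK, sr, Equiv.coe_fn_mk, Matrix.cons_val]
  constructor
  · intro h
    rcases h with h | h | h | h
    all_goals first
      | exact Or.inl ⟨by omega, by omega, by omega, by omega⟩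
      | exact Or.inr (Or.inl ⟨by omega, by omega, by omega, by omega⟩)
      | exact Or.inr (Or.inr (Or.inl ⟨by omega, by omega, by omega, by omega⟩))
      | exact Or.inr (Or.inr (Or.inr ⟨by omega, by omega, by omega, by omega⟩))
  · intro h
    rcases h with h | h | h | h
    all_goals first
      | exact Or.inl ⟨by omega, by omega, by omega, by omega⟩
      | exact Or.inr (Or.inl ⟨by omega, by omega, by omega, by omega⟩)
      | exact Or.inr (Or.inr (Or.inl ⟨by omega, by omega, by omega, by omega⟩))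
      | exact Or.inr (Or.inr (Or.inr ⟨by omega, by omega, by omega, by omega⟩))

lemma two_ok (w : Fin 4 → ℤ) :
    newOK w ↔ newOK (fun i => 1 * w ((1 : Equiv.Perm (Fin 4)) i) + 2) := by
  simp only [newOK, Equiv.Perm.coe_one, id_eq]
  constructor
  · intro h
    rcases h with h | h | h | h
    all_goals first
      | exact Or.inl ⟨by omega, by omega, by omega, by omega⟩
      | exact Or.inr (Or.inl ⟨by omega, by omega, by omega, by omega⟩)
      | exact Or.inr (Or.inr (Or.inl ⟨by omega, by omega, by omega, by omega⟩))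
      | exact Or.inr (Or.inr (Or.inr ⟨by omega, by omega, by omega, by omega⟩))
  · intro h
    rcases h with h | h | h | h
    all_goals first
      | exact Or.inl ⟨by omega, by omega, by omega, by omega⟩
      | exact Or.inr (Or.inl ⟨by omega, by omega, by omega, by omega⟩)
      | exact Or.inr (Or.inr (Or.inl ⟨by omega, by omega, by omega, by omega⟩))
      | exact Or.inr (Or.inr (Or.inr ⟨by omega, by omega, by omega, by omega⟩))

lemma neg_ok (w : Fin 4 → ℤ) :
    newOK w ↔ newOK (fun i => -1 * w ((1 : Equiv.Perm (Fin 4)) i) + 0) := by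
  simp only [newOK, Equiv.Perm.coe_one, id_eq]
  constructor
  · intro h
    rcases h with h | h | h | h
    all_goals first
      | exact Or.inl ⟨by omega, by omega, by omega, by omega⟩
      | exact Or.inr (Or.inl ⟨by omega, by omega, by omega, by omega⟩)
      | exact Or.inr (Or.inr (Or.inl ⟨by omega, by omega, by omega, by omega⟩))
      | exact Or.inr (Or.inr (Or.inr ⟨by omega, by omega, by omega, by omega⟩))
  · intro h
    rcases h with h | h | h | h
    all_goals first
      | exact Or.inl ⟨by omega, by omega, by omega, by omega⟩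
      | exact Or.inr (Or.inl ⟨by omega, by omega, by omega, by omega⟩)
      | exact Or.inr (Or.inr (Or.inl ⟨by omega, by omega, by omega, by omega⟩))
      | exact Or.inr (Or.inr (Or.inr ⟨by omega, by omega, by omega, by omega⟩))

lemma four_ok (t : Fin 4 → ℤ) (h0 : t 0 % 4 = 0) (h1 : t 1 % 4 = 0) (h2 : t 2 % 4 = 0)
    (h3 : t 3 % 4 = 0) (w : Fin 4 → ℤ) :
    newOK w ↔ newOK (fun i => 1 * w ((1 : Equiv.Perm (Fin 4)) i) + t i) := by
  simp only [newOK, Equiv.Perm.coe_one, id_eq]
  constructor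
  · intro h
    rcases h with h | h | h | h
    all_goals first
      | exact Or.inl ⟨by omega, by omega, by omega, by omega⟩
      | exact Or.inr (Or.inl ⟨by omega, by omega, by omega, by omega⟩)
      | exact Or.inr (Or.inr (Or.inl ⟨by omega, by omega, by omega, by omega⟩))
      | exact Or.inr (Or.inr (Or.inr ⟨by omega, by omega, by omega, by omega⟩))
  · intro h
    rcases h with h | h | h | h
    all_goals first
      | exact Or.inl ⟨by omega, by omega, by omega, by omega⟩
      | exact Or.inr (Or.inl ⟨by omega, by omega, by omega, by omega⟩)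
      | exact Or.inr (Or.inr (Or.inl ⟨by omega, by omega, by omega, by omega⟩))
      | exact Or.inr (Or.inr (Or.inr ⟨by omega, by omega, by omega, by omega⟩))

lemma sym_cyc (w : J) : ∃ w' : J, Sym w w' ∧ w'.1 0 = w.1 2 ∧ w'.1 2 = w.1 1 := by
  refine ⟨_, sym_aff sc 1 (by norm_num) (fun _ => 0) sc_ok w, ?_, ?_⟩
  · simp [sc]
  · simp [sc]

lemma sym_rev (w : J) : ∃ w' : J, Sym w w' ∧ w'.1 0 = w.1 3 + 2 := by
  refine ⟨_, sym_aff sr 1 (by norm_num) ![2, 2, 0, 0] sr_ok w, ?_⟩
  simp [sr]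

lemma sym_two (w : J) : ∃ w' : J, Sym w w' ∧ w'.1 0 = w.1 0 + 2 ∧ w'.1 1 = w.1 1 + 2 := by
  refine ⟨_, sym_aff 1 1 (by norm_num) (fun _ => 2) two_ok w, ?_, ?_⟩
  · simp
  · simp

lemma sym_neg (w : J) : ∃ w' : J, Sym w w' ∧ w'.1 0 = - w.1 0 ∧ w'.1 1 = - w.1 1 := by
  refine ⟨_, sym_aff 1 (-1) (by norm_num) (fun _ => 0) neg_ok w, ?_, ?_⟩
  · simp
  · simp

lemma sym_trans4 (w w' : J) (h : ∀ i, (w'.1 i - w.1 i) % 4 = 0) : Sym w w' := by
  have h' := sym_aff 1 1 (by norm_num) (fun i => w'.1 i - w.1 i)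
    (four_ok _ (h 0) (h 1) (h 2) (h 3)) w
  have e : (⟨fun i => 1 * w.1 ((1 : Equiv.Perm (Fin 4)) i) + (w'.1 i - w.1 i),
      (four_ok _ (h 0) (h 1) (h 2) (h 3) w.1).1 w.2⟩ : J) = w' := by
    apply Subtype.ext
    funext i
    simp
  rwa [e] at h'

lemma sym_w0_one (w : J) (h0 : w.1 0 % 4 = 1) (h1 : w.1 1 % 4 = 2) : Sym w w0 := by
  refine sym_trans4 w w0 fun i => ?_
  have := w.2
  simp only [newOK] at this
  have e0 : (w0.1 0 : ℤ) = 1 := rfl
  have e1 : (w0.1 1 : ℤ) = 2 := rfl
  have e2 : (w0.1 2 : ℤ) = 0 := rfl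
  have e3 : (w0.1 3 : ℤ) = 0 := rfl
  fin_cases i
  · change (w0.1 0 - w.1 0) % 4 = 0
    omega
  · change (w0.1 1 - w.1 1) % 4 = 0
    omega
  · change (w0.1 2 - w.1 2) % 4 = 0
    omega
  · change (w0.1 3 - w.1 3) % 4 = 0
    omega

lemma sym_w0_two (w : J) (h0 : w.1 0 % 2 = 1) (h1 : w.1 1 % 4 = 2) : Sym w w0 := by
  by_cases h : w.1 0 % 4 = 1
  · exact sym_w0_one w h h1
  · obtain ⟨w', hw, e0, e1⟩ := sym_neg w
    exact hw.trans (sym_w0_one _ (by omega) (by omega))

lemma sym_w0_three (w : J) (h0 : w.1 0 % 2 = 1) : Sym w w0 := by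
  by_cases h : w.1 1 % 4 = 2
  · exact sym_w0_two w h0 h
  · have := w.2
    simp only [newOK] at this
    obtain ⟨w', hw, e0, e1⟩ := sym_two w
    refine hw.trans (sym_w0_two _ (by omega) ?_)
    rcases this with h' | h' | h' | h' <;> omega

lemma sym_w0 (w : J) : Sym w w0 := by
  by_cases h0 : w.1 0 % 2 = 1
  · exact sym_w0_three w h0
  by_cases h2 : w.1 2 % 2 = 1
  · obtain ⟨w', hw, e0, _⟩ := sym_cyc w
    exact hw.trans (sym_w0_three _ (by omega))
  by_cases h1 : w.1 1 % 2 = 1
  · obtain ⟨w', hw, e0, e2⟩ := sym_cyc w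
    obtain ⟨w'', hw', e0', _⟩ := sym_cyc w'
    exact (hw.trans hw').trans (sym_w0_three _ (by omega))
  · have := w.2
    simp only [newOK] at this
    obtain ⟨w', hw, e0⟩ := sym_rev w
    refine hw.trans (sym_w0_three _ ?_)
    rcases this with h' | h' | h' | h' <;> omega

/-- the symmetry group of the new foam is transitive -/
theorem transitive_q (w : J) :
    ∃ (g : E ≃ᵢ E) (s : J ≃ J), (∀ i, g (q i) = q (s i)) ∧ s w0 = w :=
  (sym_w0 w).symm

/-! ### the volume of the cells -/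

/-- residues mod 4 of admissible sites -/
abbrev Res := {r : Fin 4 → Fin 4 // newOK (fun i => ((r i : ℕ) : ℤ))}

lemma card_Res : Fintype.card Res = 16 := by
  decide +kernel

lemma newOK_add (w k : Fin 4 → ℤ) : newOK w ↔ newOK (fun i => w i + 4 * k i) := by
  simp only [newOK]
  constructor
  · intro h
    rcases h with h | h | h | h
    all_goals first
      | exact Or.inl ⟨by omega, by omega, by omega, by omega⟩
      | exact Or.inr (Or.inl ⟨by omega, by omega, by omega, by omega⟩)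
      | exact Or.inr (Or.inr (Or.inl ⟨by omega, by omega, by omega, by omega⟩))
      | exact Or.inr (Or.inr (Or.inr ⟨by omega, by omega, by omega, by omega⟩))
  · intro h
    rcases h with h | h | h | h
    all_goals first
      | exact Or.inl ⟨by omega, by omega, by omega, by omega⟩
      | exact Or.inr (Or.inl ⟨by omega, by omega, by omega, by omega⟩)
      | exact Or.inr (Or.inr (Or.inl ⟨by omega, by omega, by omega, by omega⟩))
      | exact Or.inr (Or.inr (Or.inr ⟨by omega, by omega, by omega, by omega⟩))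

/-- sites = residues times `4 ℤ⁴` -/
def resEquiv : Res × (Fin 4 → ℤ) ≃ J where
  toFun x := ⟨fun i => ((x.1.1 i : ℕ) : ℤ) + 4 * x.2 i, (newOK_add _ _).1 x.1.2⟩
  invFun w := ⟨⟨fun i => ⟨(w.1 i % 4).toNat, by omega⟩, by
      have := w.2
      rw [newOK_add _ (fun i => w.1 i / 4)]
      convert this using 2
      simp only
      omega⟩, fun i => w.1 i / 4⟩
  left_inv x := by
    apply Prod.ext
    · apply Subtype.ext
      funext i
      apply Fin.ext
      have := (x.1.1 i).2
      simp only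
      omega
    · funext i
      have := (x.1.1 i).2
      simp only
      omega
  right_inv w := by
    apply Subtype.ext
    funext i
    simp only
    omega

theorem volume_cell_q (w : J) : volume (cell q w) = 1 := by
  have hall : ∀ w : J, volume (cell q w) = volume (cell q w0) := by
    intro w
    obtain ⟨g, s, h1, h2⟩ := transitive_q w
    rw [← h2]
    exact volume_cell_image g s h1 w0
  have hF : Fin 16 ≃ Res := (Fintype.equivFinOfCardEq card_Res).symm
  have h := volume_periodic vor_q 2 two_pos 16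
    ((hF.prodCongr (Equiv.refl _)).trans resEquiv) (fun r k => by
      ext i
      change (((((hF r).1 i : ℕ) : ℤ) + 4 * k i : ℤ) : ℝ) / 2
        = (((((hF r).1 i : ℕ) : ℤ) + 4 * 0 : ℤ) : ℝ) / 2 + 2 * (k i : ℝ)
      push_cast
      ring) (volume (cell q w0)) hall
  rw [hall w]
  have h16 : ENNReal.ofReal (2 ^ 4) = ((16 : ℕ) : ℝ≥0∞) * 1 := by
    rw [mul_one, ← ENNReal.ofReal_natCast]
    norm_num
  rw [h16] at h
  exact (ENNReal.mul_right_inj (by norm_num) (by norm_num)).1 h

end Pool.Agent.Helper74.Foam
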