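import Pool.Agent.Helper74.Foam.Cone
import Pool.Agent.Helper74.Foam.Period

/-! Module O: the 24-cell honeycomb. -/

set_option autoImplicit false

open MeasureTheory Measure Set Metric
open scoped ENNReal

namespace Pool.Agent.Helper74.Foam

/-- scale of the old foam -/
noncomputable def rr : ℝ := (2 : ℝ) ^ (-(1 / 4 : ℝ))

lemma rr_pos : 0 < rr := by unfold rr; positivity

lemma rr_pow_four : rr ^ 4 = 1 / 2 := by
  unfold rr
  rw [← Real.rpow_natCast, ← Real.rpow_mul (by norm_num)]
  norm_num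

lemma rr_le_one : rr ≤ 1 := by
  by_contra hc
  push Not at hc
  have h1 := rr_pow_four
  have h2 : (1 : ℝ) ^ 4 < rr ^ 4 := by gcongr
  norm_num at h2
  linarith

lemma p_apply (v : I) (i : Fin 4) : p v i = rr * (v.1 i : ℝ) := rfl

lemma dist_p_sq (x : E) (v : I) : dist x (p v) ^ 2 = ∑ i, (x i - rr * (v.1 i : ℝ)) ^ 2 := by
  rw [EuclideanSpace.dist_eq, Real.sq_sqrt (by positivity)]
  refine Finset.sum_congr rfl fun i _ => ?_
  rw [Real.dist_eq, sq_abs, p_apply]

lemma dist_le_iff (x : E) (v w : I) : dist x (p v) ≤ dist x (p w) ↔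
    ∑ i, (x i - rr * (v.1 i : ℝ)) ^ 2 ≤ ∑ i, (x i - rr * (w.1 i : ℝ)) ^ 2 := by
  rw [← dist_p_sq, ← dist_p_sq, sq_le_sq₀ dist_nonneg dist_nonneg]

theorem vor_p : Vor p := by
  refine ⟨?_, ?_, ?_⟩
  · intro v w h
    apply Subtype.ext
    funext i
    have h1 : p v i = p w i := by rw [h]
    rw [p_apply, p_apply] at h1
    have := mul_left_cancel₀ rr_pos.ne' h1
    exact_mod_cast this
  · intro R
    obtain ⟨N, hN⟩ := exists_nat_ge (R / rr)
    have hfin : (Icc (fun _ => -(N : ℤ)) (fun _ => (N : ℤ)) : Set (Fin 4 → ℤ)).Finite :=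
      Set.finite_Icc _ _
    refine (hfin.preimage (f := (Subtype.val : I → Fin 4 → ℤ))
      Subtype.val_injective.injOn).subset ?_
    intro v hv
    have hv' : dist (p v) 0 ≤ R := hv
    have hb : ∀ i, |(v.1 i : ℝ)| ≤ N := by
      intro i
      have h1 : |p v i| ≤ ‖p v‖ := by
        rw [← Real.norm_eq_abs]; exact PiLp.norm_apply_le _ i
      rw [dist_zero_right] at hv'
      rw [p_apply, abs_mul, abs_of_pos rr_pos] at h1
      have h2 : rr * |(v.1 i : ℝ)| ≤ R := h1.trans hv'
      have h3 : |(v.1 i : ℝ)| ≤ R / rr := by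
        rw [le_div_iff₀ rr_pos]; linarith
      exact h3.trans hN
    constructor
    · intro i
      have := (abs_le.1 (hb i)).1
      exact_mod_cast this
    · intro i
      have := (abs_le.1 (hb i)).2
      exact_mod_cast this
  · intro x
    have hev : Even (∑ i : Fin 4, 2 * round (x i / (2 * rr))) := by
      rw [← Finset.mul_sum]
      exact even_two_mul _
    refine ⟨⟨fun i => 2 * round (x i / (2 * rr)), hev⟩, ?_⟩
    have hr := rr_pos
    have hr1 := rr_le_one
    have h2 : dist x (p ⟨fun i => 2 * round (x i / (2 * rr)), hev⟩) ^ 2 ≤ 2 ^ 2 := by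
      rw [dist_p_sq]
      have h3 : ∀ i : Fin 4, (x i - rr * ((2 * round (x i / (2 * rr)) : ℤ) : ℝ)) ^ 2 ≤ 1 := by
        intro i
        have h4 := abs_sub_round (x i / (2 * rr))
        have h5 : x i - rr * ((2 * round (x i / (2 * rr)) : ℤ) : ℝ)
            = (2 * rr) * (x i / (2 * rr) - round (x i / (2 * rr))) := by
          push_cast
          field_simp
        rw [h5, ← sq_abs, abs_mul, abs_of_pos (by positivity : (0 : ℝ) < 2 * rr)]
        have h6 : 2 * rr * |x i / (2 * rr) - round (x i / (2 * rr))| ≤ 1 := by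
          calc 2 * rr * |x i / (2 * rr) - round (x i / (2 * rr))| ≤ 2 * rr * (1 / 2) := by gcongr
            _ ≤ 1 := by linarith
        have h7 : 0 ≤ 2 * rr * |x i / (2 * rr) - round (x i / (2 * rr))| := by positivity
        nlinarith
      calc ∑ i : Fin 4, (x i - rr * ((2 * round (x i / (2 * rr)) : ℤ) : ℝ)) ^ 2
          ≤ ∑ i : Fin 4, (1 : ℝ) := Finset.sum_le_sum fun i _ => h3 i
        _ = 2 ^ 2 := by simp; norm_num
    exact (sq_le_sq₀ dist_nonneg (by norm_num)).1 h2

/-- translation of the index set -/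
def shift (v : I) : I ≃ I where
  toFun u := ⟨fun i => u.1 i + v.1 i, by
    rw [Finset.sum_add_distrib]; exact u.2.add v.2⟩
  invFun u := ⟨fun i => u.1 i - v.1 i, by
    rw [Finset.sum_sub_distrib]; exact u.2.sub v.2⟩
  left_inv u := by apply Subtype.ext; funext i; simp
  right_inv u := by apply Subtype.ext; funext i; simp

/-- the base site -/
def oo : I := ⟨fun _ => 0, by simp⟩

lemma shift_oo (v : I) : shift v oo = v := by
  apply Subtype.ext; funext i; simp [shift, oo]

lemma shift_p (v u : I) : IsometryEquiv.addRight (p v) (p u) = p (shift v u) := by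
  ext i
  simp only [IsometryEquiv.addRight_apply, PiLp.add_apply, p_apply, shift, Equiv.coe_fn_mk]
  push_cast
  ring

/-- the eight classes of `D4` modulo `2 Z^4` -/
def pat (r : Fin 8) : Fin 4 → ℤ :=
  ![(r.1 : ℤ) % 2, (r.1 : ℤ) / 2 % 2, (r.1 : ℤ) / 4 % 2,
    ((r.1 : ℤ) % 2 + (r.1 : ℤ) / 2 % 2 + (r.1 : ℤ) / 4 % 2) % 2]

lemma even_pat (r : Fin 8) : Even (∑ i, pat r i) := by
  revert r; decide

lemma pat_inj : ∀ r s : Fin 8, (∀ i, pat r i = pat s i) → r = s := by decide

lemma pat_mod : ∀ (r : Fin 8) (i : Fin 4), pat r i % 2 = pat r i := by decide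

def eFun (x : Fin 8 × (Fin 4 → ℤ)) : I :=
  ⟨fun i => pat x.1 i + 2 * x.2 i, by
    rw [Finset.sum_add_distrib, ← Finset.mul_sum]
    exact (even_pat x.1).add (even_two_mul _)⟩

lemma eFun_bij : Function.Bijective eFun := by
  constructor
  · rintro ⟨r, k⟩ ⟨s, l⟩ h
    have h1 : ∀ i, pat r i + 2 * k i = pat s i + 2 * l i := fun i => by
      have := congrArg (fun u : I => u.1 i) h
      exact this
    have hrs : r = s := by
      apply pat_inj
      intro i
      have h2 := h1 i
      have h3 := pat_mod r i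
      have h4 := pat_mod s i
      omega
    subst hrs
    congr 1
    funext i
    have := h1 i
    omega
  · rintro ⟨v, hv⟩
    have hb : ∀ a b c : ℤ, (a = 0 ∨ a = 1) → (b = 0 ∨ b = 1) → (c = 0 ∨ c = 1) →
        ∃ r : Fin 8, pat r 0 = a ∧ pat r 1 = b ∧ pat r 2 = c := by
      rintro a b c (rfl | rfl) (rfl | rfl) (rfl | rfl)
      · exact ⟨0, by decide⟩
      · exact ⟨4, by decide⟩
      · exact ⟨2, by decide⟩
      · exact ⟨6, by decide⟩
      · exact ⟨1, by decide⟩
      · exact ⟨5, by decide⟩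
      · exact ⟨3, by decide⟩
      · exact ⟨7, by decide⟩
    obtain ⟨r, h0, h1, h2⟩ := hb (v 0 % 2) (v 1 % 2) (v 2 % 2) (by omega) (by omega) (by omega)
    have h3 : pat r 3 = v 3 % 2 := by
      have e1 := even_pat r
      rw [Fin.sum_univ_four, Int.even_iff] at e1 hv
      have e2 := pat_mod r 3
      omega
    refine ⟨⟨r, fun i => v i / 2⟩, ?_⟩
    apply Subtype.ext
    funext i
    change pat r i + 2 * (v i / 2) = v i
    fin_cases i
    · change pat r 0 + 2 * (v 0 / 2) = v 0; omega
    · change pat r 1 + 2 * (v 1 / 2) = v 1; omega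
    · change pat r 2 + 2 * (v 2 / 2) = v 2; omega
    · change pat r 3 + 2 * (v 3 / 2) = v 3; omega

theorem volume_cell_p (v : I) : volume (cell p v) = 1 := by
  have hv : ∀ v : I, volume (cell p v) = volume (cell p oo) := by
    intro v
    have := volume_cell_image (p := p) (IsometryEquiv.addRight (p v)) (shift v)
      (fun u => shift_p v u) oo
    rwa [shift_oo] at this
  rw [hv]
  have key := volume_periodic vor_p (2 * rr) (by have := rr_pos; positivity) 8
    (Equiv.ofBijective eFun eFun_bij) (by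
      intro r k
      ext i
      simp only [Equiv.ofBijective_apply, PiLp.add_apply, p_apply, eFun, mk]
      simp
      ring) _ hv
  rw [mul_pow, rr_pow_four] at key
  have h8 : ENNReal.ofReal (2 ^ 4 * (1 / 2)) = ((8 : ℕ) : ℝ≥0∞) * 1 := by
    rw [mul_one, ← ENNReal.ofReal_natCast]
    norm_num
  rw [h8] at key
  exact (ENNReal.mul_right_inj (by norm_num) (ENNReal.natCast_ne_top 8)).1 key

lemma mem_cell_oo (x : E) : x ∈ cell p oo ↔
    ∀ u : I, 2 * ∑ i, x i * (u.1 i : ℝ) ≤ rr * ∑ i, (u.1 i : ℝ) ^ 2 := by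
  have hr := rr_pos
  unfold cell
  simp only [mem_ofPred_eq, dist_le_iff, Fin.sum_univ_four, oo]
  refine forall_congr' fun u => ?_
  push_cast
  constructor
  · intro h
    have : rr * (2 * (x 0 * (u.1 0 : ℝ) + x 1 * (u.1 1 : ℝ) + x 2 * (u.1 2 : ℝ)
        + x 3 * (u.1 3 : ℝ))) ≤ rr * (rr * ((u.1 0 : ℝ) ^ 2 + (u.1 1 : ℝ) ^ 2 + (u.1 2 : ℝ) ^ 2
        + (u.1 3 : ℝ) ^ 2)) := by nlinarith
    exact le_of_mul_le_mul_left this hr
  · intro h
    have := mul_le_mul_of_nonneg_left h hr.le
    nlinarith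

/-- if all pair sums of absolute values are at most `r`, the norm is at most `r` -/
lemma sq_sum_le {a b c d r : ℝ} (ha : 0 ≤ a) (hb : 0 ≤ b) (hc : 0 ≤ c) (hd : 0 ≤ d)
    (hab : a + b ≤ r) (hac : a + c ≤ r) (had : a + d ≤ r) (hbc : b + c ≤ r)
    (hbd : b + d ≤ r) (hcd : c + d ≤ r) : a ^ 2 + b ^ 2 + c ^ 2 + d ^ 2 ≤ r ^ 2 := by
  have hcase : ∀ a b c d : ℝ, 0 ≤ a → 0 ≤ b → 0 ≤ c → 0 ≤ d → a + b ≤ r → a + c ≤ r →
      a + d ≤ r → b ≤ a → c ≤ a → d ≤ a → a ^ 2 + b ^ 2 + c ^ 2 + d ^ 2 ≤ r ^ 2 := by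
    intro a b c d ha hb hc hd hab hac had hba hca hda
    by_cases h : 2 * a ≤ r
    · nlinarith
    · have h1 : b ^ 2 ≤ (r - a) ^ 2 := by
        apply pow_le_pow_left₀ hb; linarith
      have h2 : c ^ 2 ≤ (r - a) ^ 2 := by
        apply pow_le_pow_left₀ hc; linarith
      have h3 : d ^ 2 ≤ (r - a) ^ 2 := by
        apply pow_le_pow_left₀ hd; linarith
      have h4 : (r - a) * (2 * (r - a) - r) ≤ 0 := by
        apply mul_nonpos_of_nonneg_of_nonpos <;> linarith
      nlinarith
  rcases le_total a b with h1 | h1 <;> rcases le_total c d with h2 | h2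
  · rcases le_total b d with h3 | h3
    · have := hcase d a b c hd ha hb hc (by linarith) (by linarith) (by linarith) (by linarith)
        (by linarith) (by linarith)
      linarith
    · have := hcase b a c d hb ha hc hd (by linarith) (by linarith) (by linarith) (by linarith)
        (by linarith) (by linarith)
      linarith
  · rcases le_total b c with h3 | h3
    · have := hcase c a b d hc ha hb hd (by linarith) (by linarith) (by linarith) (by linarith)
        (by linarith) (by linarith)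
      linarith
    · have := hcase b a c d hb ha hc hd (by linarith) (by linarith) (by linarith) (by linarith)
        (by linarith) (by linarith)
      linarith
  · rcases le_total a d with h3 | h3
    · have := hcase d a b c hd ha hb hc (by linarith) (by linarith) (by linarith) (by linarith)
        (by linarith) (by linarith)
      linarith
    · have := hcase a b c d ha hb hc hd (by linarith) (by linarith) (by linarith) (by linarith)
        (by linarith) (by linarith)
      linarith
  · rcases le_total a c with h3 | h3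
    · have := hcase c a b d hc ha hb hd (by linarith) (by linarith) (by linarith) (by linarith)
        (by linarith) (by linarith)
      linarith
    · have := hcase a b c d ha hb hc hd (by linarith) (by linarith) (by linarith) (by linarith)
        (by linarith) (by linarith)
      linarith

lemma finite_roots : {v : I | ∑ i, (v.1 i) ^ 2 = 2}.Finite := by
  refine ((Set.finite_Icc (fun _ => (-2 : ℤ)) (fun _ => (2 : ℤ)) :
    (Icc (fun _ => (-2 : ℤ)) (fun _ => (2 : ℤ)) : Set (Fin 4 → ℤ)).Finite).preimage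
      (f := (Subtype.val : I → Fin 4 → ℤ)) Subtype.val_injective.injOn).subset ?_
  intro v hv
  have hv' : ∑ i, (v.1 i) ^ 2 = 2 := hv
  have hb : ∀ i, (v.1 i) ^ 2 ≤ 2 := by
    intro i
    rw [← hv']
    exact Finset.single_le_sum (f := fun i => (v.1 i) ^ 2) (fun i _ => sq_nonneg _)
      (Finset.mem_univ i)
  constructor
  · intro i
    have := hb i
    change -2 ≤ v.1 i
    nlinarith
  · intro i
    have := hb i
    change v.1 i ≤ 2
    nlinarith

/-- the 24 roots -/
noncomputable def roots : Finset I := finite_roots.toFinset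

lemma mem_roots (v : I) : v ∈ roots ↔ ∑ i, (v.1 i) ^ 2 = 2 := by
  simp [roots]

/-- if all roots have inner product at most `M` with `y` then so do the pairs of coordinates -/
lemma pair_le (y : E) (M : ℝ) (h : ∀ w ∈ roots, ∑ i, y i * (w.1 i : ℝ) ≤ M) (a b c d : ℝ)
    (ha : a = |y 0|) (hb : b = |y 1|) (hc : c = |y 2|) (hd : d = |y 3|) :
    a + b ≤ M ∧ a + c ≤ M ∧ a + d ≤ M ∧ b + c ≤ M ∧ b + d ≤ M ∧ c + d ≤ M := by
  have key : ∀ w : Fin 4 → ℤ, (Even (∑ i, w i)) → (∑ i, (w i) ^ 2 = 2) →
      y 0 * (w 0 : ℝ) + y 1 * (w 1 : ℝ) + y 2 * (w 2 : ℝ) + y 3 * (w 3 : ℝ) ≤ M := by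
    intro w h1 h2
    have := h ⟨w, h1⟩ ((mem_roots _).2 h2)
    rwa [Fin.sum_univ_four] at this
  have abs_cases : ∀ x : ℝ, (|x| = x) ∨ (|x| = -x) := fun x => abs_choice x
  refine ⟨?_, ?_, ?_, ?_, ?_, ?_⟩
  · have e1 := key ![1, 1, 0, 0] (by decide) (by decide)
    have e2 := key ![1, -1, 0, 0] (by decide) (by decide)
    have e3 := key ![-1, 1, 0, 0] (by decide) (by decide)
    have e4 := key ![-1, -1, 0, 0] (by decide) (by decide)
    simp at e1 e2 e3 e4
    rcases abs_cases (y 0) with h1 | h1 <;> rcases abs_cases (y 1) with h2 | h2 <;>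
      rw [ha, hb, h1, h2] <;> linarith
  · have e1 := key ![1, 0, 1, 0] (by decide) (by decide)
    have e2 := key ![1, 0, -1, 0] (by decide) (by decide)
    have e3 := key ![-1, 0, 1, 0] (by decide) (by decide)
    have e4 := key ![-1, 0, -1, 0] (by decide) (by decide)
    simp at e1 e2 e3 e4
    rcases abs_cases (y 0) with h1 | h1 <;> rcases abs_cases (y 2) with h2 | h2 <;>
      rw [ha, hc, h1, h2] <;> linarith
  · have e1 := key ![1, 0, 0, 1] (by decide) (by decide)
    have e2 := key ![1, 0, 0, -1] (by decide) (by decide)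
    have e3 := key ![-1, 0, 0, 1] (by decide) (by decide)
    have e4 := key ![-1, 0, 0, -1] (by decide) (by decide)
    simp at e1 e2 e3 e4
    rcases abs_cases (y 0) with h1 | h1 <;> rcases abs_cases (y 3) with h2 | h2 <;>
      rw [ha, hd, h1, h2] <;> linarith
  · have e1 := key ![0, 1, 1, 0] (by decide) (by decide)
    have e2 := key ![0, 1, -1, 0] (by decide) (by decide)
    have e3 := key ![0, -1, 1, 0] (by decide) (by decide)
    have e4 := key ![0, -1, -1, 0] (by decide) (by decide)
    simp at e1 e2 e3 e4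
    rcases abs_cases (y 1) with h1 | h1 <;> rcases abs_cases (y 2) with h2 | h2 <;>
      rw [hb, hc, h1, h2] <;> linarith
  · have e1 := key ![0, 1, 0, 1] (by decide) (by decide)
    have e2 := key ![0, 1, 0, -1] (by decide) (by decide)
    have e3 := key ![0, -1, 0, 1] (by decide) (by decide)
    have e4 := key ![0, -1, 0, -1] (by decide) (by decide)
    simp at e1 e2 e3 e4
    rcases abs_cases (y 1) with h1 | h1 <;> rcases abs_cases (y 3) with h2 | h2 <;>
      rw [hb, hd, h1, h2] <;> linarith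
  · have e1 := key ![0, 0, 1, 1] (by decide) (by decide)
    have e2 := key ![0, 0, 1, -1] (by decide) (by decide)
    have e3 := key ![0, 0, -1, 1] (by decide) (by decide)
    have e4 := key ![0, 0, -1, -1] (by decide) (by decide)
    simp at e1 e2 e3 e4
    rcases abs_cases (y 2) with h1 | h1 <;> rcases abs_cases (y 3) with h2 | h2 <;>
      rw [hc, hd, h1, h2] <;> linarith

/-- coordinate form of the membership criterion from the roots -/
lemma mem_cell_of_roots (z : E) (h : ∀ w ∈ roots, ∑ i, z i * (w.1 i : ℝ) ≤ rr) :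
    z ∈ cell p oo := by
  have hr := rr_pos
  have hn : ∑ i, (z i) ^ 2 ≤ rr ^ 2 := by
    obtain ⟨h1, h2, h3, h4, h5, h6⟩ := pair_le z rr h _ _ _ _ rfl rfl rfl rfl
    have := sq_sum_le (abs_nonneg (z 0)) (abs_nonneg (z 1)) (abs_nonneg (z 2))
      (abs_nonneg (z 3)) h1 h2 h3 h4 h5 h6
    simp only [sq_abs] at this
    rw [Fin.sum_univ_four]
    exact this
  rw [mem_cell_oo]
  intro u
  obtain ⟨N, hN⟩ : ∃ N : ℤ, ∑ i, (u.1 i) ^ 2 = N := ⟨_, rfl⟩
  have hNR : ∑ i, (u.1 i : ℝ) ^ 2 = (N : ℝ) := by rw [← hN]; push_cast; rfl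
  have hN0 : 0 ≤ N := by rw [← hN]; positivity
  have hNe : Even N := by
    have h1 : Even (∑ i, ((u.1 i) ^ 2 - u.1 i)) := by
      apply Finset.even_sum
      intro i _
      have : (u.1 i) ^ 2 - u.1 i = u.1 i * (u.1 i - 1) := by ring
      rw [this]
      exact Int.even_mul_pred_self _
    rw [Finset.sum_sub_distrib, hN] at h1
    have h2 := h1.add u.2
    simpa using h2
  rw [hNR]
  obtain ⟨m, hm⟩ := hNe
  rcases (by omega : N = 0 ∨ N = 2 ∨ 4 ≤ N) with h0 | h2 | h4
  · have hu : ∀ i, u.1 i = 0 := by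
      intro i
      have h1 : (u.1 i) ^ 2 ≤ 0 := by
        rw [← h0, ← hN]
        exact Finset.single_le_sum (f := fun i => (u.1 i) ^ 2) (fun i _ => sq_nonneg _)
          (Finset.mem_univ i)
      nlinarith [sq_nonneg (u.1 i), pow_eq_zero_iff (two_ne_zero) |>.1 (le_antisymm h1 (sq_nonneg _))]
    simp [hu, h0]
  · have := h u ((mem_roots u).2 (hN.trans h2))
    rw [h2]
    push_cast
    linarith
  · have hcs := Finset.sum_mul_sq_le_sq_mul_sq Finset.univ (fun i => z i) (fun i => (u.1 i : ℝ))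
    simp only at hcs
    rw [hNR] at hcs
    have h4R : (4 : ℝ) ≤ N := by exact_mod_cast h4
    have h5 : (∑ i, z i * (u.1 i : ℝ)) ^ 2 ≤ rr ^ 2 * N := by
      refine hcs.trans ?_
      gcongr
    have h6 : (2 * ∑ i, z i * (u.1 i : ℝ)) ^ 2 ≤ (rr * N) ^ 2 := by
      have h7 : rr ^ 2 * (4 * N) ≤ rr ^ 2 * (N * N) := by gcongr
      nlinarith
    exact le_of_sq_le_sq h6 (by positivity)

lemma cell_oo_cover : cell p oo ⊆ {p oo} ∪ ⋃ j ∈ roots, cone (p oo) (facet p oo j) := by
  have hr := rr_pos
  have hp0 : p oo = 0 := by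
    ext i
    simp [p_apply, oo]
  intro y hy
  by_cases hy0 : y = 0
  · left
    rw [hy0, hp0]; rfl
  right
  -- the best root
  have hne : roots.Nonempty := ⟨⟨![1, 1, 0, 0], by decide⟩, (mem_roots _).2 (by decide)⟩
  obtain ⟨w, hw, hmax⟩ := Finset.exists_max_image roots (fun w => ∑ i, y i * (w.1 i : ℝ)) hne
  set M := ∑ i, y i * (w.1 i : ℝ) with hM
  have hw2 := (mem_roots w).1 hw
  have hw2R : ∑ i, (w.1 i : ℝ) ^ 2 = 2 := by exact_mod_cast hw2
  have hMpos : 0 < M := by
    obtain ⟨h1, h2, h3, h4, h5, h6⟩ := pair_le y M hmax _ _ _ _ rfl rfl rfl rfl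
    by_contra hc
    push Not at hc
    apply hy0
    have a0 := abs_nonneg (y 0)
    have a1 := abs_nonneg (y 1)
    have a2 := abs_nonneg (y 2)
    have a3 := abs_nonneg (y 3)
    have b0 : |y 0| = 0 := by linarith
    have b1 : |y 1| = 0 := by linarith
    have b2 : |y 2| = 0 := by linarith
    have b3 : |y 3| = 0 := by linarith
    ext i
    fin_cases i
    · simpa using b0
    · simpa using b1
    · simpa using b2
    · simpa using b3
  have hMr : M ≤ rr := by
    have := (mem_cell_oo y).1 hy w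
    rw [hw2R] at this
    linarith
  simp only [mem_iUnion]
  refine ⟨w, hw, M / rr, ⟨by positivity, by rw [div_le_one hr]; exact hMr⟩, (rr / M) • y,
    ?_, ?_⟩
  · have hz : (rr / M) • y ∈ cell p oo := by
      apply mem_cell_of_roots
      intro u hu
      have e1 : ∑ i, ((rr / M) • y) i * (u.1 i : ℝ) = (rr / M) * ∑ i, y i * (u.1 i : ℝ) := by
        rw [Finset.mul_sum]
        refine Finset.sum_congr rfl fun i _ => ?_
        simp [mul_assoc]
      rw [e1]
      calc rr / M * ∑ i, y i * (u.1 i : ℝ) ≤ rr / M * M := by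
            have := hmax u hu
            gcongr
        _ = rr := by field_simp
    refine ⟨hz, ?_⟩
    intro u
    have hle : dist ((rr / M) • y) (p w) ≤ dist ((rr / M) • y) (p oo) := by
      rw [dist_le_iff]
      have e1 : ∑ i, ((rr / M) • y) i * (w.1 i : ℝ) = rr := by
        have : ∑ i, ((rr / M) • y) i * (w.1 i : ℝ) = (rr / M) * ∑ i, y i * (w.1 i : ℝ) := by
          rw [Finset.mul_sum]
          refine Finset.sum_congr rfl fun i _ => ?_
          simp [mul_assoc]
        rw [this, ← hM]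
        field_simp
      have e2 : ∀ i, (((rr / M) • y) i - rr * (w.1 i : ℝ)) ^ 2
          = (((rr / M) • y) i) ^ 2 - 2 * rr * (((rr / M) • y) i * (w.1 i : ℝ))
            + rr ^ 2 * (w.1 i : ℝ) ^ 2 := fun i => by ring
      simp only [e2, Finset.sum_add_distrib, Finset.sum_sub_distrib, ← Finset.mul_sum]
      rw [e1, hw2R]
      simp [oo]
      nlinarith
    exact hle.trans (hz u)
  · rw [hp0, zero_add, sub_zero, smul_smul]
    have : M / rr * (rr / M) = 1 := by field_simp
    rw [this, one_smul]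

lemma dist_root {w : I} (hw : w ∈ roots) : dist (p oo) (p w) ≤ Real.sqrt 2 * rr := by
  have hr := rr_pos
  have h1 := dist_p_sq (p oo) w
  have hw2R : ∑ i, (w.1 i : ℝ) ^ 2 = 2 := by exact_mod_cast (mem_roots w).1 hw
  have h2 : ∑ i, ((p oo) i - rr * (w.1 i : ℝ)) ^ 2 = rr ^ 2 * ∑ i, (w.1 i : ℝ) ^ 2 := by
    rw [Finset.mul_sum]
    refine Finset.sum_congr rfl fun i _ => ?_
    simp [p_apply, oo]
    ring
  rw [h2, hw2R] at h1
  have h3 : dist (p oo) (p w) ^ 2 ≤ (Real.sqrt 2 * rr) ^ 2 := by
    rw [mul_pow, Real.sq_sqrt (by norm_num)]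
    linarith
  exact le_of_sq_le_sq h3 (by positivity)

lemma oo_not_root : oo ∉ roots := by
  rw [mem_roots]
  simp [oo]

lemma const_le : aC * (Real.sqrt 2 * rr / 8) ≤ 1 := by
  have hr := rr_pos
  have h4 := rr_pow_four
  -- s = sqrt 2 * rr satisfies s ^ 4 = 2
  set s := Real.sqrt 2 * rr with hs
  have hs0 : 0 < s := by positivity
  have hs4 : s ^ 4 = 2 := by
    rw [hs, mul_pow, h4]
    have : Real.sqrt 2 ^ 4 = 4 := by
      rw [show (4 : ℕ) = 2 * 2 from rfl, pow_mul, Real.sq_sqrt (by norm_num)]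
      norm_num
    rw [this]; norm_num
  have hs1 : s ≤ 118923 / 100000 := by
    by_contra hc
    push Not at hc
    have : (118923 / 100000 : ℝ) ^ 4 < s ^ 4 := by gcongr
    rw [hs4] at this
    norm_num at this
  unfold aC
  nlinarith

theorem area_cell_p (v : I) : ENNReal.ofReal aC ≤ μHE[3] (frontier (cell p v)) := by
  have hr := rr_pos
  have h1 : μHE[3] (frontier (cell p v)) = μHE[3] (frontier (cell p oo)) := by
    have := area_cell_image (p := p) (IsometryEquiv.addRight (p v)) (shift v)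
      (fun u => shift_p v u) oo
    rwa [shift_oo] at this
  rw [h1]
  have key := le_area_frontier vor_p oo roots oo_not_root (Real.sqrt 2 * rr)
    (fun j hj => dist_root hj) cell_oo_cover
  rw [volume_cell_p] at key
  calc ENNReal.ofReal aC = ENNReal.ofReal aC * 1 := (mul_one _).symm
    _ ≤ ENNReal.ofReal aC * (ENNReal.ofReal (Real.sqrt 2 * rr / 8)
          * μHE[3] (frontier (cell p oo))) := by gcongr
    _ = ENNReal.ofReal (aC * (Real.sqrt 2 * rr / 8)) * μHE[3] (frontier (cell p oo)) := by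
        rw [← mul_assoc, ← ENNReal.ofReal_mul (by unfold aC; norm_num)]
    _ ≤ ENNReal.ofReal 1 * μHE[3] (frontier (cell p oo)) := by
        gcongr
        exact const_le
    _ = μHE[3] (frontier (cell p oo)) := by simp

end Pool.Agent.Helper74.Foam
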