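import Pool.Agent.Helper74.Foam.Defs

/-! Module V: elementary facts on Voronoi cells. -/

set_option autoImplicit false

open MeasureTheory Measure Set Metric
open scoped ENNReal

namespace Pool.Agent.Helper74.Foam

variable {ι : Type*}

lemma isClosed_cell (p : ι → E) (i : ι) : IsClosed (cell p i) := by
  have : cell p i = ⋂ j, {x | dist x (p i) ≤ dist x (p j)} := by
    ext x; simp [cell]
  rw [this]
  exact isClosed_iInter fun j => isClosed_le (by fun_prop) (by fun_prop)

lemma measurableSet_cell (p : ι → E) (i : ι) : MeasurableSet (cell p i) :=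
  (isClosed_cell p i).measurableSet

lemma isClosed_facet (p : ι → E) (i j : ι) : IsClosed (facet p i j) :=
  (isClosed_cell p i).inter (isClosed_cell p j)

lemma mem_cell_self (p : ι → E) (i : ι) : p i ∈ cell p i := by
  intro j; rw [dist_self]; exact dist_nonneg

lemma dist_le_two {p : ι → E} (h : Vor p) {i : ι} {x : E} (hx : x ∈ cell p i) :
    dist x (p i) ≤ 2 := by
  obtain ⟨j, hj⟩ := h.cov x
  exact (hx j).trans hj

/-- two cells that meet have sites at distance at most `4` -/
lemma dist_le_four {p : ι → E} (h : Vor p) {i j : ι} {x : E} (hx : x ∈ cell p i)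
    (hy : x ∈ cell p j) : dist (p i) (p j) ≤ 4 := by
  have h1 := dist_le_two h hx
  have h2 := dist_le_two h hy
  have := dist_triangle_left (p i) (p j) x
  linarith

lemma exists_cell {p : ι → E} (h : Vor p) (x : E) : ∃ i, x ∈ cell p i := by
  classical
  obtain ⟨i0, hi0⟩ := h.cov x
  have hfin := h.lf (dist x 0 + 2)
  have hi0' : i0 ∈ hfin.toFinset := by
    simp only [Finite.mem_toFinset, mem_ofPred_eq]
    have := dist_triangle_left (p i0) 0 x
    linarith
  obtain ⟨i, hi, hmin⟩ := Finset.exists_min_image hfin.toFinset (fun i => dist x (p i)) ⟨i0, hi0'⟩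
  refine ⟨i, fun j => ?_⟩
  by_cases hj : j ∈ hfin.toFinset
  · exact hmin j hj
  · simp only [Finite.mem_toFinset, mem_ofPred_eq, not_le] at hj
    have h1 := hmin i0 hi0'
    have h2 := dist_triangle_left (p j) 0 x
    have h3 := dist_triangle_left (p j) x 0
    rw [dist_comm 0 (p j), dist_comm 0 x, dist_comm (p j) x] at h3
    linarith

lemma Vor.countable {p : ι → E} (h : Vor p) : Countable ι := by
  have h1 : (univ : Set ι) = ⋃ n : ℕ, {i | dist (p i) 0 ≤ n} := by
    ext i
    simp only [mem_univ, mem_iUnion, mem_ofPred_eq, true_iff]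
    exact exists_nat_ge _
  rw [← countable_univ_iff, h1]
  exact countable_iUnion fun n => (h.lf n).countable

/-- the bisector of two distinct points is Lebesgue null -/
lemma volume_facet {p : ι → E} (h : Vor p) {i j : ι} (hij : i ≠ j) :
    volume (facet p i j) = 0 := by
  have h1 : facet p i j ⊆ (AffineSubspace.perpBisector (p i) (p j) : Set E) := by
    rintro x ⟨hx, hx'⟩
    rw [SetLike.mem_coe, AffineSubspace.mem_perpBisector_iff_dist_eq]
    exact le_antisymm (hx j) (hx' i)
  refine measure_mono_null h1 (Measure.addHaar_affineSubspace _ _ ?_)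
  rw [Ne, AffineSubspace.perpBisector_eq_top]
  exact fun e => hij (h.inj e)

/-- a small ball around a point meets only cells that contain the point -/
lemma exists_ball_cell {p : ι → E} (h : Vor p) (x : E) :
    ∃ ε > 0, ∀ y ∈ ball x ε, ∀ j, y ∈ cell p j → x ∈ cell p j := by
  classical
  obtain ⟨i, hi⟩ := exists_cell h x
  set r := dist x (p i) with hr
  have hfin := h.lf (dist x 0 + r + 2)
  -- finite set of relevant sites that do not contain x
  set T : Finset ι := hfin.toFinset.filter (fun j => x ∉ cell p j) with hT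
  have hpos : ∀ j, x ∉ cell p j → r < dist x (p j) := by
    intro j hj
    by_contra hc
    push Not at hc
    exact hj fun k => hc.trans (hi k)
  obtain ⟨δ, hδ, hδT⟩ : ∃ δ > 0, ∀ j ∈ T, r + δ ≤ dist x (p j) := by
    rcases T.eq_empty_or_nonempty with hE | hne
    · exact ⟨1, one_pos, by simp [hE]⟩
    · obtain ⟨j0, hj0, hmin⟩ := Finset.exists_min_image T (fun j => dist x (p j)) hne
      refine ⟨dist x (p j0) - r, ?_, fun j hj => ?_⟩
      · have := hpos j0 (Finset.mem_filter.1 hj0).2
        linarith
      · have := hmin j hj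
        linarith
  refine ⟨min (δ / 2) 1, by positivity, fun y hy j hyj => ?_⟩
  by_contra hxj
  rw [mem_ball, lt_min_iff] at hy
  have h1 : dist y (p j) ≤ dist y (p i) := hyj i
  have h2 : dist y (p i) ≤ dist y x + r := dist_triangle _ _ _
  have h3 : dist x (p j) ≤ dist y x + dist y (p j) := dist_triangle_left _ _ _
  have hjT : j ∈ T := by
    rw [hT, Finset.mem_filter]
    refine ⟨?_, hxj⟩
    simp only [Finite.mem_toFinset, mem_ofPred_eq]
    have := dist_triangle_left (p j) 0 x
    linarith
  have := hδT j hjT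
  linarith

lemma frontier_cell_subset {p : ι → E} (h : Vor p) (i : ι) :
    frontier (cell p i) ⊆ ⋃ j ∈ {j | j ≠ i}, facet p i j := by
  intro x hx
  have hxi : x ∈ cell p i := (isClosed_cell p i).frontier_subset hx
  simp only [mem_iUnion]
  by_contra hc
  push Not at hc
  obtain ⟨ε, hε, hball⟩ := exists_ball_cell h x
  refine hx.2 (mem_interior.2 ⟨ball x ε, ?_, isOpen_ball, mem_ball_self hε⟩)
  intro y hy
  obtain ⟨j, hj⟩ := exists_cell h y
  have hxj := hball y hy j hj
  by_cases hji : j = i
  · rwa [hji] at hj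
  · exact absurd ⟨hxi, hxj⟩ (hc j hji)

lemma facet_subset_frontier {p : ι → E} (h : Vor p) {i j : ι} (hij : i ≠ j) :
    facet p i j ⊆ frontier (cell p i) := by
  rintro x ⟨hx, hx'⟩
  refine ⟨subset_closure hx, fun hint => ?_⟩
  have hne : p j - p i ≠ 0 := sub_ne_zero.2 fun e => hij (h.inj e).symm
  -- the ray from x in direction p j - p i leaves the cell at once
  have hcont : Filter.Tendsto (fun t : ℝ => x + t • (p j - p i)) (nhdsWithin 0 (Ioi 0)) (nhds x) := by
    have : Continuous fun t : ℝ => x + t • (p j - p i) := by fun_prop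
    have h2 := this.tendsto 0
    simp only [zero_smul, add_zero] at h2
    exact h2.mono_left nhdsWithin_le_nhds
  have hev := hcont.eventually (isOpen_interior.mem_nhds hint)
  obtain ⟨t, ht, ht0⟩ := (hev.and self_mem_nhdsWithin).exists
  have hcell := (interior_subset ht) j
  have heq : dist x (p i) = dist x (p j) := le_antisymm (hx j) (hx' i)
  rw [dist_eq_norm, dist_eq_norm] at hcell heq
  have h1 : ‖x - p i‖ ^ 2 = ‖x - p j‖ ^ 2 := by rw [heq]
  have h2 : ‖x + t • (p j - p i) - p i‖ ^ 2 ≤ ‖x + t • (p j - p i) - p j‖ ^ 2 := by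
    gcongr
  have e1 : x + t • (p j - p i) - p i = (x - p i) + t • (p j - p i) := by abel
  have e2 : x + t • (p j - p i) - p j = (x - p j) + t • (p j - p i) := by abel
  rw [e1, e2, norm_add_sq_real, norm_add_sq_real, inner_smul_right, inner_smul_right, h1] at h2
  have h3 : t * inner ℝ (x - p i) (p j - p i) ≤ t * inner ℝ (x - p j) (p j - p i) := by linarith
  have h4 := le_of_mul_le_mul_left h3 ht0
  have h5 : inner ℝ (x - p i) (p j - p i) - inner ℝ (x - p j) (p j - p i)
      = ‖p j - p i‖ ^ 2 := by
    rw [← inner_sub_left, ← real_inner_self_eq_norm_sq]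
    congr 1
    abel
  have h6 : 0 < ‖p j - p i‖ ^ 2 := by positivity
  linarith

/-- membership in the bisector as an inner product -/
lemma inner_eq_of_dist_eq (a b x : E) (h : dist x a = dist x b) :
    inner ℝ (b - a) (x - a) = ‖b - a‖ ^ 2 / 2 := by
  rw [dist_eq_norm, dist_eq_norm] at h
  have h1 : ‖x - a‖ ^ 2 = ‖x - b‖ ^ 2 := by rw [h]
  have e : x - b = (x - a) - (b - a) := by abel
  rw [e, norm_sub_sq_real (x - a) (b - a), real_inner_comm (b - a) (x - a)] at h1
  linarith

/-- sets in affine planes have no 3-dimensional area -/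
lemma area_plane {u v : E} (hlin : LinearIndependent ℝ ![u, v]) (a : E) (α β : ℝ) (S : Set E)
    (hS : ∀ x ∈ S, inner ℝ u (x - a) = α ∧ inner ℝ v (x - a) = β) : μHE[3] S = 0 := by
  rcases S.eq_empty_or_nonempty with rfl | ⟨x0, hx0⟩
  · exact measure_empty
  set K : Submodule ℝ E := (Submodule.span ℝ (range ![u, v]))ᗮ with hK
  have hfr : Module.finrank ℝ K < 3 := by
    have h1 := Submodule.finrank_add_finrank_orthogonal (Submodule.span ℝ (range ![u, v]))
    rw [finrank_span_eq_card hlin] at h1
    simp only [Fintype.card_fin, finrank_euclideanSpace] at h1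
    rw [hK]
    omega
  have hsub : S ⊆ (fun k : K => x0 + (k : E)) '' univ := by
    intro x hx
    have hxk : x - x0 ∈ K := by
      rw [hK, Submodule.mem_orthogonal]
      intro w hw
      have h0 := hS x0 hx0
      have h1 := hS x hx
      have e : x - x0 = (x - a) - (x0 - a) := by abel
      induction hw using Submodule.span_induction with
      | mem w hw =>
        obtain ⟨i, rfl⟩ := hw
        rw [e, inner_sub_right]
        fin_cases i
        · simp [h0.1, h1.1]
        · simp [h0.2, h1.2]
      | zero => simp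
      | add y z _ _ hy hz => rw [inner_add_left, hy, hz, add_zero]
      | smul c y _ hy => rw [inner_smul_left, hy, mul_zero]
    exact ⟨⟨x - x0, hxk⟩, mem_univ _, by simp⟩
  have hiso : Isometry (fun k : K => x0 + (k : E)) :=
    Isometry.of_dist_eq fun k l => by simp [dist_eq_norm]
  refine measure_mono_null hsub ?_
  rw [hiso.euclideanHausdorffMeasure_image, euclideanHausdorffMeasure_def]
  rw [Measure.smul_apply]
  have : (μH[((3 : ℕ) : ℝ)] : Measure K) = 0 := by
    apply Real.hausdorffMeasure_of_finrank_lt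
    exact_mod_cast hfr
  rw [this]
  simp

/-- points in three cells form an `μHE[3]`-null set (they lie in an affine plane) -/
lemma area_triple {p : ι → E} (h : Vor p) {i j k : ι} (hij : i ≠ j) (hik : i ≠ k) (hjk : j ≠ k) :
    μHE[3] (cell p i ∩ cell p j ∩ cell p k) = 0 := by
  set u := p j - p i with hu
  set v := p k - p i with hv
  have hu0 : u ≠ 0 := sub_ne_zero.2 fun e => hij (h.inj e).symm
  have hv0 : v ≠ 0 := sub_ne_zero.2 fun e => hik (h.inj e).symm
  have key : ∀ x ∈ cell p i ∩ cell p j ∩ cell p k,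
      inner ℝ u (x - p i) = ‖u‖ ^ 2 / 2 ∧ inner ℝ v (x - p i) = ‖v‖ ^ 2 / 2 := by
    rintro x ⟨⟨hi, hj⟩, hk⟩
    exact ⟨inner_eq_of_dist_eq _ _ _ (le_antisymm (hi j) (hj i)),
      inner_eq_of_dist_eq _ _ _ (le_antisymm (hi k) (hk i))⟩
  by_cases hlin : LinearIndependent ℝ ![u, v]
  · exact area_plane hlin (p i) _ _ _ key
  · rw [LinearIndependent.pair_iff' hu0] at hlin
    push Not at hlin
    obtain ⟨c, hc⟩ := hlin
    have hempty : cell p i ∩ cell p j ∩ cell p k = ∅ := by
      rw [eq_empty_iff_forall_notMem]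
      intro x hx
      obtain ⟨h1, h2⟩ := key x hx
      rw [← hc, inner_smul_left, h1, norm_smul, mul_pow] at h2
      simp only [conj_trivial, Real.norm_eq_abs, sq_abs] at h2
      have hn : ‖u‖ ^ 2 ≠ 0 := by positivity
      have hc0 : c ≠ 0 := by
        rintro rfl
        exact hv0 (by rw [← hc, zero_smul])
      have hc1 : c = 1 := by
        have : c * ‖u‖ ^ 2 * (c - 1) = 0 := by linarith
        rcases mul_eq_zero.1 this with h3 | h3
        · rcases mul_eq_zero.1 h3 with h4 | h4
          · exact absurd h4 hc0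
          · exact absurd h4 hn
        · linarith
      rw [hc1, one_smul, hu, hv] at hc
      exact hjk (h.inj (sub_left_injective hc))
    rw [hempty, measure_empty]

/-- a union of cells is closed (local finiteness) -/
lemma isClosed_biUnion_cell {p : ι → E} (h : Vor p) (K : Set ι) :
    IsClosed (⋃ i ∈ K, cell p i) := by
  rw [← isOpen_compl_iff, Metric.isOpen_iff]
  intro x hx
  obtain ⟨ε, hε, hball⟩ := exists_ball_cell h x
  refine ⟨ε, hε, fun y hy hyK => hx ?_⟩
  simp only [mem_iUnion] at hyK ⊢
  obtain ⟨i, hi, hyi⟩ := hyK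
  exact ⟨i, hi, hball y hy i hyi⟩

end Pool.Agent.Helper74.Foam
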